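import Mathlib

set_option autoImplicit false

/-!
# Hausdorff content and separated sets
-/

open MeasureTheory Set Filter Topology ENNReal NNReal Metric

namespace Pool.Agent.Y245.Pl

/-- Separated sets which cover. -/
theorem sep_cover {X : Type*} [MetricSpace X] [ProperSpace X] {A : Set X}
    (hA : Bornology.IsBounded A) {δ : ℝ} (hδ : 0 < δ) :
    ∃ Y : Finset X, (Y : Set X) ⊆ A ∧ (∀ x ∈ Y, ∀ y ∈ Y, x ≠ y → δ < dist x y) ∧
      A ⊆ ⋃ y ∈ Y, closedBall y δ := by
  classical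
  set ε : ℝ≥0 := (δ / 2).toNNReal with hε
  have hεc : (ε : ℝ) = δ / 2 := Real.coe_toNNReal _ (by positivity)
  have hε0 : ε ≠ 0 := by
    intro h
    have : (ε : ℝ) = 0 := by rw [h]; rfl
    rw [hεc] at this
    linarith
  have htb : TotallyBounded A := hA.isCompact_closure.totallyBounded.subset subset_closure
  obtain ⟨D, hD1, hD2, hD3⟩ := Metric.exists_finite_isCover_of_totallyBounded hε0 htb
  have h1 : Metric.packingNumber (2 * ε) A ≠ ⊤ := by
    refine ne_top_of_le_ne_top ?_ (Metric.packingNumber_two_mul_le_externalCoveringNumber ε A)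
    refine ne_top_of_le_ne_top ?_ hD3.externalCoveringNumber_le_encard
    exact encard_ne_top_iff.2 hD2
  have h2 : ((2 * ε : ℝ≥0) : ℝ) = δ := by
    rw [NNReal.coe_mul, hεc]
    push_cast
    ring
  set Y := Metric.maximalSeparatedSet (2 * ε) A with hY
  have hYf : Y.Finite := by
    rw [← encard_ne_top_iff, hY, Metric.encard_maximalSeparatedSet h1]
    exact h1
  refine ⟨hYf.toFinset, ?_, ?_, ?_⟩
  · rw [Finite.coe_toFinset]
    exact Metric.maximalSeparatedSet_subset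
  · intro x hx y hy hxy
    rw [Finite.mem_toFinset] at hx hy
    have h3 := Metric.isSeparated_maximalSeparatedSet (ε := 2 * ε) (A := A) hx hy hxy
    have h4 : ((2 * ε : ℝ≥0) : ℝ≥0∞) < edist x y := h3
    rw [edist_dist, ← ENNReal.ofReal_coe_nnreal, h2] at h4
    exact (ENNReal.ofReal_lt_ofReal_iff_of_nonneg hδ.le).1 h4
  · intro x hx
    obtain ⟨y, hy, hxy⟩ := Metric.isCover_maximalSeparatedSet h1 hx
    have h4 : edist x y ≤ ((2 * ε : ℝ≥0) : ℝ≥0∞) := hxy
    rw [edist_dist, ← ENNReal.ofReal_coe_nnreal, h2,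
      ENNReal.ofReal_le_ofReal_iff hδ.le] at h4
    exact mem_biUnion ((Finite.mem_toFinset _).2 hy) h4

/-- Lower bound for the content of dimension `σ`. -/
def Cont {X : Type*} [MetricSpace X] (σ lam : ℝ) (A : Set X) : Prop :=
  ∀ (ι : Type) [Countable ι] (x : ι → X) (r : ι → ℝ), (∀ i, 0 < r i) →
    A ⊆ ⋃ i, closedBall (x i) (r i) → ENNReal.ofReal lam ≤ ∑' i, ENNReal.ofReal (r i ^ σ)

theorem Cont.mono {X : Type*} [MetricSpace X] {σ lam lam' : ℝ} {A : Set X} (h : Cont σ lam A)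
    (hl : lam' ≤ lam) : Cont σ lam' A :=
  fun ι _ x r hr hc => (ENNReal.ofReal_le_ofReal hl).trans (h ι x r hr hc)

theorem exists_cont {X : Type*} [MetricSpace X] {A : Set X} {σ : ℝ}
    (hσ : 0 < σ) (h : ENNReal.ofReal σ < dimH A) : ∃ lam : ℝ, 0 < lam ∧ Cont σ lam A := by
  classical
  by_contra hcon
  push Not at hcon
  let _ : MeasurableSpace X := borel X
  have _ : BorelSpace X := ⟨rfl⟩
  have h1 : ∀ n : ℕ, ∃ (ι : Type) (_ : Countable ι) (x : ι → X) (r : ι → ℝ), (∀ i, 0 < r i) ∧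
      A ⊆ ⋃ i, closedBall (x i) (r i) ∧
      ∑' i, ENNReal.ofReal (r i ^ σ) < ENNReal.ofReal (1 / ((n:ℝ) + 1)) := by
    intro n
    have h2 := hcon (1 / ((n:ℝ) + 1)) (by positivity)
    unfold Cont at h2
    push Not at h2
    obtain ⟨ι, hι, x, r, h3⟩ := h2
    exact ⟨ι, hι, x, r, h3⟩
  choose ι hι x r hr hc hs using h1
  have hsmall : ∀ n i, r n i ≤ (1 / ((n:ℝ) + 1)) ^ (1 / σ) := by
    intro n i
    have h2 : ENNReal.ofReal (r n i ^ σ) ≤ ENNReal.ofReal (1 / ((n:ℝ) + 1)) :=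
      (ENNReal.le_tsum i).trans (hs n).le
    rw [ENNReal.ofReal_le_ofReal_iff (by positivity)] at h2
    have h3 := Real.rpow_le_rpow (by have := hr n i; positivity) h2
      (by positivity : (0:ℝ) ≤ 1 / σ)
    rwa [← Real.rpow_mul (hr n i).le, mul_one_div, div_self hσ.ne', Real.rpow_one] at h3
  have hlim : Tendsto (fun n : ℕ => ENNReal.ofReal (2 * (1 / ((n:ℝ) + 1)) ^ (1 / σ))) atTop
      (𝓝 0) := by
    rw [← ENNReal.ofReal_zero]
    apply ENNReal.tendsto_ofReal
    have h3 := (tendsto_one_div_add_atTop_nhds_zero_nat (𝕜 := ℝ)).rpow_const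
      (p := 1 / σ) (Or.inr (by positivity))
    rw [Real.zero_rpow (by positivity)] at h3
    have h4 := h3.const_mul 2
    rwa [mul_zero] at h4
  have hd : ∀ n i, ediam (closedBall (x n i) (r n i)) ≤ ENNReal.ofReal (2 * r n i) := by
    intro n i
    have h5 := Metric.isBounded_closedBall (x := x n i) (r := r n i)
    rw [← ENNReal.ofReal_toReal h5.ediam_ne_top]
    exact ENNReal.ofReal_le_ofReal (Metric.diam_closedBall (hr n i).le)
  have h2 := Measure.hausdorffMeasure_le_liminf_tsum (ι := ι) σ A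
    (fun n : ℕ => ENNReal.ofReal (2 * (1 / ((n:ℝ) + 1)) ^ (1 / σ))) hlim
    (fun n i => closedBall (x n i) (r n i))
    (Eventually.of_forall fun n i => (hd n i).trans (ENNReal.ofReal_le_ofReal (by
      have := hsmall n i
      linarith)))
    (Eventually.of_forall hc)
  have h3 : ∀ n, ∑' i, ediam (closedBall (x n i) (r n i)) ^ σ ≤
      ENNReal.ofReal (2 ^ σ * (1 / ((n:ℝ) + 1))) := by
    intro n
    calc ∑' i, ediam (closedBall (x n i) (r n i)) ^ σ
        ≤ ∑' i, ENNReal.ofReal (2 ^ σ) * ENNReal.ofReal (r n i ^ σ) := by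
          apply ENNReal.tsum_le_tsum
          intro i
          refine (ENNReal.rpow_le_rpow (hd n i) hσ.le).trans (le_of_eq ?_)
          have := hr n i
          rw [ENNReal.ofReal_rpow_of_nonneg (by positivity) hσ.le,
            Real.mul_rpow (by norm_num) this.le, ENNReal.ofReal_mul (by positivity)]
      _ = ENNReal.ofReal (2 ^ σ) * ∑' i, ENNReal.ofReal (r n i ^ σ) := ENNReal.tsum_mul_left
      _ ≤ ENNReal.ofReal (2 ^ σ) * ENNReal.ofReal (1 / ((n:ℝ) + 1)) := by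
          gcongr
          exact (hs n).le
      _ = _ := by rw [← ENNReal.ofReal_mul (by positivity)]
  have hlim2 : Tendsto (fun n : ℕ => ENNReal.ofReal (2 ^ σ * (1 / ((n:ℝ) + 1)))) atTop (𝓝 0) := by
    rw [← ENNReal.ofReal_zero]
    apply ENNReal.tendsto_ofReal
    have h3 := (tendsto_one_div_add_atTop_nhds_zero_nat (𝕜 := ℝ)).const_mul (2 ^ σ : ℝ)
    rwa [mul_zero] at h3
  have h4 : Tendsto (fun n : ℕ => ∑' i, ediam (closedBall (x n i) (r n i)) ^ σ) atTop (𝓝 0) :=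
    tendsto_of_tendsto_of_tendsto_of_le_of_le tendsto_const_nhds hlim2 (fun _ => zero_le) h3
  rw [h4.liminf_eq] at h2
  have h5 : dimH A ≤ (σ.toNNReal : ℝ≥0) :=
    dimH_le_of_hausdorffMeasure_ne_top (by
      have : μH[σ] A = 0 := le_antisymm h2 zero_le
      rw [Real.coe_toNNReal _ hσ.le, this]
      exact ENNReal.zero_ne_top)
  exact absurd h (not_lt.2 h5)

/-- Separated sets in one of the pieces of a cover. -/
theorem exists_scale {X : Type} [MetricSpace X] [ProperSpace X] {A : Set X}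
    (hA : Bornology.IsBounded A) {σ lam : ℝ} (hlam : 0 < lam) (hc : Cont σ lam A)
    (B : ℕ → Set X) (hB : A ⊆ ⋃ j, B j) (δ : ℕ → ℝ) (hδ : ∀ j, 0 < δ j) (w : ℕ → ℝ)
    (hw0 : ∀ j, 0 ≤ w j) (hw : ∑' j, ENNReal.ofReal (w j) < 1) :
    ∃ (j : ℕ) (Y : Finset X), (Y : Set X) ⊆ A ∩ B j ∧
      (∀ x ∈ Y, ∀ y ∈ Y, x ≠ y → δ j < dist x y) ∧ lam * w j ≤ Y.card * δ j ^ σ := by
  classical
  by_contra hcon
  push Not at hcon
  choose Y hY1 hY2 hY3 using fun j => sep_cover (hA.subset (inter_subset_left (t := B j))) (hδ j)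
  have h1 : ∀ j, (Y j).card * δ j ^ σ < lam * w j := fun j => hcon j (Y j) (hY1 j) (hY2 j)
  have h2 := hc (Σ j, (Y j : Set X)) (fun p => (p.2 : X)) (fun p => δ p.1) (fun p => hδ _) (by
    intro x hx
    obtain ⟨j, hj⟩ := mem_iUnion.1 (hB hx)
    have h3 := hY3 j ⟨hx, hj⟩
    simp only [mem_iUnion] at h3
    obtain ⟨y, hy, hxy⟩ := h3
    exact mem_iUnion.2 ⟨⟨j, ⟨y, hy⟩⟩, hxy⟩)
  rw [ENNReal.tsum_sigma'] at h2
  have h3 : ∑' (j : ℕ) (_ : (Y j : Set X)), ENNReal.ofReal (δ j ^ σ) ≤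
      ENNReal.ofReal lam * ∑' j, ENNReal.ofReal (w j) := by
    rw [← ENNReal.tsum_mul_left]
    apply ENNReal.tsum_le_tsum
    intro j
    rw [tsum_fintype, Finset.sum_const, nsmul_eq_mul, ← ENNReal.ofReal_mul hlam.le]
    have h4 : (Finset.univ : Finset (Y j : Set X)).card = (Y j).card := by simp
    rw [h4, ← ENNReal.ofReal_natCast, ← ENNReal.ofReal_mul (by positivity)]
    exact ENNReal.ofReal_le_ofReal (h1 j).le
  have h5 : ENNReal.ofReal lam * ∑' j, ENNReal.ofReal (w j) < ENNReal.ofReal lam * 1 :=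
    (ENNReal.mul_lt_mul_iff_right (by simpa using hlam) ENNReal.ofReal_ne_top).2 hw
  rw [mul_one] at h5
  exact absurd (h2.trans h3) (not_le.2 h5)

end Pool.Agent.Y245.Pl
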