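import Mathlib

set_option autoImplicit false

/-!
# Covers by balls of sets of small Hausdorff dimension
-/

open MeasureTheory Set Filter Topology ENNReal NNReal Metric

namespace Pool.Agent.Y245.Tr

/-- A set of Hausdorff dimension less than `s` has covers by balls with small `s`-content. -/
theorem cover_of_dimH_lt {X : Type*} [MetricSpace X] [Nonempty X] {K : Set X}
    {s : ℝ≥0} (hs0 : 0 < s) (hs : dimH K < s) {ρ : ℝ} (hρ : 0 < ρ) {ε : ℝ} (hε : 0 < ε) :
    ∃ (x : ℕ → X) (r : ℕ → ℝ), (∀ i, 0 < r i ∧ r i ≤ ρ) ∧ K ⊆ ⋃ i, closedBall (x i) (r i) ∧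
      ∑' i, ENNReal.ofReal (r i ^ (s : ℝ)) ≤ ENNReal.ofReal ε := by
  classical
  letI : MeasurableSpace X := borel X
  haveI : BorelSpace X := ⟨rfl⟩
  have hs0' : (0 : ℝ) < s := by exact_mod_cast hs0
  have hz : μH[(s : ℝ)] K = 0 := hausdorffMeasure_of_dimH_lt hs
  rw [Measure.hausdorffMeasure_apply] at hz
  have h1 : (⨅ (t : ℕ → Set X) (_ : K ⊆ ⋃ n, t n)
      (_ : ∀ n, ediam (t n) ≤ ENNReal.ofReal ρ),
        ∑' n, ⨆ _ : (t n).Nonempty, ediam (t n) ^ (s : ℝ)) = 0 := by
    have := (ENNReal.iSup_eq_zero.1 hz (ENNReal.ofReal ρ))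
    exact ENNReal.iSup_eq_zero.1 this (by simpa using hρ)
  have h2 : (⨅ (t : ℕ → Set X) (_ : K ⊆ ⋃ n, t n)
      (_ : ∀ n, ediam (t n) ≤ ENNReal.ofReal ρ),
        ∑' n, ⨆ _ : (t n).Nonempty, ediam (t n) ^ (s : ℝ)) < ENNReal.ofReal (ε / 2) := by
    rw [h1]
    simpa using hε
  simp only [iInf_lt_iff] at h2
  obtain ⟨t, ht1, ht2, ht3⟩ := h2
  obtain ⟨η, hη0, hηs⟩ := ENNReal.exists_pos_sum_of_countable
    (ε := ENNReal.ofReal (ε / 2)) (by simpa using hε) ℕ
  have hcen : ∀ i, ∃ y : X, (t i).Nonempty → y ∈ t i := by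
    intro i
    by_cases h : (t i).Nonempty
    · exact ⟨h.some, fun _ => h.some_mem⟩
    · exact ⟨Classical.arbitrary X, fun h' => absurd h' h⟩
  choose y hy using hcen
  set D : ℕ → ℝ := fun i => (ediam (t i)).toReal with hD
  have hDt : ∀ i, ediam (t i) ≠ ∞ := fun i => ((ht2 i).trans_lt ENNReal.ofReal_lt_top).ne
  have hD2 : ∀ i, D i ≤ ρ := fun i =>
    ENNReal.toReal_le_of_le_ofReal hρ.le (ht2 i)
  have hD0 : ∀ i, 0 ≤ D i := fun i => ENNReal.toReal_nonneg
  set θ : ℕ → ℝ := fun i => min ρ ((η i : ℝ) ^ (1 / (s : ℝ))) with hθ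
  have hη0' : ∀ i, (0 : ℝ) < η i := fun i => by exact_mod_cast hη0 i
  have hθ0 : ∀ i, 0 < θ i := fun i => by
    have := hη0' i
    simp only [hθ]
    positivity
  have hθs : ∀ i, θ i ^ (s : ℝ) ≤ η i := by
    intro i
    calc θ i ^ (s : ℝ) ≤ ((η i : ℝ) ^ (1 / (s : ℝ))) ^ (s : ℝ) :=
          Real.rpow_le_rpow (hθ0 i).le (min_le_right _ _) hs0'.le
      _ = η i := by
          rw [← Real.rpow_mul (hη0' i).le, one_div, inv_mul_cancel₀ hs0'.ne', Real.rpow_one]
  set r : ℕ → ℝ := fun i => if (t i).Nonempty then max (D i) (θ i) else θ i with hr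
  have hr0 : ∀ i, 0 < r i ∧ r i ≤ ρ := by
    intro i
    simp only [hr]
    split_ifs
    · exact ⟨lt_max_of_lt_right (hθ0 i), max_le (hD2 i) (min_le_left _ _)⟩
    · exact ⟨hθ0 i, min_le_left _ _⟩
  have hcov : K ⊆ ⋃ i, closedBall (y i) (r i) := by
    intro p hp
    obtain ⟨i, hi⟩ := mem_iUnion.1 (ht1 hp)
    refine mem_iUnion.2 ⟨i, ?_⟩
    have hne : (t i).Nonempty := ⟨p, hi⟩
    rw [mem_closedBall]
    have h3 : edist p (y i) ≤ ediam (t i) := edist_le_ediam_of_mem hi (hy i hne)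
    have h4 : dist p (y i) ≤ D i := by
      rw [edist_dist] at h3
      have := ENNReal.toReal_mono (hDt i) h3
      rwa [ENNReal.toReal_ofReal dist_nonneg] at this
    simp only [hr, hne, if_true]
    exact h4.trans (le_max_left _ _)
  refine ⟨y, r, hr0, hcov, ?_⟩
  calc ∑' i, ENNReal.ofReal (r i ^ (s : ℝ))
      ≤ ∑' i, ((⨆ _ : (t i).Nonempty, ediam (t i) ^ (s : ℝ)) + (η i : ℝ≥0∞)) := by
        apply ENNReal.tsum_le_tsum
        intro i
        by_cases hne : (t i).Nonempty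
        · simp only [hne, ciSup_unique]
          have h7 : r i ^ (s : ℝ) ≤ D i ^ (s : ℝ) + η i := by
            simp only [hr, hne, if_true]
            rcases le_total (D i) (θ i) with h | h
            · rw [max_eq_right h]
              have := Real.rpow_nonneg (hD0 i) (s : ℝ)
              linarith [hθs i]
            · rw [max_eq_left h]
              linarith [hη0' i]
          refine (ENNReal.ofReal_le_ofReal h7).trans ?_
          rw [ENNReal.ofReal_add (Real.rpow_nonneg (hD0 i) _) (hη0' i).le]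
          apply add_le_add
          · rw [← ENNReal.ofReal_rpow_of_nonneg (hD0 i) hs0'.le]
            simp only [hD]
            rw [ENNReal.ofReal_toReal (hDt i)]
          · simp
        · have h7 : r i ^ (s : ℝ) ≤ η i := by
            simp only [hr, hne, if_false]
            exact hθs i
          refine (ENNReal.ofReal_le_ofReal h7).trans ?_
          simp
    _ = (∑' i, (⨆ _ : (t i).Nonempty, ediam (t i) ^ (s : ℝ)) +
        ∑' i, (η i : ℝ≥0∞)) := ENNReal.tsum_add
    _ ≤ (ENNReal.ofReal (ε / 2) + ENNReal.ofReal (ε / 2)) := by gcongr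
    _ = ENNReal.ofReal ε := by
        rw [← ENNReal.ofReal_add (by positivity) (by positivity)]
        congr 1
        ring

end Pool.Agent.Y245.Tr
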