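import Pool.Agent.Y245.Iter

set_option autoImplicit false

/-!
# Kakeya sets in `ℝ^4` adapted to complex lines
-/

open MeasureTheory Set Filter Topology ENNReal NNReal Metric

namespace Pool.Agent.Y245.Pl

/-- The isometric embedding given by an orthonormal family. -/
noncomputable def mkIso {k n : ℕ} (v : Fin k → E n) (hv : Orthonormal ℝ v) : E k →ₗᵢ[ℝ] E n where
  toFun x := ∑ i, x i • v i
  map_add' x y := by
    simp only [PiLp.add_apply, add_smul, Finset.sum_add_distrib]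
  map_smul' c x := by
    simp only [PiLp.smul_apply, smul_eq_mul, mul_smul, RingHom.id_apply, Finset.smul_sum]
  norm_map' x := by
    have h1 : ‖∑ i, x i • v i‖ ^ 2 = ‖x‖ ^ 2 := by
      rw [← real_inner_self_eq_norm_sq, hv.inner_sum, EuclideanSpace.norm_sq_eq]
      apply Finset.sum_congr rfl
      intro i _
      simp [sq]
    have h2 := congrArg Real.sqrt h1
    rw [Real.sqrt_sq (norm_nonneg _), Real.sqrt_sq (norm_nonneg _)] at h2
    exact h2

/-- The affine isometric embedding with a given base point and orthonormal frame. -/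
noncomputable def mkAff {k n : ℕ} (p : E n) (v : Fin k → E n) (hv : Orthonormal ℝ v) :
    E k →ᵃⁱ[ℝ] E n where
  toFun x := p + mkIso v hv x
  linear := (mkIso v hv).toLinearMap
  map_vadd' x y := by
    simp only [vadd_eq_add, map_add, LinearIsometry.coe_toLinearMap]
    abel
  norm_map x := (mkIso v hv).norm_map x

theorem mkAff_apply {k n : ℕ} (p : E n) (v : Fin k → E n) (hv : Orthonormal ℝ v) (x : E k) :
    mkAff p v hv x = p + ∑ i, x i • v i := rfl

theorem normal_mkAff {k n : ℕ} {p : E n} {v : Fin k → E n} {hv : Orthonormal ℝ v} {ν : E n}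
    (h : ν ∈ normal (mkAff p v hv)) (i : Fin k) : (inner ℝ (v i) ν : ℝ) = 0 := by
  have h1 : v i ∈ LinearMap.range (mkAff p v hv).linearIsometry.toLinearMap := by
    refine ⟨EuclideanSpace.single i 1, ?_⟩
    have h2 : (mkAff p v hv).linearIsometry.toLinearMap (EuclideanSpace.single i 1) =
        ∑ j, (EuclideanSpace.single i (1:ℝ)) j • v j := rfl
    rw [h2, Finset.sum_eq_single i]
    · simp
    · intro j _ hj
      simp [hj]
    · simp
  exact (Submodule.mem_orthogonal _ _).1 h _ h1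

/-- The unit vector of angle `θ`. -/
noncomputable def ang (θ : ℝ) : E 2 := !₂[Real.cos θ, Real.sin θ]

theorem ang_orth (θ : ℝ) : Orthonormal ℝ (fun _ : Fin 1 => ang θ) := by
  refine ⟨fun _ => ?_, fun i j hij => absurd (Subsingleton.elim i j) hij⟩
  rw [EuclideanSpace.norm_eq, ang]
  simp [Fin.sum_univ_two]

/-- Planar sets with one line for each direction of an arc. -/
theorem planar {K : Set (E 2)} (p : ℝ → E 2)
    (h : ∀ θ ∈ Icc (0:ℝ) 1, 1 ≤ dimH {t : ℝ | p θ + t • ang θ ∈ K}) : Iterated 2 K := by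
  have hsin : ∀ θ ∈ Icc (0:ℝ) 1, ∀ θ' ∈ Icc (0:ℝ) 1, |θ - θ'| ≤ 2 * |Real.sin (θ - θ')| := by
    have key : ∀ x : ℝ, 0 ≤ x → x ≤ 1 → x ≤ 2 * Real.sin x := by
      intro x hx0 hx1
      have h1 := Real.mul_le_sin hx0 (by have := Real.pi_gt_three; linarith)
      have h2 : x / 2 ≤ 2 / Real.pi * x := by
        rw [div_mul_eq_mul_div, div_le_div_iff₀ (by norm_num) Real.pi_pos]
        have := Real.pi_lt_d2
        nlinarith
      linarith
    intro θ hθ θ' hθ'
    rcases le_total θ' θ with h1 | h1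
    · have h2 := key (θ - θ') (by linarith) (by linarith [hθ.2, hθ'.1])
      rw [abs_of_nonneg (by linarith)]
      exact h2.trans (by gcongr; exact le_abs_self _)
    · have h2 := key (θ' - θ) (by linarith) (by linarith [hθ'.2, hθ.1])
      rw [abs_sub_comm, abs_of_nonneg (by linarith), ← abs_neg (Real.sin _), ← Real.sin_neg,
        neg_sub]
      exact h2.trans (by gcongr; exact le_abs_self _)
  refine Iterated.step (k := 1) (n := 2) (by norm_num) (by norm_num) (Ω := Icc (0:ℝ) 1)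
    (volume : Measure (Icc (0:ℝ) 1)) (fun θ => mkAff (p θ) (fun _ => ang θ) (ang_orth θ))
    ⟨4, ?_⟩ (S := univ) ?_ ?_
  · intro θ r hr
    have h1 : ((2:ℕ):ℝ) - ((1:ℕ):ℝ) = 1 := by norm_num
    rw [h1, Real.rpow_one]
    have h2 : {s' : Icc (0:ℝ) 1 | ∃ ν ∈ normal (mkAff (p θ) (fun _ => ang θ) (ang_orth θ)),
        ∃ ν' ∈ normal (mkAff (p s') (fun _ => ang s') (ang_orth s')), ‖ν‖ = 1 ∧ ‖ν - ν'‖ ≤ r} ⊆
        Subtype.val ⁻¹' (closedBall (θ:ℝ) (2 * r)) := by
      rintro θ' ⟨ν, hν, ν', hν', hn, hd⟩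
      have e1 : Real.cos θ * ν 0 + Real.sin θ * ν 1 = 0 := by
        have := normal_mkAff hν 0
        simpa [ang, PiLp.inner_apply, Fin.sum_univ_two, mul_comm] using this
      have e2 : Real.cos θ' * ν' 0 + Real.sin θ' * ν' 1 = 0 := by
        have := normal_mkAff hν' 0
        simpa [ang, PiLp.inner_apply, Fin.sum_univ_two, mul_comm] using this
      have e3 : ν 0 ^ 2 + ν 1 ^ 2 = 1 := by
        have := EuclideanSpace.norm_sq_eq ν
        rw [hn] at this
        simp only [Fin.sum_univ_two, Real.norm_eq_abs, sq_abs] at this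
        linarith
      have e4 : |Real.cos θ' * (ν 0 - ν' 0) + Real.sin θ' * (ν 1 - ν' 1)| ≤ r := by
        have h3 : (inner ℝ (ang θ') (ν - ν') : ℝ) =
            Real.cos θ' * (ν 0 - ν' 0) + Real.sin θ' * (ν 1 - ν' 1) := by
          simp [ang, PiLp.inner_apply, Fin.sum_univ_two, mul_comm]
        rw [← h3]
        refine (abs_real_inner_le_norm _ _).trans ?_
        have h4 : ‖ang θ'‖ = 1 := (ang_orth θ').1 0
        rw [h4, one_mul]
        exact hd
      have e5 : Real.cos θ' * (ν 0 - ν' 0) + Real.sin θ' * (ν 1 - ν' 1) =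
          Real.cos θ' * ν 0 + Real.sin θ' * ν 1 := by linarith
      rw [e5] at e4
      have e6 : (Real.cos θ' * ν 0 + Real.sin θ' * ν 1) ^ 2 = Real.sin (θ - θ') ^ 2 := by
        rw [Real.sin_sub]
        have h3 := Real.sin_sq_add_cos_sq (θ:ℝ)
        have h4 := Real.sin_sq_add_cos_sq (θ':ℝ)
        -- `ν = λ (- sin θ, cos θ)` with `λ = cos θ ν 1 - sin θ ν 0`
        set l := Real.cos θ * ν 1 - Real.sin θ * ν 0 with hl
        have h5 : ν 0 = -l * Real.sin θ := by
          rw [hl]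
          linear_combination (-(ν 0)) * h3 + Real.cos θ * e1
        have h6 : ν 1 = l * Real.cos θ := by
          rw [hl]
          linear_combination (-(ν 1)) * h3 + Real.sin θ * e1
        have h7 : l ^ 2 = 1 := by
          have : ν 0 ^ 2 + ν 1 ^ 2 = l ^ 2 * (Real.sin θ ^ 2 + Real.cos θ ^ 2) := by
            rw [h5, h6]; ring
          rw [e3, h3] at this
          linarith
        rw [h5, h6]
        have : (Real.cos θ' * (-l * Real.sin θ) + Real.sin θ' * (l * Real.cos θ)) ^ 2 =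
            l ^ 2 * (Real.sin θ * Real.cos θ' - Real.cos θ * Real.sin θ') ^ 2 := by ring
        rw [this, h7, one_mul]
      have e7 : |Real.sin (θ - θ')| ≤ r := by
        rw [sq_eq_sq_iff_abs_eq_abs] at e6
        rw [← e6]
        exact e4
      have e8 := hsin θ θ.2 θ' θ'.2
      simp only [mem_preimage, mem_closedBall, Real.dist_eq]
      rw [abs_sub_comm]
      linarith
    refine (measure_mono h2).trans ?_
    have h3 : (volume : Measure (Icc (0:ℝ) 1)) (Subtype.val ⁻¹' (closedBall (θ:ℝ) (2 * r))) ≤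
        volume (closedBall (θ:ℝ) (2 * r)) := by
      rw [Measure.Subtype.volume_def, comap_subtype_coe_apply measurableSet_Icc]
      exact measure_mono (image_preimage_subset _ _)
    refine h3.trans ?_
    rw [Real.volume_closedBall]
    apply ENNReal.ofReal_le_ofReal
    linarith
  · rw [Measure.Subtype.volume_univ measurableSet_Icc.nullMeasurableSet, Real.volume_Icc]
    simp
  · intro θ _
    refine Iterated.full ?_
    refine le_trans (by simpa using h θ θ.2) ?_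
    -- the section in the coordinate of the line
    set g : ℝ → E 1 := fun t => EuclideanSpace.single 0 t with hg
    have hiso : Isometry g := by
      refine Isometry.of_dist_eq (fun x y => ?_)
      rw [hg, EuclideanSpace.dist_eq]
      simp [Real.sqrt_sq_eq_abs, Real.dist_eq]
    rw [← hiso.dimH_image]
    apply dimH_mono
    rintro _ ⟨t, ht, rfl⟩
    rw [mem_preimage, mkAff_apply]
    simpa [hg] using ht

/-- Multiplication by `i` on `ℝ^4 = ℂ^2`. -/
noncomputable def mulI (e : E 4) : E 4 := !₂[-e 1, e 0, -e 3, e 2]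

/-- The unit vector of the complex line `{(w, z w)}`. -/
noncomputable def cvec (z : ℂ) : E 4 :=
  (Real.sqrt (1 + ‖z‖ ^ 2))⁻¹ • !₂[1, 0, z.re, z.im]

theorem cvec_apply (z : ℂ) (i : Fin 4) :
    cvec z i = (Real.sqrt (1 + ‖z‖ ^ 2))⁻¹ * (![1, 0, z.re, z.im] i) := by
  simp [cvec]

/-- The orthonormal frame of the complex line `{(w, z w)}`. -/
noncomputable def cframe (z : ℂ) : Fin 2 → E 4 := ![cvec z, mulI (cvec z)]

theorem norm_sq4 (x : E 4) : ‖x‖ ^ 2 = x 0 ^ 2 + x 1 ^ 2 + x 2 ^ 2 + x 3 ^ 2 := by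
  rw [EuclideanSpace.norm_sq_eq]
  simp [Fin.sum_univ_four]

theorem norm_mulI (x : E 4) : ‖mulI x‖ = ‖x‖ := by
  have h : ‖mulI x‖ ^ 2 = ‖x‖ ^ 2 := by
    rw [norm_sq4, norm_sq4]
    simp [mulI]
    ring
  have h2 := congrArg Real.sqrt h
  rwa [Real.sqrt_sq (norm_nonneg _), Real.sqrt_sq (norm_nonneg _)] at h2

theorem inner_mulI (x : E 4) : (inner ℝ x (mulI x) : ℝ) = 0 := by
  simp [mulI, PiLp.inner_apply, Fin.sum_univ_four]
  ring

theorem orth_mulI {x : E 4} (hx : ‖x‖ = 1) : Orthonormal ℝ (![x, mulI x] : Fin 2 → E 4) := by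
  constructor
  · intro i
    fin_cases i
    · exact hx
    · simp only [Fin.mk_one, Matrix.cons_val_one, Matrix.cons_val_fin_one]
      rw [norm_mulI, hx]
  · intro i j hij
    fin_cases i <;> fin_cases j
    · exact absurd rfl hij
    · exact inner_mulI x
    · show (inner ℝ (mulI x) x : ℝ) = 0
      rw [real_inner_comm]
      exact inner_mulI x
    · exact absurd rfl hij

theorem norm_cvec (z : ℂ) : ‖cvec z‖ = 1 := by
  have hs : 0 < 1 + ‖z‖ ^ 2 := by positivity
  have h1 : ‖(!₂[1, 0, z.re, z.im] : E 4)‖ ^ 2 = 1 + ‖z‖ ^ 2 := by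
    rw [norm_sq4, Complex.sq_norm, Complex.normSq_apply]
    simp
    ring
  have h2 : ‖(!₂[1, 0, z.re, z.im] : E 4)‖ = Real.sqrt (1 + ‖z‖ ^ 2) := by
    rw [← h1, Real.sqrt_sq (norm_nonneg _)]
  rw [cvec, norm_smul, norm_inv, Real.norm_eq_abs, abs_of_nonneg (Real.sqrt_nonneg _), h2,
    inv_mul_cancel₀ (Real.sqrt_pos.2 hs).ne']

/-- The normal spaces of the complex lines. -/
theorem normal_cplx {z : ℂ} {p : E 4} {hv : Orthonormal ℝ (![cvec z, mulI (cvec z)])} {ν : E 4}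
    (h : ν ∈ normal (mkAff p ![cvec z, mulI (cvec z)] hv)) :
    (⟨ν 0, ν 1⟩ : ℂ) = -(star z) * ⟨ν 2, ν 3⟩ := by
  have hs : 0 < Real.sqrt (1 + ‖z‖ ^ 2) := Real.sqrt_pos.2 (by positivity)
  have h0 := normal_mkAff h 0
  have h1 := normal_mkAff h 1
  simp only [Matrix.cons_val_zero, Matrix.cons_val_one, Matrix.cons_val_fin_one, mulI,
    PiLp.inner_apply, Fin.sum_univ_four, cvec_apply, RCLike.inner_apply, conj_trivial,
    Matrix.cons_val] at h0 h1
  have e0 : ν 0 + z.re * ν 2 + z.im * ν 3 = 0 := by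
    have : (Real.sqrt (1 + ‖z‖ ^ 2))⁻¹ * (ν 0 + z.re * ν 2 + z.im * ν 3) = 0 := by
      rw [← h0]; ring
    rcases mul_eq_zero.1 this with h2 | h2
    · exact absurd h2 (inv_ne_zero hs.ne')
    · exact h2
  have e1 : ν 1 - z.im * ν 2 + z.re * ν 3 = 0 := by
    have : (Real.sqrt (1 + ‖z‖ ^ 2))⁻¹ * (ν 1 - z.im * ν 2 + z.re * ν 3) = 0 := by
      rw [← h1]; ring
    rcases mul_eq_zero.1 this with h2 | h2
    · exact absurd h2 (inv_ne_zero hs.ne')
    · exact h2
  apply Complex.ext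
  · simp
    linarith
  · simp
    linarith

theorem close_cplx {z z' : ℂ} (hz : ‖z‖ ≤ 1) (hz' : ‖z'‖ ≤ 1) {p p' : E 4}
    {hv : Orthonormal ℝ (![cvec z, mulI (cvec z)])}
    {hv' : Orthonormal ℝ (![cvec z', mulI (cvec z')])} {ν ν' : E 4} {r : ℝ}
    (h : ν ∈ normal (mkAff p ![cvec z, mulI (cvec z)] hv))
    (h' : ν' ∈ normal (mkAff p' ![cvec z', mulI (cvec z')] hv')) (hn : ‖ν‖ = 1)
    (hd : ‖ν - ν'‖ ≤ r) : ‖z' - z‖ ≤ 4 * r := by
  have h1 := normal_cplx h
  have h2 := normal_cplx h'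
  set ζ : ℂ := ⟨ν 2, ν 3⟩ with hζ
  set ζ' : ℂ := ⟨ν' 2, ν' 3⟩ with hζ'
  have h3 : ‖(⟨ν 0, ν 1⟩ : ℂ) - ⟨ν' 0, ν' 1⟩‖ ^ 2 + ‖ζ - ζ'‖ ^ 2 = ‖ν - ν'‖ ^ 2 := by
    rw [norm_sq4, Complex.sq_norm, Complex.sq_norm, Complex.normSq_apply, Complex.normSq_apply]
    simp [hζ, hζ']
    ring
  have h4 : ‖(⟨ν 0, ν 1⟩ : ℂ)‖ ^ 2 + ‖ζ‖ ^ 2 = 1 := by
    have : ‖ν‖ ^ 2 = 1 := by rw [hn]; norm_num
    rw [← this, norm_sq4, Complex.sq_norm, Complex.sq_norm, Complex.normSq_apply,
      Complex.normSq_apply]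
    simp [hζ]
    ring
  have hr0 : 0 ≤ r := (norm_nonneg _).trans hd
  have h5 : ‖(⟨ν 0, ν 1⟩ : ℂ) - ⟨ν' 0, ν' 1⟩‖ ≤ r := by
    refine le_trans ?_ hd
    refine (pow_le_pow_iff_left₀ (norm_nonneg _) (norm_nonneg _) two_ne_zero).1 ?_
    rw [← h3]
    have := sq_nonneg ‖ζ - ζ'‖
    linarith
  have h6 : ‖ζ - ζ'‖ ≤ r := by
    refine le_trans ?_ hd
    refine (pow_le_pow_iff_left₀ (norm_nonneg _) (norm_nonneg _) two_ne_zero).1 ?_
    rw [← h3]
    have := sq_nonneg ‖(⟨ν 0, ν 1⟩ : ℂ) - ⟨ν' 0, ν' 1⟩‖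
    linarith
  have h7 : 1 / 2 ≤ ‖ζ‖ := by
    rw [h1, norm_mul, norm_neg, norm_star, mul_pow] at h4
    by_contra hcon
    push Not at hcon
    have h8 : ‖z‖ ^ 2 ≤ 1 := by nlinarith [norm_nonneg z]
    have h9 : ‖ζ‖ ^ 2 ≤ 1 / 4 := by nlinarith [norm_nonneg ζ]
    nlinarith [sq_nonneg ‖ζ‖, sq_nonneg ‖z‖]
  have h8 : (star z' - star z) * ζ =
      ((⟨ν 0, ν 1⟩ : ℂ) - ⟨ν' 0, ν' 1⟩) + star z' * (ζ - ζ') := by
    rw [h1, h2]
    ring
  have h9 : ‖z' - z‖ * ‖ζ‖ ≤ 2 * r := by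
    rw [← norm_star (z' - z), ← norm_mul, star_sub, h8]
    refine (norm_add_le _ _).trans ?_
    rw [norm_mul, norm_star]
    calc ‖(⟨ν 0, ν 1⟩ : ℂ) - ⟨ν' 0, ν' 1⟩‖ + ‖z'‖ * ‖ζ - ζ'‖ ≤ r + 1 * r := by gcongr
      _ = 2 * r := by ring
  nlinarith [norm_nonneg (z' - z)]

/-- **Kakeya sets adapted to complex lines.** -/
theorem cplx {K : Set (E 4)} (a : E 4 → E 4)
    (hK : ∀ e : E 4, ‖e‖ = 1 → 1 ≤ dimH {t : ℝ | a e + t • e ∈ K})
    (ha : ∀ e : E 4, ‖e‖ = 1 → ∀ θ : ℝ, ∃ x y : ℝ,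
      a (Real.cos θ • e + Real.sin θ • mulI e) - a e = x • e + y • mulI e) : Iterated 4 K := by
  refine Iterated.step (k := 2) (n := 4) (by norm_num) (by norm_num)
    (Ω := closedBall (0:ℂ) 1) (Measure.comap Subtype.val (volume : Measure ℂ))
    (fun z => mkAff (a (cvec z)) ![cvec z, mulI (cvec z)] (orth_mulI (norm_cvec z)))
    ⟨16 * Real.pi, ?_⟩ (S := univ) ?_ ?_
  · intro z r hr
    have h1 : ((4:ℕ):ℝ) - ((2:ℕ):ℝ) = ((2:ℕ):ℝ) := by norm_num
    rw [h1, Real.rpow_natCast]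
    have h2 : {s' : closedBall (0:ℂ) 1 | ∃ ν ∈ normal (mkAff (a (cvec z))
        ![cvec z, mulI (cvec z)] (orth_mulI (norm_cvec z))), ∃ ν' ∈ normal (mkAff (a (cvec s'))
        ![cvec s', mulI (cvec s')] (orth_mulI (norm_cvec s'))), ‖ν‖ = 1 ∧ ‖ν - ν'‖ ≤ r} ⊆
        Subtype.val ⁻¹' (closedBall (z:ℂ) (4 * r)) := by
      rintro z' ⟨ν, hν, ν', hν', hn, hd⟩
      simp only [mem_preimage, mem_closedBall, dist_eq_norm]
      exact close_cplx (mem_closedBall_zero_iff.1 z.2) (mem_closedBall_zero_iff.1 z'.2) hν hν' hn hd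
    refine (measure_mono h2).trans ?_
    have h3 : (Measure.comap Subtype.val (volume : Measure ℂ))
        ((Subtype.val : closedBall (0:ℂ) 1 → ℂ) ⁻¹' (closedBall (z:ℂ) (4 * r))) ≤
        volume (closedBall (z:ℂ) (4 * r)) := by
      rw [comap_subtype_coe_apply measurableSet_closedBall]
      exact measure_mono (image_preimage_subset _ _)
    refine h3.trans ?_
    rw [Complex.volume_closedBall]
    apply le_of_eq
    have h4 : (NNReal.pi : ℝ≥0∞) = ENNReal.ofReal Real.pi := by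
      rw [← ENNReal.ofReal_coe_nnreal]
      rfl
    rw [h4, ← ENNReal.ofReal_pow (by positivity), ← ENNReal.ofReal_mul (by positivity)]
    congr 1
    ring
  · rw [comap_subtype_coe_apply measurableSet_closedBall, image_univ, Subtype.range_coe,
      Complex.volume_closedBall]
    simp [NNReal.pi_ne_zero]
  · intro z _
    have hz := norm_cvec z
    choose x y hxy using ha (cvec z) hz
    have hu : ∀ θ : ℝ, ‖Real.cos θ • cvec z + Real.sin θ • mulI (cvec (z:ℂ))‖ = 1 := by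
      intro θ
      have h1 := (mkIso _ (orth_mulI hz)).norm_map (ang θ)
      have h2 : mkIso _ (orth_mulI hz) (ang θ) =
          Real.cos θ • cvec z + Real.sin θ • mulI (cvec (z:ℂ)) := by
        have h3 : mkIso _ (orth_mulI hz) (ang θ) =
            ∑ i, (ang θ) i • (![cvec (z:ℂ), mulI (cvec (z:ℂ))] : Fin 2 → E 4) i := rfl
        rw [h3]
        simp [Fin.sum_univ_two, ang]
      rw [h2] at h1
      rw [h1]
      exact (ang_orth θ).1 0
    refine planar (fun θ => !₂[x θ, y θ]) (fun θ _ => ?_)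
    refine (hK _ (hu θ)).trans (dimH_mono ?_)
    intro t ht
    show _ ∈ K
    have ht' : a (Real.cos θ • cvec z + Real.sin θ • mulI (cvec (z:ℂ))) +
      t • (Real.cos θ • cvec z + Real.sin θ • mulI (cvec (z:ℂ))) ∈ K := ht
    rw [mkAff_apply]
    have h1 : a (cvec z) + ∑ i, (!₂[x θ, y θ] + t • ang θ : E 2) i •
        (![cvec (z:ℂ), mulI (cvec (z:ℂ))] : Fin 2 → E 4) i =
        a (Real.cos θ • cvec z + Real.sin θ • mulI (cvec (z:ℂ))) +
          t • (Real.cos θ • cvec z + Real.sin θ • mulI (cvec (z:ℂ))) := by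
      have h2 : a (Real.cos θ • cvec z + Real.sin θ • mulI (cvec (z:ℂ))) =
          a (cvec z) + (x θ • cvec z + y θ • mulI (cvec (z:ℂ))) := by
        rw [← hxy θ]; abel
      rw [h2]
      simp only [Fin.sum_univ_two, ang, PiLp.add_apply, PiLp.smul_apply, smul_eq_mul,
        Matrix.cons_val_zero, Matrix.cons_val_one, Matrix.cons_val_fin_one]
      module
    rw [h1]
    exact ht'

end Pool.Agent.Y245.Pl
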