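import Pool.Agent.Y245.Taylor1

set_option autoImplicit false

/-!
# Covering the image of a smooth map by polynomial curves
-/

open MeasureTheory Set Filter Topology ENNReal NNReal Metric

namespace Pool.Agent.Y245.PC

open Pool.Agent.H742R2.Kk Pool.Agent.W767.Kc

theorem norm_le_coord {l : ℕ} {x : E (l + 1)} {ρ : ℝ} (hρ : 0 ≤ ρ) (h : ∀ i, |x i| ≤ ρ) :
    ‖x‖ ≤ ((l:ℝ) + 1) * ρ := by
  have h1 : ‖x‖ ^ 2 ≤ (((l:ℝ) + 1) * ρ) ^ 2 := by
    rw [EuclideanSpace.norm_sq_eq]
    calc ∑ i, ‖x i‖ ^ 2 ≤ ∑ _i : Fin (l + 1), ρ ^ 2 := by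
          apply Finset.sum_le_sum
          intro i _
          have := h i
          rw [Real.norm_eq_abs]
          gcongr
      _ = ((l:ℝ) + 1) * ρ ^ 2 := by simp
      _ ≤ ((l:ℝ) + 1) ^ 2 * ρ ^ 2 := by
          have : (0:ℝ) ≤ l := by positivity
          gcongr
          nlinarith
      _ = _ := by ring
  exact (abs_le_of_sq_le_sq' h1 (by positivity)).2

theorem abs_coord_le {n : ℕ} (x : E n) (i : Fin n) : |x i| ≤ ‖x‖ := by
  have := PiLp.norm_apply_le x i
  rwa [Real.norm_eq_abs] at this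

/-- The side lengths of the boxes. -/
noncomputable def wd {l : ℕ} (h ρ : ℝ) (i : Fin (l + 1)) : ℝ := if i = 0 then h else ρ

/-- The index of the box containing `u`. -/
noncomputable def bx {l : ℕ} (h ρ : ℝ) (u : E (l + 1)) (i : Fin (l + 1)) : ℤ :=
  ⌊u i / wd h ρ i⌋

theorem wd_pos {l : ℕ} {h ρ : ℝ} (hh : 0 < h) (hρ : 0 < ρ) (i : Fin (l + 1)) : 0 < wd h ρ i := by
  unfold wd; split_ifs <;> assumption

theorem bx_le {l : ℕ} {h ρ : ℝ} (hh : 0 < h) (hρ : 0 < ρ) (u : E (l + 1)) (i : Fin (l + 1)) :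
    (bx h ρ u i : ℝ) * wd h ρ i ≤ u i ∧ u i ≤ ((bx h ρ u i : ℝ) + 1) * wd h ρ i := by
  have hw := wd_pos hh hρ i
  have h1 := Int.floor_le (u i / wd h ρ i)
  have h2 := (Int.lt_floor_add_one (u i / wd h ρ i)).le
  constructor
  · rwa [le_div_iff₀ hw] at h1
  · rwa [div_le_iff₀ hw] at h2

theorem count_boxes {l : ℕ} {R h ρ : ℝ} (hR : 0 ≤ R) (hh : 0 < h) (hh1 : h ≤ 1) (hρ : 0 < ρ)
    (hρ1 : ρ ≤ 1) : ∃ T : Finset (Fin (l + 1) → ℤ),
      (∀ u : E (l + 1), ‖u‖ ≤ R → bx h ρ u ∈ T) ∧ (T.card : ℝ) ≤ (2 * R + 5) ^ (l + 1) / (h * ρ ^ l) := by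
  have hw : ∀ i : Fin (l + 1), 0 < wd h ρ i := fun i => wd_pos hh hρ i
  have hw1 : ∀ i : Fin (l + 1), wd h ρ i ≤ 1 := fun i => by
    unfold wd; split_ifs <;> assumption
  set N : Fin (l + 1) → ℕ := fun i => ⌈R / wd h ρ i⌉₊ + 1 with hN
  refine ⟨Fintype.piFinset (fun i => Finset.Icc (-(N i : ℤ)) (N i)), ?_, ?_⟩
  · intro u hu
    rw [Fintype.mem_piFinset]
    intro i
    rw [Finset.mem_Icc]
    have h1 : |u i / wd h ρ i| ≤ R / wd h ρ i := by
      rw [abs_div, abs_of_pos (hw i)]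
      have := (abs_coord_le u i).trans hu
      have := hw i
      gcongr
    have h2 : R / wd h ρ i ≤ ⌈R / wd h ρ i⌉₊ := Nat.le_ceil _
    have h3 := Int.floor_le (u i / wd h ρ i)
    have h4 := Int.lt_floor_add_one (u i / wd h ρ i)
    obtain ⟨h5, h6⟩ := abs_le.1 h1
    constructor
    · have h7 : (-(N i : ℤ) : ℝ) - 1 < (bx h ρ u i : ℝ) := by
        simp only [bx, hN]
        push_cast
        linarith
      have h8 : -(N i : ℤ) - 1 < bx h ρ u i := by exact_mod_cast h7
      omega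
    · have h7 : (bx h ρ u i : ℝ) ≤ (N i : ℤ) := by
        simp only [bx, hN]
        push_cast
        linarith
      exact_mod_cast h7
  · rw [Fintype.card_piFinset]
    push_cast
    have h1 : ∀ i : Fin (l + 1), ((Finset.Icc (-(N i : ℤ)) (N i)).card : ℝ) ≤
        (2 * R + 5) / wd h ρ i := by
      intro i
      rw [Int.card_Icc]
      have h2 : (((N i : ℤ) + 1 - -(N i : ℤ)).toNat : ℝ) = 2 * N i + 1 := by
        have : ((N i : ℤ) + 1 - -(N i : ℤ)).toNat = 2 * N i + 1 := by omega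
        rw [this]
        push_cast
        ring
      rw [h2, le_div_iff₀ (hw i)]
      have h3 : (N i : ℝ) ≤ R / wd h ρ i + 2 := by
        simp only [hN]
        push_cast
        have := (Nat.ceil_lt_add_one (div_nonneg hR (hw i).le)).le
        linarith
      have h4 : R / wd h ρ i * wd h ρ i = R := div_mul_cancel₀ _ (hw i).ne'
      have h5 := hw i
      have h6 := hw1 i
      nlinarith
    calc ∏ i : Fin (l + 1), ((Finset.Icc (-(N i : ℤ)) (N i)).card : ℝ)
        ≤ ∏ i : Fin (l + 1), (2 * R + 5) / wd h ρ i :=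
          Finset.prod_le_prod (fun i _ => by positivity) (fun i _ => h1 i)
      _ = _ := by
          rw [Finset.prod_div_distrib, Finset.prod_const, Finset.card_univ, Fintype.card_fin,
            Fin.prod_univ_succ]
          simp [wd]

/-- **Covering the image of a smooth map by polynomial curves.** -/
theorem curve_cover {l n k : ℕ} (hk : 1 ≤ k) {U : Set (E (l + 1))} (hU : IsOpen U)
    {φ : E (l + 1) → E n} (hφ : ContDiffOn ℝ k φ U) {Q : Set (E (l + 1))} (hQ : IsCompact Q)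
    (hQU : Q ⊆ U) : ∃ C : ℝ, 0 < C ∧ ∀ δ : ℝ, 0 < δ → δ ≤ 1 →
      ∃ (T : Finset (Fin (l + 1) → ℤ)) (c : (Fin (l + 1) → ℤ) → ℕ → E n),
        (T.card : ℝ) ≤ C * δ ^ (-((l:ℝ) + 1 / k)) ∧
        ∀ u ∈ Q, ∃ z ∈ T, ∃ t : ℝ, ‖φ u - pcurve k (c z) t‖ ≤ δ := by
  classical
  obtain ⟨r, hr, hrU⟩ := hQ.exists_cthickening_subset_open hU hQU
  set Q' := cthickening r Q with hQ'
  have hQ'c : IsCompact Q' := hQ.cthickening
  have hcD : ContinuousOn (fun x => ‖iteratedFDeriv ℝ k φ x‖) Q' := by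
    have h1 : ContinuousOn (iteratedFDerivWithin ℝ k φ U) U :=
      hφ.continuousOn_iteratedFDerivWithin le_rfl hU.uniqueDiffOn
    have h2 : ContinuousOn (iteratedFDeriv ℝ k φ) U :=
      h1.congr (fun x hx => (iteratedFDerivWithin_of_isOpen k hU hx).symm)
    exact (h2.mono hrU).norm
  have hcF : ContinuousOn (fun x => ‖fderiv ℝ φ x‖) Q' :=
    ((hφ.continuousOn_fderiv_of_isOpen hU (by exact_mod_cast hk)).mono hrU).norm
  obtain ⟨B₀, hB₀⟩ := (hQ'c.image_of_continuousOn hcD).bddAbove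
  obtain ⟨L₀, hL₀⟩ := (hQ'c.image_of_continuousOn hcF).bddAbove
  obtain ⟨R₀, hR₀⟩ := hQ.isBounded.exists_norm_le
  set B := max B₀ 1 with hBd
  set L := max L₀ 1 with hLd
  set R := max R₀ 0 with hRd
  have hB1 : 1 ≤ B := le_max_right _ _
  have hL1 : 1 ≤ L := le_max_right _ _
  have hR1 : 0 ≤ R := le_max_right _ _
  have hBb : ∀ x ∈ Q', ‖iteratedFDeriv ℝ k φ x‖ ≤ B := fun x hx =>
    (hB₀ (mem_image_of_mem _ hx)).trans (le_max_left _ _)
  have hLb : ∀ x ∈ Q', ‖fderiv ℝ φ x‖ ≤ L := fun x hx =>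
    (hL₀ (mem_image_of_mem _ hx)).trans (le_max_left _ _)
  have hRb : ∀ x ∈ Q, ‖x‖ ≤ R := fun x hx => (hR₀ x hx).trans (le_max_left _ _)
  set a : ℝ := min (min r 1) (1 / (2 * B)) with ha
  set b : ℝ := min (min r 1) 1 / (2 * L * ((l:ℝ) + 1)) with hb
  have hl0 : (0:ℝ) < (l:ℝ) + 1 := by positivity
  have hmr : 0 < min r 1 := lt_min hr one_pos
  have ha0 : 0 < a := lt_min hmr (by positivity)
  have ha1 : a ≤ 1 := (min_le_left _ _).trans (min_le_right _ _)
  have har : a ≤ r := (min_le_left _ _).trans (min_le_left _ _)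
  have haB : B * a ≤ 1 / 2 := by
    have : a ≤ 1 / (2 * B) := min_le_right _ _
    calc B * a ≤ B * (1 / (2 * B)) := by gcongr
      _ = 1 / 2 := by field_simp
  have hb0 : 0 < b := by positivity
  have hbr : L * (((l:ℝ) + 1) * b) ≤ 1 / 2 := by
    have h1 : L * (((l:ℝ) + 1) * b) = min (min r 1) 1 / 2 := by
      rw [hb]; field_simp
    rw [h1]
    have : min (min r 1) 1 ≤ 1 := min_le_right _ _
    linarith
  have hbr2 : ((l:ℝ) + 1) * b ≤ r := by
    have h1 : ((l:ℝ) + 1) * b = min (min r 1) 1 / (2 * L) := by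
      rw [hb]; field_simp
    rw [h1, div_le_iff₀ (by positivity)]
    have h2 : min (min r 1) 1 ≤ r := (min_le_left _ _).trans (min_le_left _ _)
    nlinarith
  have hb1 : b ≤ 1 := by
    have : b ≤ L * (((l:ℝ) + 1) * b) := by
      have h0 : (0:ℝ) ≤ l := by positivity
      have h1 : 1 ≤ L * ((l:ℝ) + 1) := by nlinarith
      nlinarith
    linarith
  have hk0 : (0:ℝ) < k := by exact_mod_cast hk
  refine ⟨(2 * R + 5) ^ (l + 1) / (a * b ^ l), by positivity, ?_⟩
  intro δ hδ hδ1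
  set h : ℝ := a * δ ^ (1 / (k:ℝ)) with hh
  set ρ : ℝ := b * δ with hρ
  have hδk : 0 < δ ^ (1 / (k:ℝ)) := by positivity
  have hδk1 : δ ^ (1 / (k:ℝ)) ≤ 1 := Real.rpow_le_one hδ.le hδ1 (by positivity)
  have hh0 : 0 < h := by positivity
  have hh1 : h ≤ 1 := by
    rw [hh]; nlinarith
  have hhr : h ≤ r := by
    rw [hh]; nlinarith
  have hρ0 : 0 < ρ := by positivity
  have hρ1 : ρ ≤ 1 := by
    rw [hρ]; nlinarith
  have hρr : ((l:ℝ) + 1) * ρ ≤ r := by
    rw [hρ]
    calc ((l:ℝ) + 1) * (b * δ) = (((l:ℝ) + 1) * b) * δ := by ring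
      _ ≤ (((l:ℝ) + 1) * b) * 1 := by gcongr
      _ ≤ r := by rw [mul_one]; exact hbr2
  have hρL : L * (((l:ℝ) + 1) * ρ) ≤ δ / 2 := by
    rw [hρ]
    calc L * (((l:ℝ) + 1) * (b * δ)) = (L * (((l:ℝ) + 1) * b)) * δ := by ring
      _ ≤ 1 / 2 * δ := by gcongr
      _ = δ / 2 := by ring
  have hhB : B * h ^ k ≤ δ / 2 := by
    rw [hh, mul_pow]
    have h1 : (δ ^ (1 / (k:ℝ))) ^ k = δ := by
      rw [← Real.rpow_natCast, ← Real.rpow_mul hδ.le, one_div, inv_mul_cancel₀ hk0.ne',
        Real.rpow_one]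
    rw [h1]
    have h2 : a ^ k ≤ a := pow_le_of_le_one ha0.le ha1 (by omega)
    calc B * (a ^ k * δ) ≤ B * (a * δ) := by gcongr
      _ = (B * a) * δ := by ring
      _ ≤ 1 / 2 * δ := by gcongr
      _ = δ / 2 := by ring
  obtain ⟨T, hT1, hT2⟩ := count_boxes (l := l) hR1 hh0 hh1 hρ0 hρ1
  set e0 : E (l + 1) := EuclideanSpace.single 0 1 with he0
  have he01 : ‖e0‖ ≤ 1 := by simp [he0]
  -- the corner of the box `z` next to a point of `Q`
  have key : ∀ z : Fin (l + 1) → ℤ, ∃ c : ℕ → E n, ∀ u ∈ Q, bx h ρ u = z →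
      ∃ t : ℝ, ‖φ u - pcurve k c t‖ ≤ δ := by
    intro z
    by_cases hz : ∃ u ∈ Q, bx h ρ u = z
    · obtain ⟨u₀, hu₀, hz₀⟩ := hz
      set p : E (l + 1) := u₀ + ((z 0 : ℝ) * h - u₀ 0) • e0 with hp
      have hu₀b := bx_le hh0 hρ0 u₀
      have hline : ∀ t ∈ Icc 0 h, p + t • e0 ∈ Q' := by
        intro t ht
        have h1 : p + t • e0 = u₀ + ((z 0 : ℝ) * h - u₀ 0 + t) • e0 := by
          rw [hp, add_assoc, ← add_smul]
        rw [h1]
        apply mem_cthickening_of_dist_le _ u₀ _ _ hu₀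
        rw [dist_eq_norm, add_sub_cancel_left, norm_smul, Real.norm_eq_abs]
        have h2 := hu₀b 0
        simp only [wd, if_true] at h2
        rw [hz₀] at h2
        have h3 : |(z 0 : ℝ) * h - u₀ 0 + t| ≤ h := by
          rw [abs_le]
          constructor <;> linarith [ht.1, ht.2, h2.1, h2.2]
        calc |(z 0 : ℝ) * h - u₀ 0 + t| * ‖e0‖ ≤ h * 1 := by gcongr
          _ ≤ r := by rw [mul_one]; exact hhr
      obtain ⟨c, hc⟩ := taylor_line hk hU hφ (p := p) he01 hh0 (B := B)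
        (fun t ht => ⟨hrU (hline t ht), hBb _ (hline t ht)⟩)
      refine ⟨c, fun u hu huz => ⟨u 0 - (z 0 : ℝ) * h, ?_⟩⟩
      have hub := bx_le hh0 hρ0 u
      have h2 := hub 0
      simp only [wd, if_true] at h2
      rw [huz] at h2
      set t := u 0 - (z 0 : ℝ) * h with ht
      have htm : t ∈ Icc 0 h := ⟨by linarith [h2.1], by linarith [h2.2]⟩
      have h3 := hc t htm
      have h4 : ‖φ u - φ (p + t • e0)‖ ≤ L * ‖u - (p + t • e0)‖ := by
        have hd : ‖u - (p + t • e0)‖ ≤ ((l:ℝ) + 1) * ρ := by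
          apply norm_le_coord hρ0.le
          intro i
          have hi0 : (u - (p + t • e0)) i = u i - u₀ i - ((z 0 : ℝ) * h - u₀ 0) * e0 i
              - t * e0 i := by
            simp only [hp, PiLp.sub_apply, PiLp.add_apply, PiLp.smul_apply, smul_eq_mul]
            ring
          by_cases hi : i = 0
          · subst hi
            rw [hi0]
            have : e0 0 = 1 := by simp [he0]
            rw [this, ht]
            have : u 0 - u₀ 0 - ((z 0 : ℝ) * h - u₀ 0) * 1 - (u 0 - (z 0 : ℝ) * h) * 1 = 0 := by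
              ring
            rw [this, abs_zero]
            exact hρ0.le
          · rw [hi0]
            have : e0 i = 0 := by simp [he0, hi]
            rw [this]
            have h5 := hub i
            have h6 := hu₀b i
            simp only [wd, hi, if_false] at h5 h6
            rw [huz] at h5
            rw [hz₀] at h6
            rw [abs_le]
            constructor <;> linarith [h5.1, h5.2, h6.1, h6.2]
        have hball : closedBall u r ⊆ Q' := by
          intro x hx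
          exact mem_cthickening_of_dist_le _ u _ _ hu (mem_closedBall.1 hx)
        have hmem : p + t • e0 ∈ closedBall u r := by
          rw [mem_closedBall, dist_comm, dist_eq_norm]
          exact hd.trans hρr
        refine (convex_closedBall u r).norm_image_sub_le_of_norm_fderiv_le (𝕜 := ℝ) (f := φ)
          (fun x hx => ?_) (fun x hx => hLb x (hball hx)) hmem (mem_closedBall_self hr.le)
        exact (hφ.contDiffAt (hU.mem_nhds (hrU (hball hx)))).differentiableAt
          (by exact_mod_cast (by omega : k ≠ 0))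
      have hd : ‖u - (p + t • e0)‖ ≤ ((l:ℝ) + 1) * ρ := by
        apply norm_le_coord hρ0.le
        intro i
        have hi0 : (u - (p + t • e0)) i = u i - u₀ i - ((z 0 : ℝ) * h - u₀ 0) * e0 i
            - t * e0 i := by
          simp only [hp, PiLp.sub_apply, PiLp.add_apply, PiLp.smul_apply, smul_eq_mul]
          ring
        by_cases hi : i = 0
        · subst hi
          rw [hi0]
          have : e0 0 = 1 := by simp [he0]
          rw [this, ht]
          have : u 0 - u₀ 0 - ((z 0 : ℝ) * h - u₀ 0) * 1 - (u 0 - (z 0 : ℝ) * h) * 1 = 0 := by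
            ring
          rw [this, abs_zero]
          exact hρ0.le
        · rw [hi0]
          have : e0 i = 0 := by simp [he0, hi]
          rw [this]
          have h5 := hub i
          have h6 := hu₀b i
          simp only [wd, hi, if_false] at h5 h6
          rw [huz] at h5
          rw [hz₀] at h6
          rw [abs_le]
          constructor <;> linarith [h5.1, h5.2, h6.1, h6.2]
      calc ‖φ u - pcurve k c t‖ = ‖(φ u - φ (p + t • e0)) + (φ (p + t • e0) - pcurve k c t)‖ := by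
            congr 1; abel
        _ ≤ ‖φ u - φ (p + t • e0)‖ + ‖φ (p + t • e0) - pcurve k c t‖ := norm_add_le _ _
        _ ≤ L * (((l:ℝ) + 1) * ρ) + B * h ^ k := by
            apply add_le_add _ h3
            exact h4.trans (by gcongr)
        _ ≤ δ := by linarith
    · refine ⟨fun _ => 0, fun u hu huz => absurd ⟨u, hu, huz⟩ hz⟩
  choose c hc using key
  refine ⟨T, c, ?_, ?_⟩
  · refine hT2.trans (le_of_eq ?_)
    have h1 : δ ^ (-((l:ℝ) + 1 / k)) = (δ ^ (1 / (k:ℝ)) * δ ^ l)⁻¹ := by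
      rw [Real.rpow_neg hδ.le, Real.rpow_add hδ, Real.rpow_natCast, mul_comm]
    rw [h1, hh, hρ, mul_pow]
    field_simp
  · intro u hu
    refine ⟨bx h ρ u, hT1 u (hRb u hu), ?_⟩
    exact hc _ u hu rfl

end Pool.Agent.Y245.PC
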