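import Pool.Agent.Y245.PlanesDim

set_option autoImplicit false

/-!
# Iterated families of planes: definitions and the main theorems
-/

open MeasureTheory Set Filter Topology ENNReal NNReal Metric

namespace Pool.Agent.Y245.Pl

/-- The normal space of the `k`-plane `range f` of `ℝ^n`. -/
noncomputable def normal {k n : ℕ} (f : E k →ᵃⁱ[ℝ] E n) : Submodule ℝ (E n) :=
  (LinearMap.range f.linearIsometry.toLinearMap)ᗮ

/-- The normal spaces of the planes `range (f s)` are `β`-dimensionally spread: the set of all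
`s'` such that some unit vector of the normal space number `s` is at distance at most `r` from
the normal space number `s'` has (outer) measure at most `C r^β`. -/
def Spread {k n : ℕ} {Ω : Type*} [MeasurableSpace Ω] (μ : Measure Ω) (f : Ω → E k →ᵃⁱ[ℝ] E n)
    (β : ℝ) : Prop :=
  ∃ C : ℝ, ∀ s, ∀ r : ℝ, 0 < r →
    μ {s' | ∃ ν ∈ normal (f s), ∃ ν' ∈ normal (f s'), ‖ν‖ = 1 ∧ ‖ν - ν'‖ ≤ r} ≤
      ENNReal.ofReal (C * r ^ β)

/-- Iterated Kakeya sets.  A set of full Hausdorff dimension in `ℝ^n` is one; and `K ⊆ ℝ^n` is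
one if there are a number `k` with `n / 2 ≤ k < n` and a family of `k`-planes whose normal spaces
are `(n - k)`-dimensionally spread, such that for a set of positive (outer) measure of parameters
the section of `K` with the plane is an iterated Kakeya set of the plane. -/
inductive Iterated : (n : ℕ) → Set (E n) → Prop
  | full {n : ℕ} {K : Set (E n)} (h : (n : ℝ≥0∞) ≤ dimH K) : Iterated n K
  | step {k n : ℕ} (h1 : k < n) (h2 : n ≤ 2 * k) {K : Set (E n)} {Ω : Type} [MeasurableSpace Ω]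
      (μ : Measure Ω) (f : Ω → E k →ᵃⁱ[ℝ] E n) (h : Spread μ f ((n : ℝ) - k)) {S : Set Ω}
      (hS : μ S ≠ 0) (hK : ∀ s ∈ S, Iterated k (f s ⁻¹' K)) : Iterated n K

theorem dim_planes {m q : ℕ} (hm : 1 ≤ m) {Ω : Type*} [MeasurableSpace Ω] (μ : Measure Ω)
    {N : Ω → Submodule ℝ (E (m + m + q))} (hN : ∀ s, Module.finrank ℝ (N s) = m)
    (x : Ω → E (m + m + q)) {C : ℝ} {β : ℝ≥0} (hβ : β ≤ m)
    (hsp : ∀ s, ∀ r : ℝ, 0 < r → μ {s' | Close (N s) (N s') r} ≤
      ENNReal.ofReal (C * r ^ (β:ℝ)))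
    {S : Set Ω} (hS : μ S ≠ 0) (K : Set (E (m + m + q))) {σ : ℝ≥0}
    (hdim : ∀ s ∈ S, (σ : ℝ≥0∞) ≤ dimH (K ∩ pln (N s) (x s))) :
    2 * (σ : ℝ≥0∞) + β ≤ dimH K + ((m + q : ℕ) : ℝ≥0∞) := by
  by_contra hcon
  rw [not_le] at hcon
  rcases eq_or_ne σ 0 with h0 | h0
  · rw [h0, ENNReal.coe_zero, mul_zero, zero_add] at hcon
    have h1 : (β : ℝ≥0∞) ≤ ((m + q : ℕ) : ℝ≥0∞) := by
      have h2 : β ≤ ((m + q : ℕ) : ℝ≥0) := hβ.trans (by push_cast; simp)
      exact_mod_cast h2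
    exact absurd hcon (not_lt.2 (h1.trans le_add_self))
  have hσ : (0:ℝ) < σ := by
    have : 0 < σ := pos_iff_ne_zero.2 h0
    exact_mod_cast this
  have hKt : dimH K + ((m + q : ℕ) : ℝ≥0∞) ≠ ∞ := hcon.ne_top
  set D : ℝ := (dimH K + ((m + q : ℕ) : ℝ≥0∞)).toReal with hD
  have hDD : dimH K + ((m + q : ℕ) : ℝ≥0∞) = ENNReal.ofReal D := (ENNReal.ofReal_toReal hKt).symm
  have hD0 : 0 ≤ D := ENNReal.toReal_nonneg
  have h1 : D < 2 * σ + β := by
    have h2 : ENNReal.ofReal D < ENNReal.ofReal (2 * σ + β) := by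
      rw [← hDD]
      refine hcon.trans_le (le_of_eq ?_)
      rw [ENNReal.ofReal_add (by positivity) (by positivity), ENNReal.ofReal_mul (by norm_num)]
      simp
    exact (ENNReal.ofReal_lt_ofReal_iff_of_nonneg hD0).1 h2
  set σ' : ℝ := (σ:ℝ) - min ((σ:ℝ) / 2) ((2 * (σ:ℝ) + β - D) / 4) with hσ'
  have h3 : min ((σ:ℝ) / 2) ((2 * σ + β - D) / 4) ≤ σ / 2 := min_le_left _ _
  have h4 : min ((σ:ℝ) / 2) ((2 * σ + β - D) / 4) ≤ (2 * σ + β - D) / 4 := min_le_right _ _
  have h5 : 0 < min ((σ:ℝ) / 2) ((2 * σ + β - D) / 4) := lt_min (by positivity) (by linarith)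
  have h6 := dim_core hm μ hN x (C := max C 1) (β := β) (by positivity) (by exact_mod_cast hβ)
    (fun s r hr => (hsp s r hr).trans (ENNReal.ofReal_le_ofReal (by
      gcongr
      exact le_max_left _ _))) hS K (σ := σ') (by rw [hσ']; linarith) (fun s hs => by
      refine lt_of_lt_of_le ?_ (hdim s hs)
      rw [← ENNReal.ofReal_coe_nnreal]
      refine (ENNReal.ofReal_lt_ofReal_iff hσ).2 ?_
      rw [hσ']; linarith)
  rw [hDD, ENNReal.ofReal_le_ofReal_iff hD0] at h6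
  rw [hσ'] at h6
  linarith

theorem finrank_normal {k n : ℕ} (f : E k →ᵃⁱ[ℝ] E n) :
    k + Module.finrank ℝ (normal f) = n := by
  have h1 := Submodule.finrank_add_finrank_orthogonal
    (LinearMap.range f.linearIsometry.toLinearMap)
  rw [LinearMap.finrank_range_of_inj f.linearIsometry.injective, finrank_euclideanSpace_fin,
    finrank_euclideanSpace_fin] at h1
  exact h1

theorem range_subset_pln {k n : ℕ} (f : E k →ᵃⁱ[ℝ] E n) (y : E k) :
    f y ∈ pln (normal f) (f 0) := by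
  intro ν hν
  have h1 : f y - f 0 = f.linearIsometry y := by
    have h2 := f.map_vsub y 0
    simp only [vsub_eq_sub, sub_zero] at h2
    exact h2.symm
  rw [h1]
  exact (Submodule.mem_orthogonal _ _).1 hν _ (LinearMap.mem_range_self _ y)

/-- The general inequality. -/
theorem dim_sections {k n : ℕ} (h1 : k < n) (h2 : n ≤ 2 * k) {Ω : Type*} [MeasurableSpace Ω]
    (μ : Measure Ω) (f : Ω → E k →ᵃⁱ[ℝ] E n) {β : ℝ≥0} (hβ : (β : ℝ) ≤ (n : ℝ) - k)
    (h : Spread μ f β) {S : Set Ω} (hS : μ S ≠ 0) (K : Set (E n)) {σ : ℝ≥0}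
    (hK : ∀ s ∈ S, (σ : ℝ≥0∞) ≤ dimH (K ∩ range (f s))) :
    2 * (σ : ℝ≥0∞) + β ≤ dimH K + k := by
  obtain ⟨m, q, rfl, rfl⟩ : ∃ m q, n = m + m + q ∧ k = m + q :=
    ⟨n - k, 2 * k - n, by omega, by omega⟩
  obtain ⟨C, hC⟩ := h
  have hβ' : (β : ℝ) ≤ m := by
    push_cast at hβ
    linarith
  refine dim_planes (m := m) (q := q) (by omega) μ (N := fun s => normal (f s)) (fun s => ?_)
    (fun s => f s 0) (by exact_mod_cast hβ') hC hS K (fun s hs => (hK s hs).trans ?_)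
  · have := finrank_normal (f s)
    omega
  · apply dimH_mono
    rintro _ ⟨h3, y, rfl⟩
    exact ⟨h3, range_subset_pln _ _⟩

/-- Iterated Kakeya sets have full dimension. -/
theorem Iterated.dim {n : ℕ} {K : Set (E n)} (h : Iterated n K) : (n : ℝ≥0∞) ≤ dimH K := by
  induction h with
  | full h => exact h
  | @step k n h1 h2 K Ω _ μ f h S hS _ ih =>
    have h3 : ((n - k : ℕ) : ℝ) = (n : ℝ) - k := by
      rw [Nat.cast_sub h1.le]
    have h4 := dim_sections h1 h2 μ f (β := ((n - k : ℕ) : ℝ≥0)) (by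
      rw [← h3, NNReal.coe_natCast]) (by
      rw [← h3] at h
      rw [NNReal.coe_natCast]
      exact h) hS K (σ := (k : ℝ≥0)) (fun s hs => by
      have h5 := ih s hs
      rw [← (f s).isometry.dimH_image, image_preimage_eq_inter_range] at h5
      simpa using h5)
    have h6 : 2 * ((k : ℝ≥0) : ℝ≥0∞) + (((n - k : ℕ) : ℝ≥0) : ℝ≥0∞) = (n : ℝ≥0∞) + k := by
      have h7 : 2 * k + (n - k) = n + k := by omega
      have h8 : ((2 * k + (n - k) : ℕ) : ℝ≥0∞) = ((n + k : ℕ) : ℝ≥0∞) := by rw [h7]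
      push_cast at h8
      simpa using h8
    rw [h6] at h4
    exact (ENNReal.add_le_add_iff_right (ENNReal.natCast_ne_top k)).1 h4

end Pool.Agent.Y245.Pl
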