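import Pool.Agent.W767.Kc.QV

set_option autoImplicit false

/-!
# Selection of points and the second moment argument
-/

open MeasureTheory Set Filter Topology ENNReal NNReal Metric

namespace Pool.Agent.Y245.Pl

/-- Choose points one after the other with small interaction. -/
theorem select {Ω : Type*} [MeasurableSpace Ω] (μ : Measure Ω) (H : Ω → Ω → ℝ≥0∞) {I : ℝ≥0∞}
    (hI0 : I ≠ 0) (hIt : I ≠ ∞)
    (hH : ∀ s, ∃ g : Ω → ℝ≥0∞, Measurable g ∧ (∀ s', H s s' ≤ g s') ∧ ∫⁻ x, g x ∂μ ≤ I)
    {S : Set Ω} (hS : μ S ≠ 0) (hSt : μ S ≠ ∞) (M : ℕ) :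
    ∃ s : ℕ → Ω, (∀ i < M, s i ∈ S) ∧
      ∀ l < M, ∑ i ∈ Finset.range l, H (s i) (s l) ≤ l * (2 * I / μ S) := by
  classical
  choose g hg1 hg2 hg3 using hH
  obtain ⟨o, ho⟩ : S.Nonempty := nonempty_of_measure_ne_zero hS
  induction M with
  | zero => exact ⟨fun _ => o, by simp, by simp⟩
  | succ M ih =>
    obtain ⟨s, h1, h2⟩ := ih
    have hex : ∃ x ∈ S, ∑ i ∈ Finset.range M, H (s i) x ≤ M * (2 * I / μ S) := by
      rcases Nat.eq_zero_or_pos M with rfl | hM
      · exact ⟨o, ho, by simp⟩
      by_contra hcon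
      push Not at hcon
      set G : Ω → ℝ≥0∞ := fun x => ∑ i ∈ Finset.range M, g (s i) x with hG
      have hGm : Measurable G := Finset.measurable_sum _ (fun i _ => hg1 _)
      have hGi : ∫⁻ x, G x ∂μ ≤ M * I := by
        rw [hG, lintegral_finsetSum _ (fun i _ => hg1 _)]
        calc ∑ i ∈ Finset.range M, ∫⁻ x, g (s i) x ∂μ ≤ ∑ _i ∈ Finset.range M, I :=
              Finset.sum_le_sum (fun i _ => hg3 _)
          _ = M * I := by simp
      have h3 := mul_meas_ge_le_lintegral (μ := μ) hGm (M * (2 * I / μ S))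
      have h4 : μ S ≤ μ {x | M * (2 * I / μ S) ≤ G x} := by
        apply measure_mono
        intro x hx
        exact (hcon x hx).le.trans (Finset.sum_le_sum (fun i _ => hg2 _ _))
      have h5 : (M * (2 * I / μ S)) * μ S ≤ M * I :=
        (mul_le_mul_right h4 _).trans (h3.trans hGi)
      have h6 : (M * (2 * I / μ S)) * μ S = 2 * (M * I) := by
        rw [mul_assoc, ENNReal.div_mul_cancel hS hSt]
        ring
      rw [h6] at h5
      have hMI0 : (M : ℝ≥0∞) * I ≠ 0 := by
        simp only [ne_eq, mul_eq_zero, Nat.cast_eq_zero, not_or]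
        exact ⟨hM.ne', hI0⟩
      have hMIt : (M : ℝ≥0∞) * I ≠ ∞ := ENNReal.mul_ne_top (ENNReal.natCast_ne_top _) hIt
      have h7 : (M : ℝ≥0∞) * I < 2 * (M * I) := by
        rw [two_mul]
        exact ENNReal.lt_add_right hMIt hMI0
      exact absurd h5 (not_le.2 h7)
    obtain ⟨x, hx1, hx2⟩ := hex
    refine ⟨Function.update s M x, ?_, ?_⟩
    · intro i hi
      rcases Nat.lt_succ_iff_lt_or_eq.1 hi with h | h
      · rw [Function.update_of_ne h.ne]
        exact h1 i h
      · rw [h, Function.update_self]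
        exact hx1
    · intro l hl
      rcases Nat.lt_succ_iff_lt_or_eq.1 hl with h | h
      · rw [Function.update_of_ne h.ne]
        refine le_trans (le_of_eq ?_) (h2 l h)
        apply Finset.sum_congr rfl
        intro i hi
        have hi' := Finset.mem_range.1 hi
        rw [Function.update_of_ne (by omega)]
      · subst h
        rw [Function.update_self]
        refine le_trans (le_of_eq ?_) hx2
        apply Finset.sum_congr rfl
        intro i hi
        have hi' := Finset.mem_range.1 hi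
        rw [Function.update_of_ne hi'.ne]

/-- The second moment argument. -/
theorem second_moment {X : Type*} [MeasurableSpace X] (ν : Measure X) {M : ℕ} {B : ℕ → Set X}
    (hB : ∀ i, MeasurableSet (B i)) {F : Set X} (hBF : ∀ i < M, B i ⊆ F)
    {a b c t : ℝ≥0∞} (ha : ∀ i < M, a ≤ ν (B i)) (hb : ∀ i < M, ν (B i) ≤ b)
    (hc : ∀ l < M, ∑ i ∈ Finset.range l, ν (B i ∩ B l) ≤ c * (l * t)) :
    (M * a) ^ 2 ≤ ν F * (M * b + c * t * M ^ 2) := by
  classical
  set f : ℕ → X → ℝ≥0∞ := fun N x => ∑ i ∈ Finset.range N, (B i).indicator 1 x with hf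
  have hfm : ∀ N, Measurable (f N) := fun N =>
    Finset.measurable_sum _ (fun i _ => measurable_one.indicator (hB i))
  have h1 : ∀ N ≤ M, ∫⁻ x, f N x ^ 2 ∂ν ≤ N * b + c * t * N ^ 2 := by
    intro N
    induction N with
    | zero => intro _; simp [hf]
    | succ N ih =>
      intro hN
      have ih' := ih (by omega)
      have h2 : ∀ x, f (N + 1) x ^ 2 = f N x ^ 2 +
          (2 * ∑ i ∈ Finset.range N, (B i ∩ B N).indicator 1 x + (B N).indicator 1 x) := by
        intro x
        have e1 : f (N + 1) x = f N x + (B N).indicator 1 x := Finset.sum_range_succ _ _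
        have e2 : (∑ i ∈ Finset.range N, (B i ∩ B N).indicator (1 : X → ℝ≥0∞) x) =
            f N x * (B N).indicator 1 x := by
          rw [hf, Finset.sum_mul]
          apply Finset.sum_congr rfl
          intro i _
          rw [inter_indicator_one]
          rfl
        have e3 : ((B N).indicator (1 : X → ℝ≥0∞) x) ^ 2 = (B N).indicator 1 x := by
          by_cases hx : x ∈ B N
          · rw [indicator_of_mem hx]; simp
          · rw [indicator_of_notMem hx]; simp
        rw [e1, e2]
        calc (f N x + (B N).indicator 1 x) ^ 2 = f N x ^ 2 + (2 * (f N x * (B N).indicator 1 x) +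
              ((B N).indicator (1 : X → ℝ≥0∞) x) ^ 2) := by ring
          _ = _ := by rw [e3]
      simp_rw [h2]
      have m1 : ∀ i ∈ Finset.range N, Measurable ((B i ∩ B N).indicator (1 : X → ℝ≥0∞)) :=
        fun i _ => measurable_one.indicator ((hB i).inter (hB N))
      have m2 : Measurable (fun x => ∑ i ∈ Finset.range N,
          (B i ∩ B N).indicator (1 : X → ℝ≥0∞) x) := Finset.measurable_sum _ m1
      rw [lintegral_add_left ((hfm N).pow_const 2), lintegral_add_left (m2.const_mul 2),
        lintegral_const_mul' _ _ (by norm_num), lintegral_finsetSum _ m1,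
        lintegral_indicator_one (hB N)]
      have h3 : ∑ i ∈ Finset.range N, ∫⁻ x, (B i ∩ B N).indicator (1 : X → ℝ≥0∞) x ∂ν =
          ∑ i ∈ Finset.range N, ν (B i ∩ B N) := by
        apply Finset.sum_congr rfl
        intro i _
        exact lintegral_indicator_one ((hB i).inter (hB N))
      rw [h3]
      calc ∫⁻ x, f N x ^ 2 ∂ν + (2 * ∑ i ∈ Finset.range N, ν (B i ∩ B N) + ν (B N))
          ≤ (N * b + c * t * N ^ 2) + (2 * (c * (N * t)) + b) :=
            add_le_add ih' (add_le_add (mul_le_mul_right (hc N (by omega)) _) (hb N (by omega)))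
        _ ≤ (N * b + c * t * N ^ 2) + (2 * (c * (N * t)) + b) + c * t := le_self_add
        _ = ((N + 1 : ℕ) : ℝ≥0∞) * b + c * t * ((N + 1 : ℕ) : ℝ≥0∞) ^ 2 := by
            push_cast
            ring
  have h4 : (M : ℝ≥0∞) * a ≤ ∫⁻ x in F, f M x ∂ν := by
    have e1 : ∀ i ∈ Finset.range M, ∫⁻ x in F, (B i).indicator (1 : X → ℝ≥0∞) x ∂ν = ν (B i) := by
      intro i hi
      rw [lintegral_indicator_one (hB i), Measure.restrict_apply (hB i),
        inter_eq_self_of_subset_left (hBF i (Finset.mem_range.1 hi))]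
    rw [hf, lintegral_finsetSum _ (fun i _ => measurable_one.indicator (hB i)),
      Finset.sum_congr rfl e1]
    calc (M : ℝ≥0∞) * a = ∑ _i ∈ Finset.range M, a := by simp
      _ ≤ _ := Finset.sum_le_sum (fun i hi => ha i (Finset.mem_range.1 hi))
  calc ((M : ℝ≥0∞) * a) ^ 2 ≤ (∫⁻ x in F, f M x ∂ν) ^ 2 := pow_le_pow_left' h4 2
    _ ≤ (ν.restrict F) univ * ∫⁻ x in F, f M x ^ 2 ∂ν :=
        Pool.Agent.W767.Kc.lintegral_sq_le _ (hfm M).aemeasurable
    _ ≤ ν F * ∫⁻ x, f M x ^ 2 ∂ν := by
        rw [Measure.restrict_apply_univ]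
        gcongr
        exact Measure.restrict_le_self
    _ ≤ _ := by
        gcongr
        exact h1 M le_rfl

end Pool.Agent.Y245.Pl
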