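import Pool.Agent.Y245.Transfer
import Pool.Agent.Y245.CurveCover

set_option autoImplicit false

/-!
# Kakeya sets whose lines meet a smooth manifold
-/

open MeasureTheory Set Filter Topology ENNReal NNReal Metric

namespace Pool.Agent.Y245.PC

open Pool.Agent.H742R2.Kk

theorem poly_le_exp (q : ℕ) {ε : ℝ} (hε : 0 < ε) : ∃ A : ℝ, 0 < A ∧ ∀ i : ℕ,
    ((i:ℝ) + 1) ^ q ≤ A * ((2:ℝ) ^ (i + 1)) ^ ε := by
  have hl2 : 0 < Real.log 2 := Real.log_pos (by norm_num)
  set t : ℝ := ε * Real.log 2 / (q + 1) with ht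
  have ht0 : 0 < t := by positivity
  refine ⟨(1 / t) ^ q, by positivity, fun i => ?_⟩
  set x : ℝ := (i : ℝ) + 1 with hx
  have hx0 : 0 < x := by positivity
  have hDx : (2:ℝ) ^ (i + 1) = Real.exp (x * Real.log 2) := by
    rw [← Real.rpow_natCast, Real.rpow_def_of_pos (by norm_num)]
    congr 1
    push_cast
    rw [hx]; ring
  have h2 : x ≤ (1 / t) * Real.exp (t * x) := by
    rw [one_div_mul_eq_div, le_div_iff₀ ht0]
    have := Real.add_one_le_exp (t * x)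
    linarith
  calc x ^ q ≤ ((1 / t) * Real.exp (t * x)) ^ q := by gcongr
    _ = (1 / t) ^ q * Real.exp (t * x * q) := by
      rw [mul_pow, ← Real.exp_nat_mul]
      congr 2
      ring
    _ ≤ (1 / t) ^ q * ((2:ℝ) ^ (i + 1)) ^ ε := by
      gcongr
      rw [hDx, ← Real.exp_mul]
      apply Real.exp_le_exp.2
      have h3 : t * q ≤ ε * Real.log 2 := by
        rw [ht, div_mul_eq_mul_div, div_le_iff₀ (by positivity)]
        have : 0 ≤ ε * Real.log 2 := by positivity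
        nlinarith
      nlinarith

/-- Upper bound for the volume of a tube. -/
theorem volume_tube_le {m : ℕ} {δ : ℝ} {e a : E (m + 1)} (hδ : 0 < δ) (he : ‖e‖ = 1) :
    volume (Tr.tube δ e a) ≤ ENNReal.ofReal ((2 * δ) ^ m) := by
  have hon : Orthonormal ℝ (({0} : Set (Fin (m + 1))).domRestrict (fun _ => e)) := by
    rw [orthonormal_iff_ite]
    rintro ⟨i, hi⟩ ⟨j, hj⟩
    simp only [mem_singleton_iff] at hi hj
    subst hi; subst hj
    change (inner ℝ e e : ℝ) = _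
    rw [real_inner_self_eq_norm_sq, he]
    simp
  obtain ⟨b, hb⟩ := hon.exists_orthonormalBasis_extension_of_card_eq (by simp)
  have hb0 : b 0 = e := hb 0 rfl
  set r : Fin (m + 1) → ℝ := Fin.cons (1 / 2) (fun _ => δ) with hr
  set B : Set (Fin (m + 1) → ℝ) := Set.pi univ (fun i => Icc (-(r i)) (r i)) with hB
  have hBm : MeasurableSet B := MeasurableSet.univ_pi (fun i => measurableSet_Icc)
  have hvolB : volume B = ENNReal.ofReal ((2 * δ) ^ m) := by
    rw [hB, volume_pi_pi]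
    simp only [Real.volume_Icc]
    rw [Fin.prod_univ_succ]
    simp only [hr, Fin.cons_zero, Fin.cons_succ, Finset.prod_const, Finset.card_univ,
      Fintype.card_fin]
    have hnn : 0 ≤ δ - -δ := by linarith
    rw [← ENNReal.ofReal_pow hnn, ← ENNReal.ofReal_mul (by norm_num)]
    congr 1
    norm_num
    congr 1
    ring
  have hmp : MeasurePreserving (fun y : E (m + 1) => (b.repr (y - a)).ofLp) volume volume := by
    have h1 : MeasurePreserving (fun y : E (m + 1) => y - a) volume volume :=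
      measurePreserving_sub_right volume a
    have h2 := b.measurePreserving_repr
    have h3 := PiLp.volume_preserving_ofLp (Fin (m + 1))
    exact h3.comp (h2.comp h1)
  rw [← hvolB, ← hmp.measure_preimage hBm.nullMeasurableSet]
  apply measure_mono
  rintro y ⟨h1, h2⟩
  simp only [mem_preimage, hB, mem_univ_pi, mem_Icc]
  set v := y - a with hv
  have hv0 : (inner ℝ v e : ℝ) = b.repr v 0 := by
    rw [b.repr_apply_apply, hb0, real_inner_comm]
  intro i
  rw [← abs_le]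
  refine Fin.cases ?_ (fun j => ?_) i
  · rw [← hv0]; simpa [hr] using h1
  · have h3 : b.repr v j.succ = inner ℝ (b j.succ) (v - (inner ℝ v e : ℝ) • e) := by
      rw [inner_sub_right, inner_smul_right, ← hb0, b.inner_eq_zero (Fin.succ_ne_zero j), mul_zero,
        sub_zero, b.repr_apply_apply]
    rw [h3]
    refine (abs_real_inner_le_norm _ _).trans ?_
    rw [b.norm_eq_one, one_mul]
    simpa [hr] using h2

open Pool.Agent.W767.Kc in
theorem maxHyp {d l k : ℕ} (hd : 2 ≤ d) (hk : 1 ≤ k) {U : Set (E (l + 1))} (hU : IsOpen U)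
    {φ : E (l + 1) → E (d + 1)} (hφ : ContDiffOn ℝ k φ U) {Q : Set (E (l + 1))}
    (hQ : IsCompact Q) (hQU : Q ⊆ U) {S : Set (sphere (0 : E (d + 1)) 1)}
    {a : sphere (0 : E (d + 1)) 1 → E (d + 1)} (ha : ∀ e ∈ S, a e ∈ φ '' Q) :
    Tr.MaxHyp d (d + 1) ((l:ℝ) + 1 / k) S a := by
  classical
  intro ε hε
  obtain ⟨C, hC, hcov⟩ := curve_cover hk hU hφ hQ hQU
  obtain ⟨D, hD, hmain⟩ := main_enn d hd
  obtain ⟨P, hP, hpoly⟩ := poly_le_exp (d + 3) hε
  -- the number of dyadic scales for the order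
  obtain ⟨J', hJ'⟩ : ∃ J' : ℕ, 1 + ((d:ℝ) + 1) * ((k - 1 : ℕ):ℝ) ≤ 2 ^ J' := by
    obtain ⟨N, hN⟩ := pow_unbounded_of_one_lt (1 + ((d:ℝ) + 1) * ((k - 1 : ℕ):ℝ))
      (by norm_num : (1:ℝ) < 2)
    exact ⟨N, hN.le⟩
  set M0 : ℝ := (2:ℝ) ^ (d * (d + 1)) * ((d:ℝ) + 1) * D.toReal * 2 ^ (d + 1) * ((J':ℝ) + 2) ^ 2 *
    k with hM0
  have hkpos : (0:ℝ) < k := by exact_mod_cast hk
  refine ⟨C * (M0 + 1) * P, by positivity, ?_⟩
  intro i F hF
  set δ : ℝ := (1 / 2) ^ (i + 1) with hδ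
  have hδ0 : 0 < δ := by positivity
  have hδ1 : δ ≤ 1 := pow_le_one₀ (by norm_num) (by norm_num)
  obtain ⟨T, c, hT1, hT2⟩ := hcov δ hδ0 hδ1
  have hJ0 : (1:ℝ) ≤ 2 ^ (i + 1) * δ := by
    rw [hδ, ← mul_pow]; norm_num
  have hFi : Measurable (F.indicator (1 : E (d + 1) → ℝ≥0∞)) := measurable_one.indicator hF
  have hG : ∀ z : Fin (l + 1) → ℤ, ∃ G : E (d + 1) → ℝ≥0∞, Measurable G ∧
      (∀ e b : E (d + 1), ∀ t : ℝ, ‖e‖ = 1 →
        ‖(b - pcurve k (c z) t) - (inner ℝ (b - pcurve k (c z) t) e : ℝ) • e‖ ≤ δ →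
        ((volume (tube δ e b))⁻¹ * volume (F ∩ tube δ e b)) ^ (d + 1) ≤ G e) ∧
      ∫⁻ x in closedBall (0 : E (d + 1)) 1, G (‖x‖⁻¹ • x)
        ≤ D * ((((i + 1 : ℕ):ℝ≥0∞) + 1) ^ (d + 1) * ((J':ℝ≥0∞) + ((i + 1 : ℕ):ℝ≥0∞) + 1) ^ 2 *
          (((k - 1 : ℕ):ℝ≥0∞) + 1)) * volume F := by
    intro z
    obtain ⟨G, h1, h2, h3⟩ := hmain (k - 1) (pcurve k (c z)) (continuous_pcurve k (c z))
      (orderLE_pcurve hk (c z)) δ hδ0 hδ1 _ hFi J' (i + 1) hJ' hJ0
    refine ⟨G, h1, ?_, ?_⟩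
    · intro e b t he hb
      have h4 := h2 e b t he hb
      rwa [lintegral_indicator_one hF, Measure.restrict_apply hF] at h4
    · refine h3.trans (le_of_eq ?_)
      congr 1
      rw [← lintegral_indicator_one hF]
      apply lintegral_congr
      intro p
      by_cases hp : p ∈ F
      · rw [indicator_of_mem hp]; simp
      · rw [indicator_of_notMem hp]; simp
  choose G hGm hGpt hGint using hG
  refine ⟨fun e => (2 ^ d) ^ (d + 1) * ∑ z ∈ T, G z e, ?_, ?_, ?_⟩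
  · apply Measurable.const_mul
    exact Finset.measurable_sum _ (fun z _ => (hGm z).comp measurable_subtype_coe)
  · intro e he t
    obtain ⟨u, hu, hue⟩ := ha e he
    obtain ⟨z, hz, s, hs⟩ := hT2 u hu
    have he1 : ‖(e : E (d + 1))‖ = 1 := by simp
    set b := a e + t • (e : E (d + 1)) with hb
    have hee : (inner ℝ (e : E (d + 1)) (e : E (d + 1)) : ℝ) = 1 := by
      rw [real_inner_self_eq_norm_sq, he1]; norm_num
    have h1 : ‖(b - pcurve k (c z) s) - (inner ℝ (b - pcurve k (c z) s) (e : E (d + 1)) : ℝ) •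
        (e : E (d + 1))‖ ≤ δ := by
      set w := a e - pcurve k (c z) s with hw
      have h2 : b - pcurve k (c z) s = w + t • (e : E (d + 1)) := by
        rw [hb, hw]; abel
      rw [h2]
      have h3 : (w + t • (e : E (d + 1))) - (inner ℝ (w + t • (e : E (d + 1))) (e : E (d + 1)) : ℝ) •
          (e : E (d + 1)) = w - (inner ℝ w (e : E (d + 1)) : ℝ) • (e : E (d + 1)) := by
        rw [inner_add_left, inner_smul_left, hee]
        simp only [conj_trivial, mul_one, add_smul]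
        abel
      rw [h3]
      have h4 : ‖w - (inner ℝ w (e : E (d + 1)) : ℝ) • (e : E (d + 1))‖ ^ 2 ≤ ‖w‖ ^ 2 := by
        rw [@norm_sub_sq_real, inner_smul_right, norm_smul, he1, mul_one, Real.norm_eq_abs, sq_abs]
        nlinarith [sq_nonneg (inner ℝ w (e : E (d + 1)) : ℝ)]
      have h5 : ‖w‖ ≤ δ := by
        rw [hw, ← hue]; exact hs
      exact (abs_le_of_sq_le_sq' h4 (norm_nonneg _)).2.trans h5
    have h2 := hGpt z (e : E (d + 1)) b s he1 h1
    have h3 : Tr.av δ F (e : E (d + 1)) b ≤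
        2 ^ d * ((volume (tube δ (e : E (d + 1)) b))⁻¹ * volume (F ∩ tube δ (e : E (d + 1)) b)) := by
      have h4 : volume (tube δ (e : E (d + 1)) b) ≤ 2 ^ d * ENNReal.ofReal δ ^ d := by
        refine (volume_tube_le hδ0 he1).trans (le_of_eq ?_)
        rw [mul_pow, ENNReal.ofReal_mul (by positivity), ENNReal.ofReal_pow (by norm_num),
          ENNReal.ofReal_pow hδ0.le]
        congr 2
        simp
      have hD0 : ENNReal.ofReal δ ^ d ≠ 0 := pow_ne_zero _ (by simpa using hδ0)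
      have hDt : ENNReal.ofReal δ ^ d ≠ ∞ := ENNReal.pow_ne_top ENNReal.ofReal_ne_top
      have h20 : (2:ℝ≥0∞) ^ d ≠ 0 := pow_ne_zero _ (by norm_num)
      have h2t : (2:ℝ≥0∞) ^ d ≠ ∞ := ENNReal.pow_ne_top (by norm_num)
      have h5 : (ENNReal.ofReal δ ^ d)⁻¹ ≤ 2 ^ d * (volume (tube δ (e : E (d + 1)) b))⁻¹ := by
        calc (ENNReal.ofReal δ ^ d)⁻¹ = 2 ^ d * (2 ^ d * ENNReal.ofReal δ ^ d)⁻¹ := by
              rw [ENNReal.mul_inv (Or.inl h20) (Or.inl h2t), ← mul_assoc,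
                ENNReal.mul_inv_cancel h20 h2t, one_mul]
          _ ≤ _ := by gcongr
      unfold Tr.av
      rw [← mul_assoc]
      exact mul_le_mul' h5 le_rfl
    calc Tr.av δ F (e : E (d + 1)) b ^ (d + 1)
        ≤ (2 ^ d * ((volume (tube δ (e : E (d + 1)) b))⁻¹ *
          volume (F ∩ tube δ (e : E (d + 1)) b))) ^ (d + 1) := pow_le_pow_left' h3 _
      _ = (2 ^ d) ^ (d + 1) * ((volume (tube δ (e : E (d + 1)) b))⁻¹ *
          volume (F ∩ tube δ (e : E (d + 1)) b)) ^ (d + 1) := mul_pow _ _ _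
      _ ≤ (2 ^ d) ^ (d + 1) * G z e := by gcongr
      _ ≤ (2 ^ d) ^ (d + 1) * ∑ z ∈ T, G z e := by
          gcongr
          exact Finset.single_le_sum (f := fun z => G z (e : E (d + 1)))
            (fun _ _ => zero_le) hz
  · have hmeas : ∀ z ∈ T, Measurable (fun e : sphere (0 : E (d + 1)) 1 => G z e) :=
      fun z _ => (hGm z).comp measurable_subtype_coe
    rw [lintegral_const_mul' _ _ (ENNReal.pow_ne_top (ENNReal.pow_ne_top (by norm_num))),
      lintegral_finset_sum _ hmeas]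
    set X : ℝ≥0∞ := D * ((((i + 1 : ℕ):ℝ≥0∞) + 1) ^ (d + 1) *
      ((J':ℝ≥0∞) + ((i + 1 : ℕ):ℝ≥0∞) + 1) ^ 2 * (((k - 1 : ℕ):ℝ≥0∞) + 1)) with hX
    have hXr : X = ENNReal.ofReal (D.toReal * ((((i + 1 : ℕ):ℝ) + 1) ^ (d + 1) *
      ((J':ℝ) + ((i + 1 : ℕ):ℝ) + 1) ^ 2 * (((k - 1 : ℕ):ℝ) + 1))) := by
      rw [ENNReal.ofReal_mul ENNReal.toReal_nonneg, ENNReal.ofReal_toReal hD, hX]
      congr 1
      rw [ENNReal.ofReal_mul (by positivity), ENNReal.ofReal_mul (by positivity),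
        ENNReal.ofReal_pow (by positivity), ENNReal.ofReal_pow (by positivity)]
      have e1 : ENNReal.ofReal (((i + 1 : ℕ):ℝ) + 1) = ((i + 1 : ℕ):ℝ≥0∞) + 1 := by
        rw [ENNReal.ofReal_add (by positivity) (by norm_num), ENNReal.ofReal_natCast,
          ENNReal.ofReal_one]
      have e2 : ENNReal.ofReal ((J':ℝ) + ((i + 1 : ℕ):ℝ) + 1) =
          (J':ℝ≥0∞) + ((i + 1 : ℕ):ℝ≥0∞) + 1 := by
        rw [ENNReal.ofReal_add (by positivity) (by norm_num),
          ENNReal.ofReal_add (by positivity) (by positivity), ENNReal.ofReal_natCast,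
          ENNReal.ofReal_natCast, ENNReal.ofReal_one]
      have e3 : ENNReal.ofReal (((k - 1 : ℕ):ℝ) + 1) = ((k - 1 : ℕ):ℝ≥0∞) + 1 := by
        rw [ENNReal.ofReal_add (by positivity) (by norm_num), ENNReal.ofReal_natCast,
          ENNReal.ofReal_one]
      rw [e1, e2, e3]
    have h1 : ∑ z ∈ T, ∫⁻ e : sphere (0 : E (d + 1)) 1, G z e
        ∂(volume : Measure (E (d + 1))).toSphere ≤ T.card * (((d:ℝ≥0∞) + 1) * (X * volume F)) := by
      rw [← nsmul_eq_mul, ← Finset.sum_const]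
      apply Finset.sum_le_sum
      intro z _
      refine (sphere_le_ball d (hGm z)).trans ?_
      gcongr
      exact hGint z
    have hx0 : (0:ℝ) ≤ (i:ℝ) := by positivity
    -- collect the constants
    have hreal : ((2:ℝ) ^ d) ^ (d + 1) * (C * δ ^ (-((l:ℝ) + 1 / k)) * (((d:ℝ) + 1) *
        (D.toReal * ((((i + 1 : ℕ):ℝ) + 1) ^ (d + 1) *
      ((J':ℝ) + ((i + 1 : ℕ):ℝ) + 1) ^ 2 * (((k - 1 : ℕ):ℝ) + 1))))) ≤
        C * (M0 + 1) * P * ((2:ℝ) ^ (i + 1)) ^ ((l:ℝ) + 1 / k + ε) := by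
      set x : ℝ := (i:ℝ) + 1 with hx
      have hx1 : 1 ≤ x := by rw [hx]; linarith
      have e1 : (((i + 1 : ℕ):ℝ) + 1) ≤ 2 * x := by push_cast; rw [hx]; linarith
      have e2 : ((J':ℝ) + ((i + 1 : ℕ):ℝ) + 1) ≤ ((J':ℝ) + 2) * x := by
        push_cast
        have : (0:ℝ) ≤ J' := by positivity
        rw [hx]; nlinarith
      have e3 : (((k - 1 : ℕ):ℝ) + 1) = k := by
        rw [Nat.cast_sub hk]; simp
      have e4 : δ ^ (-((l:ℝ) + 1 / k)) = ((2:ℝ) ^ (i + 1)) ^ ((l:ℝ) + 1 / k) := by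
        rw [hδ, Real.rpow_neg (by positivity), ← Real.inv_rpow (by positivity)]
        congr 1
        rw [one_div, inv_pow, inv_inv]
      have e5 := hpoly i
      rw [← hx] at e5
      have hD' : 0 ≤ D.toReal := ENNReal.toReal_nonneg
      have e6 : ((2:ℝ) ^ (i + 1)) ^ ((l:ℝ) + 1 / k + ε) =
          ((2:ℝ) ^ (i + 1)) ^ ((l:ℝ) + 1 / k) * ((2:ℝ) ^ (i + 1)) ^ ε :=
        Real.rpow_add (by positivity) _ _
      rw [e3, e4, e6]
      set Y : ℝ := ((2:ℝ) ^ (i + 1)) ^ ((l:ℝ) + 1 / k) with hY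
      have hY0 : 0 ≤ Y := by positivity
      calc ((2:ℝ) ^ d) ^ (d + 1) * (C * Y * (((d:ℝ) + 1) *
            (D.toReal * ((((i + 1 : ℕ):ℝ) + 1) ^ (d + 1) *
            ((J':ℝ) + ((i + 1 : ℕ):ℝ) + 1) ^ 2 * k))))
          ≤ ((2:ℝ) ^ d) ^ (d + 1) * (C * Y * (((d:ℝ) + 1) *
            (D.toReal * ((2 * x) ^ (d + 1) * (((J':ℝ) + 2) * x) ^ 2 * k)))) := by
            gcongr
        _ = C * M0 * Y * x ^ (d + 3) := by
            rw [hM0, mul_pow, mul_pow, ← pow_mul, pow_add x (d + 1) 2]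
            ring
        _ ≤ C * M0 * Y * (P * ((2:ℝ) ^ (i + 1)) ^ ε) := by gcongr
        _ ≤ C * (M0 + 1) * Y * (P * ((2:ℝ) ^ (i + 1)) ^ ε) := by
            have : M0 ≤ M0 + 1 := by linarith
            gcongr
        _ = C * (M0 + 1) * P * (Y * ((2:ℝ) ^ (i + 1)) ^ ε) := by ring
    calc (2 ^ d) ^ (d + 1) * ∑ z ∈ T, ∫⁻ e : sphere (0 : E (d + 1)) 1, G z e
        ∂(volume : Measure (E (d + 1))).toSphere
        ≤ (2 ^ d) ^ (d + 1) * (ENNReal.ofReal (C * δ ^ (-((l:ℝ) + 1 / k))) *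
          (((d:ℝ≥0∞) + 1) * (X * volume F))) := by
          gcongr
          refine h1.trans ?_
          gcongr
          rw [← ENNReal.ofReal_natCast]
          exact ENNReal.ofReal_le_ofReal hT1
      _ = ENNReal.ofReal (((2:ℝ) ^ d) ^ (d + 1) * (C * δ ^ (-((l:ℝ) + 1 / k)) * (((d:ℝ) + 1) *
        (D.toReal * ((((i + 1 : ℕ):ℝ) + 1) ^ (d + 1) *
      ((J':ℝ) + ((i + 1 : ℕ):ℝ) + 1) ^ 2 * (((k - 1 : ℕ):ℝ) + 1)))))) * volume F := by
          have hD' : 0 ≤ D.toReal := ENNReal.toReal_nonneg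
          rw [ENNReal.ofReal_mul (p := ((2:ℝ) ^ d) ^ (d + 1)) (by positivity),
            ENNReal.ofReal_mul (p := C * δ ^ (-((l:ℝ) + 1 / k))) (by positivity),
            ENNReal.ofReal_mul (p := ((d:ℝ) + 1)) (by positivity), ← hXr]
          have e1 : ENNReal.ofReal (((2:ℝ) ^ d) ^ (d + 1)) = (2 ^ d) ^ (d + 1) := by
            rw [ENNReal.ofReal_pow (by positivity), ENNReal.ofReal_pow (by positivity)]
            simp
          have e2 : ENNReal.ofReal ((d:ℝ) + 1) = (d:ℝ≥0∞) + 1 := by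
            rw [ENNReal.ofReal_add (by positivity) (by norm_num), ENNReal.ofReal_natCast,
              ENNReal.ofReal_one]
          rw [e1, e2]
          ring
      _ ≤ _ := by
          gcongr

/-- Kakeya sets whose lines meet the image of a compact set under a smooth map. -/
theorem dim_meet {d l k : ℕ} (hd : 2 ≤ d) (hk : 1 ≤ k) {U : ℕ → Set (E (l + 1))}
    (hU : ∀ j, IsOpen (U j)) {φ : ℕ → E (l + 1) → E (d + 1)}
    (hφ : ∀ j, ContDiffOn ℝ k (φ j) (U j)) {S : Set (sphere (0 : E (d + 1)) 1)}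
    (hS : (volume : Measure (E (d + 1))).toSphere S ≠ 0) {K : Set (E (d + 1))}
    (hK : ∀ e ∈ S, ∃ z ∈ ⋃ j, φ j '' U j, volume {t : ℝ | z + t • (e : E (d + 1)) ∈ K} ≠ 0) :
    ENNReal.ofReal ((d:ℝ) + 1 - (l + 1 / k)) ≤ dimH K := by
  classical
  have hex : ∀ j, ∃ Q : ℕ → Set (E (l + 1)), (∀ i, IsCompact (Q i) ∧ Q i ⊆ U j) ∧
      U j = ⋃ i, Q i := by
    intro j
    obtain ⟨Q, h1, h2, h3, _⟩ := (hU j).exists_iUnion_isClosed
    refine ⟨fun i => Q (Nat.unpair i).1 ∩ closedBall 0 (Nat.unpair i).2, fun i =>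
      ⟨(isCompact_closedBall _ _).inter_left (h1 _), inter_subset_left.trans (h2 _)⟩, ?_⟩
    apply Subset.antisymm
    · intro x hx
      rw [← h3] at hx
      obtain ⟨i, hi⟩ := mem_iUnion.1 hx
      obtain ⟨N, hN⟩ := exists_nat_ge ‖x‖
      refine mem_iUnion.2 ⟨Nat.pair i N, ?_⟩
      simp only [Nat.unpair_pair, mem_inter_iff, mem_closedBall, dist_zero_right]
      exact ⟨hi, hN⟩
    · exact iUnion_subset (fun i => inter_subset_left.trans (h2 _))
  choose Q hQ hQU using hex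
  have hz : ∀ e : sphere (0 : E (d + 1)) 1, ∃ z : E (d + 1), e ∈ S →
      z ∈ (⋃ j, φ j '' U j) ∧ volume {t : ℝ | z + t • (e : E (d + 1)) ∈ K} ≠ 0 := by
    intro e
    by_cases he : e ∈ S
    · obtain ⟨z, h1, h2⟩ := hK e he
      exact ⟨z, fun _ => ⟨h1, h2⟩⟩
    · exact ⟨0, fun h => absurd h he⟩
  choose a ha using hz
  set S' : ℕ × ℕ → Set (sphere (0 : E (d + 1)) 1) := fun q =>
    {e | e ∈ S ∧ a e ∈ φ q.1 '' Q q.1 q.2} with hS'
  have hcov : S ⊆ ⋃ q, S' q := by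
    intro e he
    obtain ⟨j, hj⟩ := mem_iUnion.1 (ha e he).1
    rw [hQU j, image_iUnion] at hj
    obtain ⟨i, hi⟩ := mem_iUnion.1 hj
    exact mem_iUnion.2 ⟨(j, i), he, hi⟩
  have hex : ∃ q, (volume : Measure (E (d + 1))).toSphere (S' q) ≠ 0 := by
    by_contra hcon
    push Not at hcon
    exact hS (measure_mono_null hcov (measure_iUnion_null hcon))
  obtain ⟨q, hq⟩ := hex
  have h1 := maxHyp hd hk (hU q.1) (hφ q.1) (hQ q.1 q.2).1 (hQ q.1 q.2).2
    (S := S' q) (a := a) (fun e he => he.2)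
  exact Tr.dim_ge hq h1 (fun e he => (ha e he.1).2)

end Pool.Agent.Y245.PC
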