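import Mathlib

set_option autoImplicit false

/-!
# Volumes of intersections of neighbourhoods of planes
-/

open MeasureTheory Set Filter Topology ENNReal NNReal Metric

namespace Pool.Agent.Y245.Pl

/-- Euclidean space. -/
abbrev E (n : ℕ) : Type := EuclideanSpace ℝ (Fin n)

/-- Volume of a set which is bounded in some orthonormal directions. -/
theorem vol_box {p q : ℕ} {u : Fin p → E (p + q)} (hu : Orthonormal ℝ u) (c : Fin p → ℝ)
    (R : ℝ) (x₀ : E (p + q)) :
    volume {x : E (p + q) | ‖x - x₀‖ ≤ R ∧ ∀ i, |inner ℝ (x - x₀) (u i)| ≤ c i} ≤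
      ENNReal.ofReal ((∏ i, max (2 * c i) 0) * (max (2 * R) 0) ^ q) := by
  classical
  set v : Fin (p + q) → E (p + q) := Fin.append u (fun _ => 0) with hv
  set s : Set (Fin (p + q)) := range (Fin.castAdd q) with hs
  have hon : Orthonormal ℝ (s.domRestrict v) := by
    rw [orthonormal_iff_ite] at hu ⊢
    rintro ⟨i, i', rfl⟩ ⟨j, j', rfl⟩
    have h1 := hu i' j'
    simp only [Set.domRestrict_apply, hv, Fin.append_left]
    rw [h1]
    simp [Subtype.ext_iff, Fin.castAdd_inj]
  obtain ⟨b, hb⟩ := hon.exists_orthonormalBasis_extension_of_card_eq (by simp)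
  have hb1 : ∀ i : Fin p, b (Fin.castAdd q i) = u i := by
    intro i
    rw [hb _ (mem_range_self i), hv, Fin.append_left]
  set c' : Fin (p + q) → ℝ := Fin.append c (fun _ => R) with hc'
  set B : Set (Fin (p + q) → ℝ) := Set.pi univ (fun i => Icc (-(c' i)) (c' i)) with hB
  have hBm : MeasurableSet B := MeasurableSet.univ_pi (fun i => measurableSet_Icc)
  have hvolB : volume B = ENNReal.ofReal ((∏ i, max (2 * c i) 0) * (max (2 * R) 0) ^ q) := by
    rw [hB, volume_pi_pi]
    simp only [Real.volume_Icc]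
    rw [Fin.prod_univ_add]
    simp only [hc', Fin.append_left, Fin.append_right]
    have e : ∀ x : ℝ, ENNReal.ofReal (x - -x) = ENNReal.ofReal (max (2 * x) 0) := by
      intro x
      rw [show x - -x = 2 * x by ring]
      rcases le_total (2 * x) 0 with h | h
      · rw [max_eq_right h, ENNReal.ofReal_of_nonpos h, ENNReal.ofReal_zero]
      · rw [max_eq_left h]
    simp only [e]
    rw [Finset.prod_const, Finset.card_univ, Fintype.card_fin,
      ← ENNReal.ofReal_prod_of_nonneg (fun i _ => le_max_right _ _),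
      ← ENNReal.ofReal_pow (le_max_right _ _), ← ENNReal.ofReal_mul]
    exact Finset.prod_nonneg (fun i _ => le_max_right _ _)
  have hmp : MeasurePreserving (fun y : E (p + q) => (b.repr (y - x₀)).ofLp) volume volume := by
    have h1 : MeasurePreserving (fun y : E (p + q) => y - x₀) volume volume :=
      measurePreserving_sub_right volume x₀
    have h2 := b.measurePreserving_repr
    have h3 := PiLp.volume_preserving_ofLp (Fin (p + q))
    exact h3.comp (h2.comp h1)
  rw [← hvolB, ← hmp.measure_preimage hBm.nullMeasurableSet]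
  apply measure_mono
  rintro y ⟨h1, h2⟩
  simp only [mem_preimage, hB, mem_univ_pi, mem_Icc]
  intro i
  rw [← abs_le]
  refine Fin.addCases (fun j => ?_) (fun j => ?_) i
  · have h3 : b.repr (y - x₀) (Fin.castAdd q j) = inner ℝ (y - x₀) (u j) := by
      rw [b.repr_apply_apply, hb1, real_inner_comm]
    rw [h3]
    simpa [hc'] using h2 j
  · rw [b.repr_apply_apply]
    refine (abs_real_inner_le_norm _ _).trans ?_
    rw [b.norm_eq_one, one_mul]
    simpa [hc'] using h1

/-- The neighbourhood of a plane through `x₀` with normal space `N`. -/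
def plate {n : ℕ} (N : Submodule ℝ (E n)) (x₀ : E n) (r R : ℝ) : Set (E n) :=
  {x | ‖x - x₀‖ ≤ R ∧ ∀ ν ∈ N, |inner ℝ (x - x₀) ν| ≤ r * ‖ν‖}

theorem vol_plate {m q : ℕ} {N : Submodule ℝ (E (m + q))} (hN : Module.finrank ℝ N = m)
    (x₀ : E (m + q)) {r R : ℝ} (hr : 0 ≤ r) (hR : 0 ≤ R) :
    volume (plate N x₀ r R) ≤ ENNReal.ofReal ((2 * r) ^ m * (2 * R) ^ q) := by
  obtain ⟨b⟩ : Nonempty (OrthonormalBasis (Fin m) ℝ N) :=
    ⟨(stdOrthonormalBasis ℝ N).reindex (finCongr hN)⟩
  set u : Fin m → E (m + q) := fun i => (b i : E (m + q)) with hu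
  have hon : Orthonormal ℝ u := b.orthonormal.comp_linearIsometry N.subtypeₗᵢ
  refine le_trans (measure_mono ?_) ((vol_box hon (fun _ => r) R x₀).trans (le_of_eq ?_))
  · rintro x ⟨h1, h2⟩
    refine ⟨h1, fun i => ?_⟩
    have h3 := h2 (u i) (b i).2
    rwa [hon.1 i, mul_one] at h3
  · rw [max_eq_left (by positivity), max_eq_left (by positivity)]
    simp

/-- Unit normal vectors of `N` that are close to `N'`. -/
def Close {n : ℕ} (N N' : Submodule ℝ (E n)) (κ : ℝ) : Prop :=
  ∃ ν ∈ N, ∃ ν' ∈ N', ‖ν‖ = 1 ∧ ‖ν - ν'‖ ≤ κ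

theorem vol_inter {m q : ℕ} {N N' : Submodule ℝ (E (m + m + q))}
    (hN : Module.finrank ℝ N = m) (hN' : Module.finrank ℝ N' = m)
    (x₀ : E (m + m + q)) {r R κ : ℝ} (hr : 0 ≤ r) (hR : 0 ≤ R) (hκ : 0 < κ)
    (hcl : ¬ Close N N' κ) :
    volume (plate N x₀ r R ∩ plate N' x₀ r R) ≤
      ENNReal.ofReal ((2 * r) ^ m * (4 * r / κ) ^ m * (2 * R) ^ q) := by
  have hcl' : ∀ ν ∈ N, ‖ν‖ = 1 → ∀ ν' ∈ N', κ < ‖ν - ν'‖ := by
    intro ν hν h1 ν' hν'
    by_contra h
    push Not at h
    exact hcl ⟨ν, hν, ν', hν', h1, h⟩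
  -- the projection of a normal vector to the complement of `N'`
  set P : E (m + m + q) →L[ℝ] E (m + m + q) := N'.starProjection with hP
  have hPmem : ∀ x, P x ∈ N' := fun x => by
    rw [hP]; exact Submodule.starProjection_apply_mem _ _
  have hlow : ∀ ν ∈ N, κ * ‖ν‖ ≤ ‖ν - P ν‖ := by
    intro ν hν
    rcases eq_or_ne ν 0 with rfl | h0
    · simp
    have hn : 0 < ‖ν‖ := norm_pos_iff.2 h0
    have h1 := hcl' (‖ν‖⁻¹ • ν) (N.smul_mem _ hν) (by
      rw [norm_smul, norm_inv, norm_norm, inv_mul_cancel₀ hn.ne'])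
      (‖ν‖⁻¹ • P ν) (N'.smul_mem _ (hPmem ν))
    rw [← smul_sub, norm_smul, norm_inv, norm_norm, inv_mul_eq_div, lt_div_iff₀ hn] at h1
    exact h1.le
  set L : E (m + m + q) →ₗ[ℝ] E (m + m + q) :=
    LinearMap.id - (P : E (m + m + q) →ₗ[ℝ] E (m + m + q)) with hL
  have hLx : ∀ x, L x = x - P x := fun x => by simp [hL]
  set M : Submodule ℝ (E (m + m + q)) := N.map L with hM
  have hinj : Function.Injective (L.domRestrict N) := by
    rw [injective_iff_map_eq_zero]
    rintro ⟨ν, hν⟩ h
    have h1 : ν - P ν = 0 := by rw [← hLx]; exact h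
    have h2 := hlow ν hν
    rw [h1, norm_zero] at h2
    have h3 : ‖ν‖ ≤ 0 := by
      by_contra h4
      push Not at h4
      nlinarith
    exact Subtype.ext (norm_le_zero_iff.1 h3)
  have hMdim : Module.finrank ℝ M = m := by
    have h1 : M = LinearMap.range (L.domRestrict N) := by
      rw [hM, LinearMap.range_domRestrict]
    rw [h1, LinearMap.finrank_range_of_inj hinj, hN]
  obtain ⟨b'⟩ : Nonempty (OrthonormalBasis (Fin m) ℝ N') :=
    ⟨(stdOrthonormalBasis ℝ N').reindex (finCongr hN')⟩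
  obtain ⟨b⟩ : Nonempty (OrthonormalBasis (Fin m) ℝ M) :=
    ⟨(stdOrthonormalBasis ℝ M).reindex (finCongr hMdim)⟩
  set u' : Fin m → E (m + m + q) := fun i => (b' i : E (m + m + q)) with hu'
  set u : Fin m → E (m + m + q) := fun i => (b i : E (m + m + q)) with hu
  have hon' : Orthonormal ℝ u' := b'.orthonormal.comp_linearIsometry N'.subtypeₗᵢ
  have hon : Orthonormal ℝ u := b.orthonormal.comp_linearIsometry M.subtypeₗᵢ
  have hperp : ∀ x ∈ M, ∀ y ∈ N', (inner ℝ x y : ℝ) = 0 := by
    rintro x ⟨ν, hν, rfl⟩ y hy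
    rw [hLx]
    have h1 : ν - P ν ∈ N'ᗮ := by
      rw [hP]; exact Submodule.sub_starProjection_mem_orthogonal _
    exact (Submodule.mem_orthogonal' _ _).1 h1 y hy
  have honw : Orthonormal ℝ (Fin.append u' u) := by
    rw [orthonormal_iff_ite] at hon hon' ⊢
    intro i j
    refine Fin.addCases (fun i' => ?_) (fun i' => ?_) i <;>
      refine Fin.addCases (fun j' => ?_) (fun j' => ?_) j
    · rw [Fin.append_left, Fin.append_left, hon' i' j']
      simp [Fin.castAdd_inj]
    · rw [Fin.append_left, Fin.append_right, real_inner_comm, hperp _ (b j').2 _ (b' i').2]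
      rw [if_neg]
      intro h
      have := congrArg Fin.val h
      simp at this
      omega
    · rw [Fin.append_left, Fin.append_right, hperp _ (b i').2 _ (b' j').2]
      rw [if_neg]
      intro h
      have := congrArg Fin.val h
      simp at this
      omega
    · rw [Fin.append_right, Fin.append_right, hon i' j']
      simp [Fin.natAdd_inj]
  refine le_trans (measure_mono ?_)
    ((vol_box honw (Fin.append (fun _ => r) (fun _ => 2 * r / κ)) R x₀).trans (le_of_eq ?_))
  · rintro x ⟨⟨h1, h2⟩, ⟨_, h3⟩⟩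
    refine ⟨h1, fun i => ?_⟩
    refine Fin.addCases (fun i' => ?_) (fun i' => ?_) i
    · rw [Fin.append_left, Fin.append_left]
      have h4 := h3 (u' i') (b' i').2
      rwa [hon'.1 i', mul_one] at h4
    · rw [Fin.append_right, Fin.append_right]
      obtain ⟨ν, hν, hνu⟩ := (b i').2
      have h5 : ν - P ν = u i' := by rw [← hLx]; exact hνu
      rw [← h5, inner_sub_right]
      have h6 := h2 ν hν
      have h7 := h3 (P ν) (hPmem ν)
      have h8 : ‖P ν‖ ≤ ‖ν‖ := by rw [hP]; exact Submodule.norm_starProjection_apply_le _ _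
      have h9 : ‖ν‖ ≤ 1 / κ := by
        rw [le_div_iff₀ hκ, mul_comm]
        have := hlow ν hν
        rw [h5, hon.1 i'] at this
        exact this
      calc |inner ℝ (x - x₀) ν - inner ℝ (x - x₀) (P ν)|
          ≤ |inner ℝ (x - x₀) ν| + |inner ℝ (x - x₀) (P ν)| := abs_sub _ _
        _ ≤ r * ‖ν‖ + r * ‖P ν‖ := add_le_add h6 h7
        _ ≤ r * (1 / κ) + r * (1 / κ) := by
            have := h8.trans h9
            gcongr
        _ = 2 * r / κ := by ring
  · rw [Fin.prod_univ_add]
    simp only [Fin.append_left, Fin.append_right, Finset.prod_const, Finset.card_univ,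
      Fintype.card_fin]
    rw [max_eq_left (by positivity), max_eq_left (by positivity), max_eq_left (by positivity)]
    congr 3
    ring

end Pool.Agent.Y245.Pl
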