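import Pool.Agent.Y245.PlVol
import Pool.Agent.Y245.Content
import Pool.Agent.Y245.L2
import Pool.Agent.Y245.Cover

set_option autoImplicit false

/-!
# Sets containing large parts of the planes of a transversal family
-/

open MeasureTheory Set Filter Topology ENNReal NNReal Metric

namespace Pool.Agent.Y245.Pl

theorem weights : ∃ c₀ : ℝ, 0 < c₀ ∧ ∑' j : ℕ, ENNReal.ofReal (c₀ / ((j : ℝ) + 1) ^ 2) < 1 := by
  have hs : Summable (fun j : ℕ => 1 / ((j : ℝ) + 1) ^ 2) := by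
    have := (_root_.summable_nat_add_iff 1).2 (Real.summable_one_div_nat_pow.2 (by norm_num : 1 < 2))
    simpa using this
  set T := ∑' j : ℕ, 1 / ((j : ℝ) + 1) ^ 2 with hT
  have hT0 : 0 ≤ T := tsum_nonneg (fun j => by positivity)
  refine ⟨1 / (2 * (T + 1)), by positivity, ?_⟩
  have hs2 : Summable (fun j : ℕ => 1 / (2 * (T + 1)) / ((j : ℝ) + 1) ^ 2) := by
    have := hs.mul_left (1 / (2 * (T + 1)))
    refine this.congr (fun j => ?_)
    ring
  rw [← ENNReal.ofReal_tsum_of_nonneg (fun j => by positivity) hs2]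
  have h1 : ∑' j : ℕ, 1 / (2 * (T + 1)) / ((j : ℝ) + 1) ^ 2 = 1 / (2 * (T + 1)) * T := by
    rw [hT, ← _root_.tsum_mul_left]
    apply tsum_congr
    intro j
    ring
  rw [h1, ← ENNReal.ofReal_one]
  refine (ENNReal.ofReal_lt_ofReal_iff one_pos).2 ?_
  rw [one_div_mul_eq_div, div_lt_one (by positivity)]
  linarith

theorem poly_le_exp (q : ℕ) {ε : ℝ} (hε : 0 < ε) : ∃ A : ℝ, 0 < A ∧ ∀ i : ℕ,
    ((i:ℝ) + 1) ^ q ≤ A * ((2:ℝ) ^ (i + 1)) ^ ε := by
  have hl2 : 0 < Real.log 2 := Real.log_pos (by norm_num)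
  set t : ℝ := ε * Real.log 2 / (q + 1) with ht
  have ht0 : 0 < t := by positivity
  refine ⟨(1 / t) ^ q, by positivity, fun i => ?_⟩
  set x : ℝ := (i : ℝ) + 1 with hx
  have hx0 : 0 < x := by positivity
  have hDx : (2:ℝ) ^ (i + 1) = Real.exp (x * Real.log 2) := by
    rw [← Real.rpow_natCast, Real.rpow_def_of_pos (by norm_num)]
    congr 1
    push_cast
    rw [hx]; ring
  have h2 : x ≤ (1 / t) * Real.exp (t * x) := by
    rw [one_div_mul_eq_div, le_div_iff₀ ht0]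
    have := Real.add_one_le_exp (t * x)
    linarith
  calc x ^ q ≤ ((1 / t) * Real.exp (t * x)) ^ q := by gcongr
    _ = (1 / t) ^ q * Real.exp (t * x * q) := by
      rw [mul_pow, ← Real.exp_nat_mul]
      congr 2
      ring
    _ ≤ (1 / t) ^ q * ((2:ℝ) ^ (i + 1)) ^ ε := by
      gcongr
      rw [hDx, ← Real.exp_mul]
      apply Real.exp_le_exp.2
      have h3 : t * q ≤ ε * Real.log 2 := by
        rw [ht, div_mul_eq_mul_div, div_le_iff₀ (by positivity)]
        have : 0 ≤ ε * Real.log 2 := by positivity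
        nlinarith
      nlinarith

/-- The plane through `x₀` with normal space `N`. -/
def pln {n : ℕ} (N : Submodule ℝ (E n)) (x₀ : E n) : Set (E n) :=
  {y | ∀ ν ∈ N, (inner ℝ (y - x₀) ν : ℝ) = 0}

theorem Close.mono {n : ℕ} {N N' : Submodule ℝ (E n)} {κ κ' : ℝ} (h : Close N N' κ)
    (hκ : κ ≤ κ') : Close N N' κ' := by
  obtain ⟨ν, h1, ν', h2, h3, h4⟩ := h
  exact ⟨ν, h1, ν', h2, h3, h4.trans hκ⟩

theorem close_one {n m : ℕ} (hm : 1 ≤ m) {N N' : Submodule ℝ (E n)}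
    (hN : Module.finrank ℝ N = m) : Close N N' 1 := by
  have h1 : 0 < Module.finrank ℝ N := by omega
  have h2 : Nontrivial N := Module.nontrivial_of_finrank_pos h1
  obtain ⟨ν, hν⟩ := exists_ne (0 : N)
  have h3 : (ν : E n) ≠ 0 := by simpa using hν
  have h4 : ‖(ν : E n)‖ ≠ 0 := norm_ne_zero_iff.2 h3
  refine ⟨‖(ν : E n)‖⁻¹ • (ν : E n), N.smul_mem _ ν.2, 0, N'.zero_mem, ?_, ?_⟩
  · rw [norm_smul, norm_inv, norm_norm, inv_mul_cancel₀ h4]
  · rw [sub_zero, norm_smul, norm_inv, norm_norm, inv_mul_cancel₀ h4]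

/-- The union of the small balls around the points of `Y`. -/
def blob {n : ℕ} (Y : Finset (E n)) (δ : ℝ) : Set (E n) := ⋃ y ∈ Y, ball y (δ / 2)

theorem measurable_blob {n : ℕ} (Y : Finset (E n)) (δ : ℝ) : MeasurableSet (blob Y δ) := by
  unfold blob
  exact Finset.measurableSet_biUnion _ (fun _ _ => measurableSet_ball)

theorem vol_blob {n : ℕ} {Y : Finset (E n)} {δ : ℝ} (hδ : 0 < δ)
    (hY : ∀ x ∈ Y, ∀ y ∈ Y, x ≠ y → δ < dist x y) :
    volume (blob Y δ) = Y.card * (ENNReal.ofReal ((δ / 2) ^ n) * volume (ball (0 : E n) 1)) := by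
  unfold blob
  rw [measure_biUnion_finset]
  · have h1 : ∀ y ∈ Y, volume (ball y (δ / 2)) =
        ENNReal.ofReal ((δ / 2) ^ n) * volume (ball (0 : E n) 1) := by
      intro y _
      rw [Measure.addHaar_ball_of_pos _ _ (by positivity), finrank_euclideanSpace_fin]
    rw [Finset.sum_congr rfl h1]
    simp
  · intro x hx y hy hxy
    apply ball_disjoint_ball
    have := hY x hx y hy hxy
    linarith
  · exact fun _ _ => measurableSet_ball

/-- The interaction of two planes. -/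
noncomputable def hh {n : ℕ} (m A : ℕ) (δ : ℝ) (N N' : Submodule ℝ (E n)) : ℝ≥0∞ := by
  classical
  exact ∑ a ∈ Finset.range (A + 1), if Close N N' (2 ^ (a + 1) * δ) then
    ENNReal.ofReal (((2:ℝ) ^ (a * m))⁻¹) else 0

theorem blob_inter {m q : ℕ} (hm : 1 ≤ m) {N N' : Submodule ℝ (E (m + m + q))}
    (hN : Module.finrank ℝ N = m) (hN' : Module.finrank ℝ N' = m) {x₀ x₀' : E (m + m + q)}
    {Y Y' : Finset (E (m + m + q))} {δ R : ℝ} (hδ : 0 < δ) (hδ1 : δ ≤ 1) (hR : 0 ≤ R)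
    (hY : ∀ y ∈ Y, y ∈ pln N x₀ ∧ ‖y‖ ≤ R) (hY' : ∀ y ∈ Y', y ∈ pln N' x₀' ∧ ‖y‖ ≤ R)
    {A : ℕ} (hA : 1 ≤ 2 ^ A * δ) :
    volume (blob Y δ ∩ blob Y' δ) ≤
      ENNReal.ofReal ((2 * δ) ^ m * (4 ^ m * (4 * (R + 1)) ^ (m + q))) * hh m A δ N N' := by
  classical
  rcases (blob Y δ ∩ blob Y' δ).eq_empty_or_nonempty with h0 | ⟨z, hz⟩
  · rw [h0]; simp
  -- control of the normal components
  have hcomp : ∀ {N : Submodule ℝ (E (m + m + q))} {x₀ : E (m + m + q)}
      {Y : Finset (E (m + m + q))}, (∀ y ∈ Y, y ∈ pln N x₀ ∧ ‖y‖ ≤ R) → ∀ x ∈ blob Y δ,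
      ‖x‖ ≤ R + 1 ∧ ∀ ν ∈ N, |(inner ℝ (x - x₀) ν : ℝ)| ≤ δ / 2 * ‖ν‖ := by
    intro N x₀ Y hY x hx
    simp only [blob, mem_iUnion, mem_ball, dist_eq_norm] at hx
    obtain ⟨y, hy, hxy⟩ := hx
    obtain ⟨h1, h2⟩ := hY y hy
    refine ⟨?_, fun ν hν => ?_⟩
    · calc ‖x‖ = ‖(x - y) + y‖ := by congr 1; abel
        _ ≤ ‖x - y‖ + ‖y‖ := norm_add_le _ _
        _ ≤ R + 1 := by linarith
    · have h3 : (inner ℝ (x - x₀) ν : ℝ) = inner ℝ (x - y) ν := by
        rw [← sub_add_sub_cancel x y x₀, inner_add_left, h1 ν hν, add_zero]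
      rw [h3]
      refine (abs_real_inner_le_norm _ _).trans ?_
      gcongr
  have hpl : ∀ {N : Submodule ℝ (E (m + m + q))} {x₀ : E (m + m + q)}
      {Y : Finset (E (m + m + q))}, (∀ y ∈ Y, y ∈ pln N x₀ ∧ ‖y‖ ≤ R) → z ∈ blob Y δ →
      blob Y δ ⊆ plate N z δ (2 * (R + 1)) := by
    intro N x₀ Y hY hz x hx
    obtain ⟨h1, h2⟩ := hcomp hY x hx
    obtain ⟨h3, h4⟩ := hcomp hY z hz
    refine ⟨?_, fun ν hν => ?_⟩
    · calc ‖x - z‖ ≤ ‖x‖ + ‖z‖ := norm_sub_le _ _
        _ ≤ 2 * (R + 1) := by linarith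
    · have h5 : (inner ℝ (x - z) ν : ℝ) = inner ℝ (x - x₀) ν - inner ℝ (z - x₀) ν := by
        rw [← inner_sub_left]
        congr 1
        abel
      rw [h5]
      calc |(inner ℝ (x - x₀) ν : ℝ) - inner ℝ (z - x₀) ν|
          ≤ |(inner ℝ (x - x₀) ν : ℝ)| + |(inner ℝ (z - x₀) ν : ℝ)| := abs_sub _ _
        _ ≤ δ / 2 * ‖ν‖ + δ / 2 * ‖ν‖ := add_le_add (h2 ν hν) (h4 ν hν)
        _ = δ * ‖ν‖ := by ring
  have hR0 : (0:ℝ) ≤ 2 * (R + 1) := by linarith
  have hR1 : (1:ℝ) ≤ 4 * (R + 1) := by linarith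
  -- the first scale at which the planes are close
  have hex : ∃ a, a ∈ Finset.range (A + 1) ∧ Close N N' (2 ^ (a + 1) * δ) := by
    refine ⟨A, by simp, (close_one hm hN).mono ?_⟩
    rw [pow_succ]
    nlinarith
  set a := Nat.find hex with ha
  obtain ⟨ha1, ha2⟩ := Nat.find_spec hex
  have hlow : ENNReal.ofReal (((2:ℝ) ^ (a * m))⁻¹) ≤ hh m A δ N N' := by
    unfold hh
    have h1 := Finset.single_le_sum (f := fun a => if Close N N' (2 ^ (a + 1) * δ) then
      ENNReal.ofReal (((2:ℝ) ^ (a * m))⁻¹) else 0) (fun _ _ => zero_le) ha1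
    refine le_trans ?_ h1
    simp only [← ha] at ha2 ⊢
    rw [if_pos ha2]
  refine le_trans ?_ (mul_le_mul_right hlow _)
  rw [← ENNReal.ofReal_mul (by positivity)]
  rcases Nat.eq_zero_or_pos a with ha0 | ha0
  · rw [ha0]
    have hfin : Module.finrank ℝ (E (m + m + q)) = m + (m + q) := by simp; ring
    have h1 : volume (blob Y δ ∩ blob Y' δ) ≤ volume (plate N z δ (2 * (R + 1))) :=
      measure_mono (inter_subset_left.trans (hpl hY hz.1))
    refine h1.trans ?_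
    have hcast : ∀ (p : ℕ) (hp : m + m + q = p) (N : Submodule ℝ (E p)) (z : E p),
        Module.finrank ℝ N = m → volume (plate N z δ (2 * (R + 1))) ≤
          ENNReal.ofReal ((2 * δ) ^ m * (2 * (2 * (R + 1))) ^ (m + q)) := by
      intro p hp N z hN
      have hp' : p = m + (m + q) := by omega
      subst hp'
      exact vol_plate hN z hδ.le hR0
    refine (hcast _ rfl N z hN).trans (ENNReal.ofReal_le_ofReal ?_)
    rw [zero_mul, pow_zero, inv_one, mul_one]
    have h4 : (1:ℝ) ≤ 4 ^ m := one_le_pow₀ (by norm_num)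
    have h5 : (0:ℝ) ≤ (4 * (R + 1)) ^ (m + q) := by positivity
    have h6 : 2 * (2 * (R + 1)) = 4 * (R + 1) := by ring
    rw [h6]
    gcongr
    nlinarith
  · have hnc : ¬ Close N N' (2 ^ a * δ) := by
      intro h
      have h1 := Nat.find_min hex (m := a - 1) (by omega)
      apply h1
      refine ⟨?_, ?_⟩
      · rw [Finset.mem_range] at ha1 ⊢
        omega
      · have h2 : a - 1 + 1 = a := by omega
        rw [h2]
        exact h
    have h1 : volume (blob Y δ ∩ blob Y' δ) ≤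
        volume (plate N z δ (2 * (R + 1)) ∩ plate N' z δ (2 * (R + 1))) :=
      measure_mono (inter_subset_inter (hpl hY hz.1) (hpl hY' hz.2))
    refine h1.trans ((vol_inter hN hN' z hδ.le hR0 (κ := 2 ^ a * δ) (by positivity) hnc).trans ?_)
    apply ENNReal.ofReal_le_ofReal
    have h2 : 4 * δ / (2 ^ a * δ) = 4 * (2 ^ a)⁻¹ := by
      field_simp
    have h3 : 2 * (2 * (R + 1)) = 4 * (R + 1) := by ring
    rw [h2, h3, mul_pow 4, inv_pow, ← pow_mul]
    have h4 : (4 * (R + 1)) ^ q ≤ (4 * (R + 1)) ^ (m + q) := pow_le_pow_right₀ hR1 (by omega)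
    calc (2 * δ) ^ m * (4 ^ m * (2 ^ (a * m))⁻¹) * (4 * (R + 1)) ^ q
        ≤ (2 * δ) ^ m * (4 ^ m * (2 ^ (a * m))⁻¹) * (4 * (R + 1)) ^ (m + q) := by gcongr
      _ = _ := by ring

/-- The average interaction. -/
theorem hh_bound {n m : ℕ} {Ω : Type*} [MeasurableSpace Ω] (μ : Measure Ω)
    {N : Ω → Submodule ℝ (E n)} {C β : ℝ} (hC : 0 < C) (hβ : β ≤ m)
    (hsp : ∀ s, ∀ r : ℝ, 0 < r → μ {s' | Close (N s) (N s') r} ≤ ENNReal.ofReal (C * r ^ β))
    {δ : ℝ} (hδ : 0 < δ) (A : ℕ) (s : Ω) :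
    ∃ g : Ω → ℝ≥0∞, Measurable g ∧ (∀ s', hh m A δ (N s) (N s') ≤ g s') ∧
      ∫⁻ x, g x ∂μ ≤ ENNReal.ofReal (C * 2 ^ β * δ ^ β * ((A:ℝ) + 1)) := by
  classical
  set T : ℕ → Set Ω := fun a => toMeasurable μ {s' | Close (N s) (N s') (2 ^ (a + 1) * δ)} with hT
  have hTm : ∀ a, MeasurableSet (T a) := fun a => measurableSet_toMeasurable _ _
  refine ⟨fun x => ∑ a ∈ Finset.range (A + 1),
    ENNReal.ofReal (((2:ℝ) ^ (a * m))⁻¹) * (T a).indicator 1 x, ?_, ?_, ?_⟩
  · exact Finset.measurable_sum _ (fun a _ => (measurable_one.indicator (hTm a)).const_mul _)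
  · intro s'
    unfold hh
    apply Finset.sum_le_sum
    intro a _
    split_ifs with h
    · have h1 : s' ∈ T a := subset_toMeasurable _ _ h
      rw [indicator_of_mem h1]
      simp
    · exact zero_le
  · rw [lintegral_finsetSum _ (fun a _ => (measurable_one.indicator (hTm a)).const_mul _)]
    calc ∑ a ∈ Finset.range (A + 1), ∫⁻ x, ENNReal.ofReal (((2:ℝ) ^ (a * m))⁻¹) *
          (T a).indicator 1 x ∂μ
        ≤ ∑ _a ∈ Finset.range (A + 1), ENNReal.ofReal (C * 2 ^ β * δ ^ β) := by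
          apply Finset.sum_le_sum
          intro a _
          rw [lintegral_const_mul' _ _ ENNReal.ofReal_ne_top, lintegral_indicator_one (hTm a),
            hT, measure_toMeasurable]
          calc _ ≤ ENNReal.ofReal (((2:ℝ) ^ (a * m))⁻¹) *
                ENNReal.ofReal (C * (2 ^ (a + 1) * δ) ^ β) := by
                gcongr
                exact hsp s _ (by positivity)
            _ = ENNReal.ofReal (((2:ℝ) ^ (a * m))⁻¹ * (C * (2 ^ (a + 1) * δ) ^ β)) :=
                (ENNReal.ofReal_mul (by positivity)).symm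
            _ ≤ _ := by
                apply ENNReal.ofReal_le_ofReal
                rw [Real.mul_rpow (by positivity) hδ.le, pow_succ,
                  Real.mul_rpow (by positivity) (by norm_num)]
                have h1 : ((2:ℝ) ^ a) ^ β ≤ 2 ^ (a * m) := by
                  calc ((2:ℝ) ^ a) ^ β ≤ ((2:ℝ) ^ a) ^ (m:ℝ) :=
                        Real.rpow_le_rpow_of_exponent_le (one_le_pow₀ (by norm_num)) hβ
                    _ = 2 ^ (a * m) := by rw [Real.rpow_natCast, ← pow_mul]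
                have h2 : ((2:ℝ) ^ (a * m))⁻¹ * ((2:ℝ) ^ a) ^ β ≤ 1 := by
                  rw [inv_mul_le_iff₀ (by positivity), mul_one]
                  exact h1
                calc ((2:ℝ) ^ (a * m))⁻¹ * (C * (((2:ℝ) ^ a) ^ β * 2 ^ β * δ ^ β))
                    = (((2:ℝ) ^ (a * m))⁻¹ * ((2:ℝ) ^ a) ^ β) * (C * 2 ^ β * δ ^ β) := by ring
                  _ ≤ 1 * (C * 2 ^ β * δ ^ β) := by gcongr
                  _ = _ := one_mul _
      _ = _ := by
          rw [Finset.sum_const, Finset.card_range, nsmul_eq_mul, ← ENNReal.ofReal_natCast,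
            ← ENNReal.ofReal_mul (by positivity)]
          congr 1
          push_cast
          ring

end Pool.Agent.Y245.Pl
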