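import Pool.Agent.Y245.Planes

set_option autoImplicit false

/-!
# The dimension of sets containing large parts of the planes of a transversal family
-/

open MeasureTheory Set Filter Topology ENNReal NNReal Metric

namespace Pool.Agent.Y245.Pl

/-- The part of the argument at one scale. -/
theorem one_scale {m q : ℕ} (hm : 1 ≤ m) {Ω : Type*} [MeasurableSpace Ω] (μ : Measure Ω)
    {N : Ω → Submodule ℝ (E (m + m + q))} (hN : ∀ s, Module.finrank ℝ (N s) = m)
    (x : Ω → E (m + m + q)) {C β : ℝ} (hC : 0 < C) (hβ : β ≤ m)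
    (hsp : ∀ s, ∀ r : ℝ, 0 < r → μ {s' | Close (N s) (N s') r} ≤ ENNReal.ofReal (C * r ^ β))
    {S : Set Ω} (hS : μ S ≠ 0) (hSt : μ S ≠ ∞) {δ R a₀ : ℝ} (hδ : 0 < δ) (hδ1 : δ ≤ 1)
    (hR : 0 ≤ R) (ha₀ : 0 < a₀) {A : ℕ} (hA : 1 ≤ 2 ^ A * δ) {F : Set (E (m + m + q))}
    (hY : ∀ s ∈ S, ∃ Y : Finset (E (m + m + q)), (∀ y ∈ Y, y ∈ pln (N s) (x s) ∧ ‖y‖ ≤ R) ∧
      (∀ y ∈ Y, ∀ z ∈ Y, y ≠ z → δ < dist y z) ∧ a₀ ≤ Y.card ∧ blob Y δ ⊆ F) :
    ENNReal.ofReal (a₀ * (δ / 2) ^ (m + m + q)) ^ 2 * volume (ball (0 : E (m + m + q)) 1) ^ 2 ≤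
      2 * ENNReal.ofReal ((2 * δ) ^ m * (4 ^ m * (4 * (R + 1)) ^ (m + q))) *
      (2 * ENNReal.ofReal (C * 2 ^ β * δ ^ β * ((A:ℝ) + 1)) / μ S) * volume F := by
  classical
  set V := volume (ball (0 : E (m + m + q)) 1) with hV
  set c := ENNReal.ofReal ((2 * δ) ^ m * (4 ^ m * (4 * (R + 1)) ^ (m + q))) with hc
  set I := ENNReal.ofReal (C * 2 ^ β * δ ^ β * ((A:ℝ) + 1)) with hI
  set t : ℝ≥0∞ := 2 * I / μ S with ht
  have hI0 : I ≠ 0 := by
    rw [hI, Ne, ENNReal.ofReal_eq_zero, not_le]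
    positivity
  have hIt : I ≠ ∞ := ENNReal.ofReal_ne_top
  have ht0 : t ≠ 0 := by
    rw [ht]
    exact (ENNReal.div_pos (mul_ne_zero (by norm_num) hI0) hSt).ne'
  have htt : t ≠ ∞ := ENNReal.div_ne_top (ENNReal.mul_ne_top (by norm_num) hIt) hS
  choose Y hY1 hY2 hY3 hY4 using hY
  -- the finite sets, for all parameters
  set Y' : Ω → Finset (E (m + m + q)) := fun s => if h : s ∈ S then Y s h else ∅ with hY'
  have hY'S : ∀ s (h : s ∈ S), Y' s = Y s h := fun s h => by simp only [hY', h, dif_pos]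
  have hY'1 : ∀ s, ∀ y ∈ Y' s, y ∈ pln (N s) (x s) ∧ ‖y‖ ≤ R := by
    intro s y hy
    by_cases h : s ∈ S
    · rw [hY'S s h] at hy
      exact hY1 s h y hy
    · simp [hY', h] at hy
  -- the number of planes
  obtain ⟨M, hM⟩ := ENNReal.exists_nat_gt (ENNReal.inv_ne_top.2 ht0)
  have hMt : 1 ≤ (M : ℝ≥0∞) * t := by
    calc (1 : ℝ≥0∞) = t⁻¹ * t := (ENNReal.inv_mul_cancel ht0 htt).symm
      _ ≤ _ := by gcongr
  have hM0 : (M : ℝ≥0∞) ≠ 0 := by
    intro h
    rw [h, zero_mul] at hMt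
    exact absurd hMt (by norm_num)
  obtain ⟨s, hs1, hs2⟩ := select μ (fun s s' => hh m A δ (N s) (N s')) hI0 hIt
    (fun s => hh_bound μ hC hβ hsp hδ A s) hS hSt M
  have hmom := second_moment (volume : Measure (E (m + m + q))) (M := M)
    (B := fun i => blob (Y' (s i)) δ) (fun i => measurable_blob _ _) (F := F)
    (fun i hi => by rw [hY'S _ (hs1 i hi)]; exact hY4 _ _)
    (a := ENNReal.ofReal (a₀ * (δ / 2) ^ (m + m + q)) * V) (b := c) (c := c) (t := t)
    (fun i hi => by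
      have h1 := hs1 i hi
      rw [hY'S _ h1, vol_blob hδ (hY2 _ h1), ENNReal.ofReal_mul ha₀.le, mul_assoc]
      gcongr
      rw [← ENNReal.ofReal_natCast]
      exact ENNReal.ofReal_le_ofReal (hY3 _ h1))
    (fun i hi => by
      have h1 := blob_inter hm (hN (s i)) (hN (s i)) hδ hδ1 hR (hY'1 (s i)) (hY'1 (s i)) hA
      rw [inter_self] at h1
      obtain ⟨ν, hν⟩ : ∃ ν : N (s i), ν ≠ 0 := by
        have h1 : 0 < Module.finrank ℝ (N (s i)) := by rw [hN]; omega
        have h2 : Nontrivial (N (s i)) := Module.nontrivial_of_finrank_pos h1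
        exact exists_ne 0
      -- the trivial bound
      have h2 : volume (blob (Y' (s i)) δ) ≤ c := by
        rcases (blob (Y' (s i)) δ).eq_empty_or_nonempty with h0 | ⟨z, hz⟩
        · rw [h0]; simp
        have hR0 : (0:ℝ) ≤ 2 * (R + 1) := by linarith
        have hcomp : ∀ x' ∈ blob (Y' (s i)) δ,
            ‖x'‖ ≤ R + 1 ∧ ∀ ν ∈ N (s i), |(inner ℝ (x' - x (s i)) ν : ℝ)| ≤ δ / 2 * ‖ν‖ := by
          intro x' hx'
          simp only [blob, mem_iUnion, mem_ball, dist_eq_norm] at hx'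
          obtain ⟨y, hy, hxy⟩ := hx'
          obtain ⟨h1, h2⟩ := hY'1 _ y hy
          refine ⟨?_, fun ν hν => ?_⟩
          · calc ‖x'‖ = ‖(x' - y) + y‖ := by congr 1; abel
              _ ≤ ‖x' - y‖ + ‖y‖ := norm_add_le _ _
              _ ≤ R + 1 := by linarith
          · have h3 : (inner ℝ (x' - x (s i)) ν : ℝ) = inner ℝ (x' - y) ν := by
              rw [← sub_add_sub_cancel x' y (x (s i)), inner_add_left, h1 ν hν, add_zero]
            rw [h3]
            refine (abs_real_inner_le_norm _ _).trans ?_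
            gcongr
        have hsub : blob (Y' (s i)) δ ⊆ plate (N (s i)) z δ (2 * (R + 1)) := by
          intro x' hx'
          obtain ⟨h1, h2⟩ := hcomp x' hx'
          obtain ⟨h3, h4⟩ := hcomp z hz
          refine ⟨?_, fun ν hν => ?_⟩
          · calc ‖x' - z‖ ≤ ‖x'‖ + ‖z‖ := norm_sub_le _ _
              _ ≤ 2 * (R + 1) := by linarith
          · have h5 : (inner ℝ (x' - z) ν : ℝ) =
                inner ℝ (x' - x (s i)) ν - inner ℝ (z - x (s i)) ν := by
              rw [← inner_sub_left]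
              congr 1
              abel
            rw [h5]
            calc |(inner ℝ (x' - x (s i)) ν : ℝ) - inner ℝ (z - x (s i)) ν|
                ≤ |(inner ℝ (x' - x (s i)) ν : ℝ)| + |(inner ℝ (z - x (s i)) ν : ℝ)| :=
                  abs_sub _ _
              _ ≤ δ / 2 * ‖ν‖ + δ / 2 * ‖ν‖ := add_le_add (h2 ν hν) (h4 ν hν)
              _ = δ * ‖ν‖ := by ring
        have hcast : ∀ (p : ℕ) (_ : m + m + q = p) (N : Submodule ℝ (E p)) (z : E p),
            Module.finrank ℝ N = m → volume (plate N z δ (2 * (R + 1))) ≤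
              ENNReal.ofReal ((2 * δ) ^ m * (2 * (2 * (R + 1))) ^ (m + q)) := by
          intro p hp N z hN
          have hp' : p = m + (m + q) := by omega
          subst hp'
          exact vol_plate hN z hδ.le hR0
        refine (measure_mono hsub).trans ((hcast _ rfl _ z (hN _)).trans
          (ENNReal.ofReal_le_ofReal ?_))
        have h4 : (1:ℝ) ≤ 4 ^ m := one_le_pow₀ (by norm_num)
        have h5 : (0:ℝ) ≤ (4 * (R + 1)) ^ (m + q) := by positivity
        have h6 : 2 * (2 * (R + 1)) = 4 * (R + 1) := by ring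
        rw [h6]
        gcongr
        nlinarith
      exact h2)
    (fun l hl => by
      calc ∑ i ∈ Finset.range l, volume (blob (Y' (s i)) δ ∩ blob (Y' (s l)) δ)
          ≤ ∑ i ∈ Finset.range l, c * hh m A δ (N (s i)) (N (s l)) := by
            apply Finset.sum_le_sum
            intro i _
            exact blob_inter hm (hN _) (hN _) hδ hδ1 hR (hY'1 _) (hY'1 _) hA
        _ = c * ∑ i ∈ Finset.range l, hh m A δ (N (s i)) (N (s l)) := by rw [Finset.mul_sum]
        _ ≤ c * (l * t) := by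
            gcongr
            exact hs2 l hl)
  have h1 : (M : ℝ≥0∞) * c + c * t * M ^ 2 ≤ M ^ 2 * (2 * c * t) := by
    calc (M : ℝ≥0∞) * c + c * t * M ^ 2 ≤ M * c * (M * t) + c * t * M ^ 2 :=
          add_le_add (le_mul_of_one_le_right zero_le hMt) le_rfl
      _ = _ := by ring
  have h2 : (M : ℝ≥0∞) ^ 2 * (ENNReal.ofReal (a₀ * (δ / 2) ^ (m + m + q)) ^ 2 * V ^ 2) ≤
      M ^ 2 * (2 * c * t * volume F) := by
    calc (M : ℝ≥0∞) ^ 2 * (ENNReal.ofReal (a₀ * (δ / 2) ^ (m + m + q)) ^ 2 * V ^ 2)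
        = (M * (ENNReal.ofReal (a₀ * (δ / 2) ^ (m + m + q)) * V)) ^ 2 := by ring
      _ ≤ volume F * (M * c + c * t * M ^ 2) := hmom
      _ ≤ volume F * (M ^ 2 * (2 * c * t)) := by gcongr
      _ = _ := by ring
  exact (ENNReal.mul_le_mul_iff_right (pow_ne_zero 2 hM0)
    (ENNReal.pow_ne_top (ENNReal.natCast_ne_top M))).1 h2

end Pool.Agent.Y245.Pl
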