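import Pool.Agent.Y245.PlanesCore

set_option autoImplicit false

/-!
# The dimension of sets containing large parts of the planes of a transversal family
-/

open MeasureTheory Set Filter Topology ENNReal NNReal Metric

namespace Pool.Agent.Y245.Pl

/-- The final computation. -/
theorem final_step {n m k j : ℕ} (hnm : n = m + k) {lam w c₀ σ β d v M G C ε e A : ℝ}
    (hlam : 0 < lam) (hc₀ : 0 < c₀) (hv : 0 < v) (hM : 0 < M) (hG : 0 < G) (hC : 0 < C)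
    (hε : 0 < ε) (he : e = 2 * σ + β - k - d)
    (hw : w = c₀ / ((j:ℝ) + 1) ^ 2) (hAj : ((j:ℝ) + 1) ^ 7 ≤ A * ((2:ℝ) ^ (j + 1)) ^ e)
    {δ : ℝ} (hδ : δ = (1 / 2) ^ (j + 1))
    (h : (lam * w * δ ^ (-σ) * (δ / 2) ^ n) ^ 2 * v ^ 2 ≤
      2 * ((2 * δ) ^ m * G) * (2 * (C * 2 ^ β * δ ^ β * (((j + 1 : ℕ):ℝ) + 1)) / (w * M)) *
        (2 ^ n * 2 ^ d * δ ^ ((n:ℝ) - d) * ε * v)) :
    lam ^ 2 * c₀ ^ 3 * M * v ≤ (8 * 4 ^ n * 2 ^ m * G * C * 2 ^ β * 2 ^ n * 2 ^ d * A) * ε := by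
  have hδ0 : 0 < δ := by rw [hδ]; positivity
  have hj : (0:ℝ) < (j:ℝ) + 1 := by positivity
  have hw0 : 0 < w := by rw [hw]; positivity
  have hDe : δ ^ (-e) = ((2:ℝ) ^ (j + 1)) ^ e := by
    rw [hδ, Real.rpow_neg (by positivity), ← Real.inv_rpow (by positivity)]
    congr 1
    rw [one_div, inv_pow, inv_inv]
  -- powers of `δ`
  set Q : ℝ := δ ^ m * δ ^ β * δ ^ ((n:ℝ) - d) with hQ
  have hQ0 : 0 < Q := by positivity
  have hpow : (δ ^ (-σ)) ^ 2 * (δ ^ n) ^ 2 = Q * δ ^ (-e) := by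
    rw [hQ, ← Real.rpow_natCast δ n, ← Real.rpow_natCast δ m, ← Real.rpow_natCast (δ ^ (-σ)) 2,
      ← Real.rpow_natCast (δ ^ (n:ℝ)) 2, ← Real.rpow_mul hδ0.le, ← Real.rpow_mul hδ0.le,
      ← Real.rpow_add hδ0, ← Real.rpow_add hδ0, ← Real.rpow_add hδ0, ← Real.rpow_add hδ0]
    congr 1
    rw [he, hnm]
    push_cast
    ring
  have h1 : lam ^ 2 * w ^ 3 * M * v * δ ^ (-e) ≤
      (4 ^ n * 4 * 2 ^ m * G * C * 2 ^ β * 2 ^ n * 2 ^ d) * ((j:ℝ) + 2) * ε := by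
    have h2 : (lam * w * δ ^ (-σ) * (δ / 2) ^ n) ^ 2 * v ^ 2 =
        Q * v / (w * M * 4 ^ n) * (lam ^ 2 * w ^ 3 * M * v * δ ^ (-e)) := by
      have h3 : (lam * w * δ ^ (-σ) * (δ / 2) ^ n) ^ 2 =
          lam ^ 2 * w ^ 2 * ((δ ^ (-σ)) ^ 2 * (δ ^ n) ^ 2) / 4 ^ n := by
        rw [div_pow]
        have : (4:ℝ) ^ n = (2 ^ n) ^ 2 := by rw [← pow_mul, mul_comm n 2, pow_mul]; norm_num
        rw [this]
        field_simp
      rw [h3, hpow]
      field_simp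
    have h4 : 2 * ((2 * δ) ^ m * G) * (2 * (C * 2 ^ β * δ ^ β * (((j + 1 : ℕ):ℝ) + 1)) / (w * M)) *
        (2 ^ n * 2 ^ d * δ ^ ((n:ℝ) - d) * ε * v) =
        Q * v / (w * M * 4 ^ n) *
          ((4 ^ n * 4 * 2 ^ m * G * C * 2 ^ β * 2 ^ n * 2 ^ d) * ((j:ℝ) + 2) * ε) := by
      rw [hQ, mul_pow]
      push_cast
      field_simp
      ring
    rw [h2, h4] at h
    exact le_of_mul_le_mul_left h (by positivity)
  have h5 : lam ^ 2 * c₀ ^ 3 * M * v * δ ^ (-e) ≤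
      (4 ^ n * 4 * 2 ^ m * G * C * 2 ^ β * 2 ^ n * 2 ^ d) * ε * (((j:ℝ) + 2) * ((j:ℝ) + 1) ^ 6) := by
    have h6 : c₀ ^ 3 = w ^ 3 * ((j:ℝ) + 1) ^ 6 := by
      rw [hw]
      field_simp
    calc lam ^ 2 * c₀ ^ 3 * M * v * δ ^ (-e)
        = (lam ^ 2 * w ^ 3 * M * v * δ ^ (-e)) * ((j:ℝ) + 1) ^ 6 := by rw [h6]; ring
      _ ≤ ((4 ^ n * 4 * 2 ^ m * G * C * 2 ^ β * 2 ^ n * 2 ^ d) * ((j:ℝ) + 2) * ε) *
          ((j:ℝ) + 1) ^ 6 := by gcongr
      _ = _ := by ring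
  have h7 : ((j:ℝ) + 2) * ((j:ℝ) + 1) ^ 6 ≤ 2 * (A * δ ^ (-e)) := by
    rw [hDe]
    calc ((j:ℝ) + 2) * ((j:ℝ) + 1) ^ 6 ≤ (2 * ((j:ℝ) + 1)) * ((j:ℝ) + 1) ^ 6 := by
          gcongr
          linarith
      _ = 2 * ((j:ℝ) + 1) ^ 7 := by ring
      _ ≤ _ := by linarith
  have h8 : lam ^ 2 * c₀ ^ 3 * M * v * δ ^ (-e) ≤
      ((8 * 4 ^ n * 2 ^ m * G * C * 2 ^ β * 2 ^ n * 2 ^ d * A) * ε) * δ ^ (-e) := by
    calc lam ^ 2 * c₀ ^ 3 * M * v * δ ^ (-e) ≤
      (4 ^ n * 4 * 2 ^ m * G * C * 2 ^ β * 2 ^ n * 2 ^ d) * ε * (((j:ℝ) + 2) * ((j:ℝ) + 1) ^ 6) := h5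
      _ ≤ (4 ^ n * 4 * 2 ^ m * G * C * 2 ^ β * 2 ^ n * 2 ^ d) * ε * (2 * (A * δ ^ (-e))) := by
          gcongr
      _ = _ := by ring
  exact le_of_mul_le_mul_right h8 (by positivity)

/-- Pigeonhole for outer measures. -/
theorem pigeon {Ω : Type*} [MeasurableSpace Ω] (μ : Measure Ω) {S : Set Ω} (hS : μ S ≠ 0)
    (hSt : μ S ≠ ∞) (J : Ω → ℕ) (w : ℕ → ℝ) (hw : ∑' j, ENNReal.ofReal (w j) < 1) :
    ∃ j, ENNReal.ofReal (w j) * μ S ≤ μ {s ∈ S | J s = j} := by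
  by_contra hcon
  push Not at hcon
  have h1 : μ S ≤ ∑' j, ENNReal.ofReal (w j) * μ S := by
    calc μ S ≤ μ (⋃ j, {s ∈ S | J s = j}) := by
          apply measure_mono
          intro s hs
          exact mem_iUnion.2 ⟨J s, hs, rfl⟩
      _ ≤ ∑' j, μ {s ∈ S | J s = j} := measure_iUnion_le _
      _ ≤ _ := ENNReal.tsum_le_tsum (fun j => (hcon j).le)
  rw [ENNReal.tsum_mul_right] at h1
  have h2 : (∑' j, ENNReal.ofReal (w j)) * μ S < 1 * μ S :=
    (ENNReal.mul_lt_mul_iff_left hS hSt).2 hw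
  rw [one_mul] at h2
  exact absurd h1 (not_le.2 h2)

/-- Bounded pieces with large content. -/
theorem pieces {n : ℕ} {A : Set (E n)} {σ : ℝ} (hσ : 0 < σ) (h : ENNReal.ofReal σ < dimH A) :
    ∃ R L : ℕ, Cont σ (1 / ((L:ℝ) + 1)) (A ∩ closedBall 0 R) := by
  have h1 : A = ⋃ R : ℕ, A ∩ closedBall 0 R := by
    rw [← inter_iUnion, iUnion_closedBall_nat, inter_univ]
  rw [h1, dimH_iUnion] at h
  obtain ⟨R, hR⟩ := lt_iSup_iff.1 h
  obtain ⟨lam, hl, hc⟩ := exists_cont hσ hR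
  obtain ⟨L, hL⟩ := exists_nat_one_div_lt hl
  exact ⟨R, L, hc.mono hL.le⟩

theorem dyadic_class {r : ℝ} (hr : 0 < r) (hr1 : r ≤ 1 / 2) :
    ∃ j : ℕ, (1 / 2 : ℝ) ^ (j + 1) / 2 < r ∧ r ≤ (1 / 2) ^ (j + 1) := by
  obtain ⟨j, h1, h2⟩ := exists_nat_pow_near_of_lt_one (x := 2 * r) (y := 1 / 2)
    (by positivity) (by linarith) (by norm_num) (by norm_num)
  refine ⟨j, ?_, ?_⟩
  · linarith
  · rw [pow_succ]
    linarith

/-- The main estimate, for a strict lower bound of the dimensions of the sections. -/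
theorem dim_core {m q : ℕ} (hm : 1 ≤ m) {Ω : Type*} [MeasurableSpace Ω] (μ : Measure Ω)
    {N : Ω → Submodule ℝ (E (m + m + q))} (hN : ∀ s, Module.finrank ℝ (N s) = m)
    (x : Ω → E (m + m + q)) {C β : ℝ} (hC : 0 < C) (hβ : β ≤ m)
    (hsp : ∀ s, ∀ r : ℝ, 0 < r → μ {s' | Close (N s) (N s') r} ≤ ENNReal.ofReal (C * r ^ β))
    {S : Set Ω} (hS : μ S ≠ 0) (K : Set (E (m + m + q))) {σ : ℝ} (hσ : 0 < σ)
    (hdim : ∀ s ∈ S, ENNReal.ofReal σ < dimH (K ∩ pln (N s) (x s))) :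
    ENNReal.ofReal (2 * σ + β) ≤ dimH K + ((m + q : ℕ) : ℝ≥0∞) := by
  classical
  by_contra hcon
  rw [not_le] at hcon
  obtain ⟨o, ho⟩ : S.Nonempty := nonempty_of_measure_ne_zero hS
  have hKt : dimH K ≠ ∞ := by
    intro h
    rw [h, top_add] at hcon
    exact absurd hcon (by simp)
  -- a dimension slightly larger than that of `K`
  obtain ⟨d, hd1, hd2⟩ : ∃ d : ℝ≥0, dimH K < d ∧ (d : ℝ) + (m + q : ℕ) < 2 * σ + β := by
    have h1 : dimH K < ENNReal.ofReal (2 * σ + β - (m + q : ℕ)) := by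
      rw [ENNReal.ofReal_sub _ (by positivity), ENNReal.ofReal_natCast]
      exact lt_tsub_iff_right.2 hcon
    obtain ⟨d, h2, h3⟩ := ENNReal.lt_iff_exists_nnreal_btwn.1 h1
    refine ⟨d, h2, ?_⟩
    have h4 : (d : ℝ) < 2 * σ + β - (m + q : ℕ) := by
      rw [← ENNReal.ofReal_coe_nnreal] at h3
      exact (ENNReal.ofReal_lt_ofReal_iff_of_nonneg d.2).1 h3
    linarith
  have hd0 : 0 < d := by
    have : (0 : ℝ≥0∞) < d := lt_of_le_of_lt zero_le hd1
    exact_mod_cast this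
  -- the measure is finite
  have hSt : ∀ T : Set Ω, μ T ≠ ∞ := by
    intro T
    have h1 : μ univ ≤ ENNReal.ofReal (C * 1 ^ β) := by
      refine le_trans (measure_mono ?_) (hsp o 1 one_pos)
      intro s _
      exact close_one hm (hN o)
    exact ((measure_mono (subset_univ T)).trans_lt (h1.trans_lt ENNReal.ofReal_lt_top)).ne
  -- bounded pieces
  have hpc : ∀ s ∈ S, ∃ p : ℕ × ℕ,
      Cont σ (1 / ((p.2:ℝ) + 1)) (K ∩ pln (N s) (x s) ∩ closedBall 0 (p.1 : ℝ)) := by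
    intro s hs
    obtain ⟨R, L, h⟩ := pieces hσ (hdim s hs)
    exact ⟨(R, L), h⟩
  obtain ⟨p, hp⟩ : ∃ p : ℕ × ℕ, μ {s ∈ S |
      Cont σ (1 / ((p.2:ℝ) + 1)) (K ∩ pln (N s) (x s) ∩ closedBall 0 (p.1 : ℝ))} ≠ 0 := by
    by_contra h
    push Not at h
    apply hS
    have h1 := (measure_iUnion_null_iff (μ := μ)).2 h
    refine measure_mono_null ?_ h1
    intro s hs
    obtain ⟨p, hp⟩ := hpc s hs
    exact mem_iUnion.2 ⟨p, hs, hp⟩
  obtain ⟨R, L⟩ := p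
  simp only at hp
  set S' := {s ∈ S | Cont σ (1 / ((L:ℝ) + 1)) (K ∩ pln (N s) (x s) ∩ closedBall 0 (R : ℝ))}
    with hS'
  set lam : ℝ := 1 / ((L:ℝ) + 1) with hlam
  have hlam0 : 0 < lam := by positivity
  obtain ⟨c₀, hc₀, hcw⟩ := weights
  set w : ℕ → ℝ := fun j => c₀ / ((j:ℝ) + 1) ^ 2 with hw
  have hw0 : ∀ j, 0 < w j := fun j => by simp only [hw]; positivity
  set e : ℝ := 2 * σ + β - (m + q : ℕ) - d with he
  have he0 : 0 < e := by rw [he]; linarith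
  obtain ⟨A, hA0, hA⟩ := poly_le_exp 7 he0
  set V := volume (ball (0 : E (m + m + q)) 1) with hV
  have hV0 : 0 < V := measure_ball_pos _ _ one_pos
  have hVt : V ≠ ∞ := measure_ball_lt_top.ne
  set v := V.toReal with hv
  have hv0 : 0 < v := ENNReal.toReal_pos hV0.ne' hVt
  have hVv : V = ENNReal.ofReal v := (ENNReal.ofReal_toReal hVt).symm
  set M := (μ S').toReal with hM
  have hM0 : 0 < M := ENNReal.toReal_pos hp (hSt _)
  have hMM : μ S' = ENNReal.ofReal M := (ENNReal.ofReal_toReal (hSt _)).symm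
  set G : ℝ := 4 ^ m * (4 * ((R:ℝ) + 1)) ^ (m + q) with hG
  have hG0 : 0 < G := by positivity
  set W : ℝ := 8 * 4 ^ (m + m + q) * 2 ^ m * G * C * 2 ^ β * 2 ^ (m + m + q) * 2 ^ (d:ℝ) * A
    with hW
  have hW0 : 0 < W := by positivity
  set ε : ℝ := lam ^ 2 * c₀ ^ 3 * M * v / (2 * W) with hε
  have hε0 : 0 < ε := by positivity
  -- the cover
  obtain ⟨y, r, hr, hcov, hsum⟩ := Tr.cover_of_dimH_lt hd0 hd1 (ρ := 1 / 2) (by norm_num) hε0
  choose J hJ1 hJ2 using fun i => dyadic_class (hr i).1 (hr i).2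
  set B : ℕ → Set (E (m + m + q)) := fun j => ⋃ (i : ℕ) (_ : J i = j), closedBall (y i) (r i)
    with hB
  set δ : ℕ → ℝ := fun j => (1 / 2) ^ (j + 1) with hδ
  have hδ0 : ∀ j, 0 < δ j := fun j => by simp only [hδ]; positivity
  have hsc : ∀ s ∈ S', ∃ (j : ℕ) (Y : Finset (E (m + m + q))),
      (Y : Set (E (m + m + q))) ⊆ (K ∩ pln (N s) (x s) ∩ closedBall 0 (R : ℝ)) ∩ B j ∧
      (∀ x ∈ Y, ∀ y ∈ Y, x ≠ y → δ j < dist x y) ∧ lam * w j ≤ Y.card * δ j ^ σ := by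
    intro s hs
    refine exists_scale (isBounded_closedBall.subset inter_subset_right) hlam0 hs.2 B ?_ δ hδ0 w
      (fun j => (hw0 j).le) hcw
    intro z hz
    obtain ⟨i, hi⟩ := mem_iUnion.1 (hcov hz.1.1)
    exact mem_iUnion.2 ⟨J i, mem_iUnion₂.2 ⟨i, rfl, hi⟩⟩
  choose! j₀ Y hY1 hY2 hY3 using hsc
  obtain ⟨j, hj⟩ := pigeon μ hp (hSt _) j₀ w hcw
  set F : Set (E (m + m + q)) := ⋃ (i : ℕ) (_ : J i = j), closedBall (y i) (2 * δ j) with hF
  set S'' := {s ∈ S' | j₀ s = j} with hS''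
  have hS''0 : μ S'' ≠ 0 := by
    intro h
    rw [h, hMM, ← ENNReal.ofReal_mul (hw0 j).le, nonpos_iff_eq_zero, ENNReal.ofReal_eq_zero] at hj
    have := mul_pos (hw0 j) hM0
    linarith
  have hδj1 : δ j ≤ 1 := pow_le_one₀ (by norm_num) (by norm_num)
  have hone := one_scale hm μ hN x hC hβ hsp hS''0 (hSt _) (δ := δ j) (R := R)
    (a₀ := lam * w j * δ j ^ (-σ)) (hδ0 j) hδj1 (by positivity)
    (by have := hw0 j; have := hδ0 j; positivity) (A := j + 1)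
    (by simp only [hδ]; rw [← mul_pow]; norm_num) (F := F) (by
      intro s hs
      obtain ⟨hs1, hs2⟩ := hs
      refine ⟨Y s, ?_, ?_, ?_, ?_⟩
      · intro z hz
        have h1 := hY1 s hs1 hz
        exact ⟨h1.1.1.2, by simpa using h1.1.2⟩
      · intro a ha b hb hab
        have := hY2 s hs1 a ha b hb hab
        rwa [hs2] at this
      · have h1 := hY3 s hs1
        rw [hs2] at h1
        rw [Real.rpow_neg (hδ0 j).le, mul_inv_le_iff₀ (Real.rpow_pos_of_pos (hδ0 j) _)]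
        exact h1
      · intro z hz
        simp only [blob, mem_iUnion, mem_ball] at hz
        obtain ⟨b, hb, hzb⟩ := hz
        have h1 := (hY1 s hs1 hb).2
        rw [hs2] at h1
        simp only [hB, mem_iUnion, mem_closedBall] at h1
        obtain ⟨i, hi, hbi⟩ := h1
        simp only [hF, mem_iUnion, mem_closedBall]
        refine ⟨i, hi, ?_⟩
        have h2 : r i ≤ δ j := by
          have := hJ2 i
          rw [hi] at this
          exact this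
        calc dist z (y i) ≤ dist z b + dist b (y i) := dist_triangle _ _ _
          _ ≤ δ j / 2 + r i := add_le_add hzb.le hbi
          _ ≤ 2 * δ j := by have := hδ0 j; linarith)
  -- the volume
  have hvol : volume F ≤ ENNReal.ofReal (2 ^ (m + m + q) * 2 ^ (d:ℝ) *
      δ j ^ (((m + m + q : ℕ):ℝ) - d) * ε * v) := by
    have h1 : ∀ i, volume (⋃ (_ : J i = j), closedBall (y i) (2 * δ j)) ≤
        ENNReal.ofReal (2 ^ (m + m + q) * 2 ^ (d:ℝ) * δ j ^ (((m + m + q : ℕ):ℝ) - d) * v) *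
          ENNReal.ofReal (r i ^ (d:ℝ)) := by
      intro i
      by_cases hi : J i = j
      · simp only [hi, iUnion_true]
        rw [Measure.addHaar_closedBall _ _ (by have := hδ0 j; positivity),
          finrank_euclideanSpace_fin, ← hV, hVv, ← ENNReal.ofReal_mul (by
            have := hδ0 j; positivity), ← ENNReal.ofReal_mul (by have := hδ0 j; positivity)]
        apply ENNReal.ofReal_le_ofReal
        have h2 : δ j / 2 < r i := by
          have := hJ1 i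
          rw [hi] at this
          exact this
        have h3 : δ j ^ (m + m + q) ≤ 2 ^ (d:ℝ) * δ j ^ (((m + m + q : ℕ):ℝ) - d) * r i ^ (d:ℝ) := by
          have h4 : δ j ^ (d:ℝ) ≤ 2 ^ (d:ℝ) * r i ^ (d:ℝ) := by
            rw [← Real.mul_rpow (by norm_num) (hr i).1.le]
            exact Real.rpow_le_rpow (hδ0 j).le (by linarith) d.2
          calc δ j ^ (m + m + q) = δ j ^ (((m + m + q : ℕ):ℝ) - d) * δ j ^ (d:ℝ) := by
                rw [← Real.rpow_add (hδ0 j), ← Real.rpow_natCast]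
                congr 1
                ring
            _ ≤ δ j ^ (((m + m + q : ℕ):ℝ) - d) * (2 ^ (d:ℝ) * r i ^ (d:ℝ)) := by
                have := hδ0 j
                gcongr
            _ = _ := by ring
        calc (2 * δ j) ^ (m + m + q) * v = 2 ^ (m + m + q) * δ j ^ (m + m + q) * v := by
              rw [mul_pow]
          _ ≤ 2 ^ (m + m + q) * (2 ^ (d:ℝ) * δ j ^ (((m + m + q : ℕ):ℝ) - d) * r i ^ (d:ℝ)) * v := by
              gcongr
          _ = _ := by ring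
      · simp [hi]
    calc volume F ≤ ∑' i, volume (⋃ (_ : J i = j), closedBall (y i) (2 * δ j)) :=
          measure_iUnion_le _
      _ ≤ ∑' i, ENNReal.ofReal (2 ^ (m + m + q) * 2 ^ (d:ℝ) *
          δ j ^ (((m + m + q : ℕ):ℝ) - d) * v) * ENNReal.ofReal (r i ^ (d:ℝ)) :=
          ENNReal.tsum_le_tsum h1
      _ = ENNReal.ofReal (2 ^ (m + m + q) * 2 ^ (d:ℝ) *
          δ j ^ (((m + m + q : ℕ):ℝ) - d) * v) * ∑' i, ENNReal.ofReal (r i ^ (d:ℝ)) :=
          ENNReal.tsum_mul_left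
      _ ≤ ENNReal.ofReal (2 ^ (m + m + q) * 2 ^ (d:ℝ) *
          δ j ^ (((m + m + q : ℕ):ℝ) - d) * v) * ENNReal.ofReal ε := by gcongr
      _ = _ := by
          rw [← ENNReal.ofReal_mul (by have := hδ0 j; positivity)]
          congr 1
          ring
  -- the real inequality
  have hreal : (lam * w j * δ j ^ (-σ) * (δ j / 2) ^ (m + m + q)) ^ 2 * v ^ 2 ≤
      2 * ((2 * δ j) ^ m * G) *
        (2 * (C * 2 ^ β * δ j ^ β * (((j + 1 : ℕ):ℝ) + 1)) / (w j * M)) *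
        (2 ^ (m + m + q) * 2 ^ (d:ℝ) * δ j ^ (((m + m + q : ℕ):ℝ) - d) * ε * v) := by
    have hδj := hδ0 j
    have hwj := hw0 j
    rw [← ENNReal.ofReal_le_ofReal_iff (by positivity)]
    calc ENNReal.ofReal ((lam * w j * δ j ^ (-σ) * (δ j / 2) ^ (m + m + q)) ^ 2 * v ^ 2)
        = ENNReal.ofReal (lam * w j * δ j ^ (-σ) * (δ j / 2) ^ (m + m + q)) ^ 2 * V ^ 2 := by
          rw [hVv, ENNReal.ofReal_mul (by positivity), ENNReal.ofReal_pow (by positivity),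
            ENNReal.ofReal_pow (by positivity)]
      _ ≤ _ := hone
      _ ≤ 2 * ENNReal.ofReal ((2 * δ j) ^ m * G) *
          ENNReal.ofReal (2 * (C * 2 ^ β * δ j ^ β * (((j + 1 : ℕ):ℝ) + 1)) / (w j * M)) *
          ENNReal.ofReal (2 ^ (m + m + q) * 2 ^ (d:ℝ) *
            δ j ^ (((m + m + q : ℕ):ℝ) - d) * ε * v) := by
          gcongr
          have h1 : ENNReal.ofReal (w j * M) ≤ μ S'' := by
            rw [ENNReal.ofReal_mul hwj.le, ← hMM]
            exact hj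
          have h2 : (2 : ℝ≥0∞) = ENNReal.ofReal 2 := by norm_num
          rw [ENNReal.ofReal_div_of_pos (by positivity), h2, ← ENNReal.ofReal_mul (by norm_num)]
          gcongr
      _ = _ := by
          have h2 : (2 : ℝ≥0∞) = ENNReal.ofReal 2 := by norm_num
          rw [h2, ← ENNReal.ofReal_mul (by norm_num), ← ENNReal.ofReal_mul (by positivity),
            ← ENNReal.ofReal_mul (by positivity)]
  have hfin := final_step (n := m + m + q) (m := m) (k := m + q) (j := j) (by ring) hlam0 hc₀ hv0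
    hM0 hG0 hC hε0 he rfl (hA j) rfl hreal
  rw [← hW] at hfin
  have h1 : W * ε = lam ^ 2 * c₀ ^ 3 * M * v / 2 := by
    rw [hε]
    field_simp
  rw [h1] at hfin
  have h2 : 0 < lam ^ 2 * c₀ ^ 3 * M * v := by positivity
  linarith

end Pool.Agent.Y245.Pl
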