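import Pool.Agent.W767.Kc.Asm2

set_option autoImplicit false

/-!
# Polynomial curves have finite order
-/

open MeasureTheory Set Filter Topology ENNReal NNReal Metric

namespace Pool.Agent.Y245.PC

open Pool.Agent.H742R2.Kk Pool.Agent.W767.Kc

/-- A polynomial curve. -/
noncomputable def pcurve {n : ℕ} (k : ℕ) (c : ℕ → E n) (t : ℝ) : E n :=
  ∑ i ∈ Finset.range k, t ^ i • c i

theorem continuous_pcurve {n : ℕ} (k : ℕ) (c : ℕ → E n) : Continuous (pcurve k c) := by
  unfold pcurve
  fun_prop

theorem orderLE_pcurve {n k : ℕ} (hk : 1 ≤ k) (c : ℕ → E n) : OrderLE (k - 1) (pcurve k c) := by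
  intro ν _
  have hcd : ∀ x : ℝ, x ≠ inner ℝ ν (c 0) →
      {u : ℝ | inner ℝ ν (pcurve k c u) = x}.encard ≤ ((k - 1 : ℕ) : ℕ∞) := by
    intro x hx
    set P : Polynomial ℝ := (∑ i ∈ Finset.range k, Polynomial.C (inner ℝ ν (c i)) *
      Polynomial.X ^ i) - Polynomial.C x with hP
    have hev : ∀ u : ℝ, P.eval u = inner ℝ ν (pcurve k c u) - x := by
      intro u
      rw [hP, pcurve, inner_sum]
      simp only [Polynomial.eval_sub, Polynomial.eval_finsetSum, Polynomial.eval_mul,
        Polynomial.eval_C, Polynomial.eval_pow, Polynomial.eval_X, inner_smul_right]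
      congr 1
      apply Finset.sum_congr rfl
      intro i _
      ring
    have hP0 : P ≠ 0 := by
      intro h0
      have h1 := hev 0
      rw [h0, Polynomial.eval_zero] at h1
      have h2 : pcurve k c 0 = c 0 := by
        unfold pcurve
        obtain ⟨l, rfl⟩ : ∃ l, k = l + 1 := ⟨k - 1, by omega⟩
        rw [Finset.sum_range_succ']
        simp
      rw [h2] at h1
      exact hx (by linarith)
    have hdeg : P.natDegree ≤ k - 1 := by
      rw [hP]
      apply (Polynomial.natDegree_sub_le _ _).trans
      rw [Polynomial.natDegree_C]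
      apply max_le _ (Nat.zero_le _)
      apply Polynomial.natDegree_sum_le_of_forall_le
      intro i hi
      have := Finset.mem_range.1 hi
      exact (Polynomial.natDegree_C_mul_X_pow_le _ _).trans (by omega)
    have hsub : {u : ℝ | inner ℝ ν (pcurve k c u) = x} ⊆ (P.roots.toFinset : Set ℝ) := by
      intro u hu
      simp only [Finset.mem_coe, Multiset.mem_toFinset, Polynomial.mem_roots hP0,
        Polynomial.IsRoot]
      rw [hev]
      have : inner ℝ ν (pcurve k c u) = x := hu
      linarith
    calc {u : ℝ | inner ℝ ν (pcurve k c u) = x}.encard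
        ≤ (P.roots.toFinset : Set ℝ).encard := encard_le_encard hsub
      _ = (P.roots.toFinset.card : ℕ∞) := encard_coe_eq_coe_finsetCard _
      _ ≤ ((k - 1 : ℕ) : ℕ∞) := by
        exact_mod_cast (Multiset.toFinset_card_le _).trans
          ((Polynomial.card_roots' P).trans hdeg)
  have hae : ∀ᵐ x : ℝ, x ≠ inner ℝ ν (c 0) := by
    rw [ae_iff]
    simp
  filter_upwards [hae] with x hx
  exact hcd x hx

end Pool.Agent.Y245.PC
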