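import Pool.Agent.Y245.PolyCurve

set_option autoImplicit false

/-!
# Taylor expansion along a line
-/

open MeasureTheory Set Filter Topology ENNReal NNReal Metric

namespace Pool.Agent.Y245.PC

open Pool.Agent.H742R2.Kk Pool.Agent.W767.Kc

variable {X Y : Type*} [NormedAddCommGroup X] [NormedSpace ℝ X] [NormedAddCommGroup Y]
  [NormedSpace ℝ Y]

/-- Bound for the iterated derivatives along a line. -/
theorem norm_iteratedDeriv_line {k : ℕ} {φ : X → Y} {U : Set X} (hU : IsOpen U)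
    (hφ : ContDiffOn ℝ k φ U) {p v : X} {t : ℝ} (ht : p + t • v ∈ U) :
    ‖iteratedDeriv k (fun s : ℝ => φ (p + s • v)) t‖ ≤
      ‖iteratedFDeriv ℝ k φ (p + t • v)‖ * ‖v‖ ^ k := by
  set L : ℝ →L[ℝ] X := (ContinuousLinearMap.id ℝ ℝ).smulRight v with hL
  have hLs : ∀ s : ℝ, L s = s • v := fun s => by simp [hL]
  set ψ : X → Y := fun x => φ (p + x) with hψ
  have hfun : (fun s : ℝ => φ (p + s • v)) = ψ ∘ L := by
    funext s
    simp [hψ, hLs]
  set s : Set X := (fun x => p + x) ⁻¹' U with hs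
  have hsO : IsOpen s := hU.preimage (by fun_prop)
  have hψc : ContDiffOn ℝ k ψ s := by
    apply hφ.comp (by fun_prop)
    intro x hx
    exact hx
  have hLO : IsOpen (L ⁻¹' s) := hsO.preimage L.continuous
  have htm : L t ∈ s := by
    simp only [hs, mem_preimage, hLs]
    exact ht
  have h1 := L.iteratedFDerivWithin_comp_right hψc hsO.uniqueDiffOn hLO.uniqueDiffOn
    (x := t) htm (i := k) le_rfl
  have h2 : iteratedFDerivWithin ℝ k (ψ ∘ L) (L ⁻¹' s) t = iteratedFDeriv ℝ k (ψ ∘ L) t :=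
    iteratedFDerivWithin_of_isOpen k hLO htm
  have h3 : iteratedFDerivWithin ℝ k ψ s (L t) = iteratedFDeriv ℝ k ψ (L t) :=
    iteratedFDerivWithin_of_isOpen k hsO htm
  have h4 : iteratedFDeriv ℝ k ψ (L t) = iteratedFDeriv ℝ k φ (p + L t) := by
    rw [hψ, iteratedFDeriv_comp_add_left]
  rw [← norm_iteratedFDeriv_eq_norm_iteratedDeriv, hfun, ← h2, h1, h3, h4, hLs]
  refine (ContinuousMultilinearMap.norm_compContinuousLinearMap_le _ _).trans ?_
  have hLn : ‖L‖ ≤ ‖v‖ := by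
    rw [hL]
    refine (ContinuousLinearMap.norm_smulRight_apply _ _).le.trans ?_
    rw [ContinuousLinearMap.norm_id, one_mul]
  gcongr
  rw [Finset.prod_const, Finset.card_univ, Fintype.card_fin]
  gcongr

/-- Approximation by polynomial curves along a line. -/
theorem taylor_line {n k : ℕ} (hk : 1 ≤ k) {φ : X → E n} {U : Set X} (hU : IsOpen U)
    (hφ : ContDiffOn ℝ k φ U) {p v : X} (hv : ‖v‖ ≤ 1) {h B : ℝ} (hh : 0 < h)
    (hseg : ∀ t ∈ Icc 0 h, p + t • v ∈ U ∧ ‖iteratedFDeriv ℝ k φ (p + t • v)‖ ≤ B) :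
    ∃ c : ℕ → E n, ∀ t ∈ Icc 0 h, ‖φ (p + t • v) - pcurve k c t‖ ≤ B * h ^ k := by
  obtain ⟨l, rfl⟩ : ∃ l, k = l + 1 := ⟨k - 1, by omega⟩
  set g : ℝ → E n := fun t => φ (p + t • v) with hg
  have hcg : ∀ t ∈ Icc 0 h, ContDiffAt ℝ (l + 1 : ℕ) g t := by
    intro t ht
    have h1 : ContDiffAt ℝ (l + 1 : ℕ) φ (p + t • v) :=
      hφ.contDiffAt (hU.mem_nhds (hseg t ht).1)
    exact ContDiffAt.comp t h1 (by fun_prop)
  have hgd : ContDiffOn ℝ (l + 1 : ℕ) g (Icc 0 h) := fun t ht => (hcg t ht).contDiffWithinAt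
  have hB : ∀ y ∈ Icc 0 h, ‖iteratedDerivWithin (l + 1) g (Icc 0 h) y‖ ≤ B := by
    intro y hy
    rw [← norm_iteratedFDerivWithin_eq_norm_iteratedDerivWithin,
      iteratedFDerivWithin_eq_iteratedFDeriv (uniqueDiffOn_Icc hh) (hcg y hy) hy,
      norm_iteratedFDeriv_eq_norm_iteratedDeriv]
    refine (norm_iteratedDeriv_line hU hφ (hseg y hy).1).trans ?_
    calc _ ≤ B * 1 ^ (l + 1) := by
          have h0 : 0 ≤ ‖iteratedFDeriv ℝ (l + 1) φ (p + y • v)‖ := norm_nonneg _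
          have h1 := (hseg y hy).2
          gcongr
          · exact h0.trans h1
      _ = B := by simp
  refine ⟨fun i => ((i.factorial : ℝ)⁻¹) • iteratedDerivWithin i g (Icc 0 h) 0, ?_⟩
  intro t ht
  have h1 := taylor_mean_remainder_bound hh.le (by exact_mod_cast hgd) ht hB
  have h2 : taylorWithinEval g l (Icc 0 h) 0 t =
      pcurve (l + 1) (fun i => ((i.factorial : ℝ)⁻¹) • iteratedDerivWithin i g (Icc 0 h) 0) t := by
    rw [taylor_within_apply, pcurve]
    apply Finset.sum_congr rfl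
    intro i _
    rw [sub_zero, smul_smul, mul_comm]
  rw [h2] at h1
  have hB0 : 0 ≤ B := (norm_nonneg _).trans (hB 0 ⟨le_rfl, hh.le⟩)
  refine h1.trans ?_
  have h3 : (1:ℝ) ≤ (l.factorial : ℝ) := by exact_mod_cast Nat.factorial_pos l
  calc B * (t - 0) ^ (l + 1) / (l.factorial : ℝ) ≤ B * (t - 0) ^ (l + 1) := by
        apply div_le_self _ h3
        have : 0 ≤ t - 0 := by linarith [ht.1]
        positivity
    _ ≤ B * h ^ (l + 1) := by
        rw [sub_zero]
        have := ht.1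
        have := ht.2
        gcongr

end Pool.Agent.Y245.PC
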