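import Pool.Agent.Y245.Cover
import Pool.Agent.H023R3.KakSet

set_option autoImplicit false

/-!
# From maximal estimates to Hausdorff dimension
-/

open MeasureTheory Set Filter Topology ENNReal NNReal Metric

namespace Pool.Agent.Y245.Tr

open Pool.Agent.H742R2.Kk Pool.Agent.H023R3.KS

/-- The closed tube of length `1` and radius `δ` with centre `b` and axis direction `e`. -/
def tube {n : ℕ} (δ : ℝ) (e b : E n) : Set (E n) :=
  {y | |inner ℝ (y - b) e| ≤ 1 / 2 ∧ ‖(y - b) - (inner ℝ (y - b) e : ℝ) • e‖ ≤ δ}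

theorem real_bound2 (m p : ℕ) {c A η ε s : ℝ} (hc : 0 < c) (hA : 0 < A)
    (hε : 0 < ε) (hs0 : 0 ≤ s) (hs : s + 2 * ε ≤ (m:ℝ) + 1 - η) :
    ∃ C₁ : ℝ, 0 < C₁ ∧ ∀ (j : ℕ) (r : ℝ), 0 < r → (1 / 2 : ℝ) ^ (j + 2) < r →
      (((j : ℝ) + 1) ^ 2 / c) ^ p * (A * ((2:ℝ) ^ (j + 1)) ^ (η + ε)) *
        (2 * (1 / 2) ^ (j + 1)) ^ (m + 1) ≤ C₁ * r ^ s := by
  have hl2 : 0 < Real.log 2 := Real.log_pos (by norm_num)
  set t : ℝ := ε * Real.log 2 / (2 * p + 1) with ht
  have ht0 : 0 < t := by positivity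
  refine ⟨(1 / c) ^ p * (1 / t) ^ (2 * p) * A * 2 ^ (m + 1) * 2 ^ s, by positivity, ?_⟩
  intro j r hr hj
  set x : ℝ := (j : ℝ) + 1 with hx
  have hx0 : 0 < x := by positivity
  set D : ℝ := (2:ℝ) ^ (j + 1) with hD
  have hD0 : 0 < D := by positivity
  have hD1 : 1 ≤ D := one_le_pow₀ (by norm_num)
  have hDx : D = Real.exp (x * Real.log 2) := by
    rw [hD, ← Real.rpow_natCast, Real.rpow_def_of_pos (by norm_num)]
    congr 1
    push_cast
    rw [hx]; ring
  have h1 : x ^ (2 * p) ≤ (1 / t) ^ (2 * p) * D ^ ε := by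
    have h2 : x ≤ (1 / t) * Real.exp (t * x) := by
      rw [one_div_mul_eq_div, le_div_iff₀ ht0]
      have := Real.add_one_le_exp (t * x)
      linarith
    calc x ^ (2 * p) ≤ ((1 / t) * Real.exp (t * x)) ^ (2 * p) := by gcongr
      _ = (1 / t) ^ (2 * p) * Real.exp (t * x * (2 * p)) := by
        rw [mul_pow, ← Real.exp_nat_mul]
        congr 2
        push_cast
        ring
      _ ≤ (1 / t) ^ (2 * p) * D ^ ε := by
        gcongr
        rw [hDx, ← Real.exp_mul]
        apply Real.exp_le_exp.2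
        have h3 : t * (2 * p) ≤ ε * Real.log 2 := by
          rw [ht, div_mul_eq_mul_div, div_le_iff₀ (by positivity)]
          have : 0 ≤ ε * Real.log 2 := by positivity
          nlinarith
        nlinarith
  have h2 : (2 * (1 / 2 : ℝ) ^ (j + 1)) ^ (m + 1) = 2 ^ (m + 1) * D ^ (-((m:ℝ) + 1)) := by
    rw [mul_pow]
    congr 1
    rw [Real.rpow_neg hD0.le, one_div, inv_pow, inv_pow, hD]
    congr 1
    rw [← Real.rpow_natCast _ (m + 1)]
    congr 1
    push_cast
    ring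
  have h3 : D ^ ε * D ^ (η + ε) * D ^ (-((m:ℝ) + 1)) ≤ D ^ (-s) := by
    rw [← Real.rpow_add hD0, ← Real.rpow_add hD0]
    apply Real.rpow_le_rpow_of_exponent_le hD1
    linarith
  have h4 : D ^ (-s) ≤ 2 ^ s * r ^ s := by
    rw [← Real.mul_rpow (by norm_num) hr.le, Real.rpow_neg hD0.le, ← Real.inv_rpow hD0.le]
    apply Real.rpow_le_rpow (by positivity) _ hs0
    have h5 : (1 / 2 : ℝ) ^ (j + 2) = D⁻¹ / 2 := by
      rw [hD, pow_succ, one_div, inv_pow]
      ring
    rw [h5] at hj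
    linarith
  calc (x ^ 2 / c) ^ p * (A * D ^ (η + ε)) * (2 * (1 / 2) ^ (j + 1)) ^ (m + 1)
      = (1 / c) ^ p * x ^ (2 * p) * A * D ^ (η + ε) * (2 ^ (m + 1) * D ^ (-((m:ℝ) + 1))) := by
        rw [h2, div_pow, ← pow_mul, one_div, inv_pow]
        ring
    _ ≤ (1 / c) ^ p * ((1 / t) ^ (2 * p) * D ^ ε) * A * D ^ (η + ε) *
        (2 ^ (m + 1) * D ^ (-((m:ℝ) + 1))) := by gcongr
    _ = (1 / c) ^ p * (1 / t) ^ (2 * p) * A * 2 ^ (m + 1) *
        (D ^ ε * D ^ (η + ε) * D ^ (-((m:ℝ) + 1))) := by ring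
    _ ≤ (1 / c) ^ p * (1 / t) ^ (2 * p) * A * 2 ^ (m + 1) * (2 ^ s * r ^ s) :=
        mul_le_mul_of_nonneg_left (h3.trans h4) (by positivity)
    _ = _ := by ring

/-- The normalised measure of the part of `F` in the tube. -/
noncomputable def av {m : ℕ} (δ : ℝ) (F : Set (E (m + 1))) (e b : E (m + 1)) : ℝ≥0∞ :=
  (ENNReal.ofReal δ ^ m)⁻¹ * volume (F ∩ tube δ e b)

/-- Lower bound for the part of a tube in a set. -/
theorem av_ge {m : ℕ} {c : ℝ} (hc : 0 < c)
    (hvol : ∀ (δ : ℝ) (e b : E (m + 1)) (A : Set ℝ), 0 < δ →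
    ‖e‖ = 1 → MeasurableSet A →
    ENNReal.ofReal (c * δ ^ m) * volume A ≤ volume {y : E (m + 1) | inner ℝ y e ∈ A ∧
      ‖(y - b) - (inner ℝ (y - b) e : ℝ) • e‖ ≤ δ})
    {δ : ℝ} (hδ : 0 < δ) {a e : E (m + 1)} (he : ‖e‖ = 1) (k : ℤ)
    {A : Set ℝ} (hA : MeasurableSet A) {F : Set (E (m + 1))}
    (hsub : ∀ u ∈ A, (k : ℝ) ≤ u ∧ u ≤ k + 1 ∧
      closedBall (a + (u - inner ℝ a e : ℝ) • e) δ ⊆ F) :
    ENNReal.ofReal c * volume A ≤
      av δ F e (a + ((k:ℝ) + 1 / 2 - inner ℝ a e : ℝ) • e) := by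
  have hD0 : ENNReal.ofReal δ ^ m ≠ 0 := pow_ne_zero _ (by simpa using hδ)
  have hDt : ENNReal.ofReal δ ^ m ≠ ∞ := ENNReal.pow_ne_top ENNReal.ofReal_ne_top
  have hee : (inner ℝ e e : ℝ) = 1 := by rw [real_inner_self_eq_norm_sq, he]; norm_num
  set b := a + ((k:ℝ) + 1 / 2 - inner ℝ a e : ℝ) • e with hb
  have hbe : (inner ℝ b e : ℝ) = k + 1 / 2 := by
    rw [hb, inner_add_left, inner_smul_left, hee]
    simp
  have h1 := hvol δ e a A hδ he hA
  have h3 : {y : E (m + 1) | inner ℝ y e ∈ A ∧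
      ‖(y - a) - (inner ℝ (y - a) e : ℝ) • e‖ ≤ δ} ⊆ F ∩ tube δ e b := by
    rintro y ⟨hy1, hy2⟩
    obtain ⟨h4, h5, h6⟩ := hsub _ hy1
    have h7 : y - (a + (inner ℝ y e - inner ℝ a e : ℝ) • e)
        = (y - a) - (inner ℝ (y - a) e : ℝ) • e := by
      rw [inner_sub_left]
      abel
    refine ⟨h6 ?_, ?_, ?_⟩
    · rw [mem_closedBall, dist_eq_norm, h7]
      exact hy2
    · rw [inner_sub_left, hbe, abs_le]
      constructor <;> linarith
    · have h8 : (y - b) - (inner ℝ (y - b) e : ℝ) • e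
          = (y - a) - (inner ℝ (y - a) e : ℝ) • e := by
        rw [inner_sub_left, hbe, inner_sub_left, hb]
        rw [sub_smul, sub_smul, sub_smul, add_smul]
        abel
      rw [h8]
      exact hy2
  unfold av
  calc ENNReal.ofReal c * volume A
      = (ENNReal.ofReal δ ^ m)⁻¹ * (ENNReal.ofReal (c * δ ^ m) * volume A) := by
        rw [ENNReal.ofReal_mul hc.le, ENNReal.ofReal_pow hδ.le]
        rw [show ENNReal.ofReal c * ENNReal.ofReal δ ^ m * volume A
          = ENNReal.ofReal δ ^ m * (ENNReal.ofReal c * volume A) by ring]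
        rw [← mul_assoc, ENNReal.inv_mul_cancel hD0 hDt, one_mul]
    _ ≤ _ := by
        gcongr
        exact h1.trans (measure_mono h3)

/-- The hypothesis of the transfer: for all small scales and all measurable sets `F` the maximal
function over the tubes around the lines of the family has a majorant with controlled integral. -/
def MaxHyp (m p : ℕ) (η : ℝ) (S : Set (sphere (0 : E (m + 1)) 1))
    (a : sphere (0 : E (m + 1)) 1 → E (m + 1)) : Prop :=
  ∀ ε : ℝ, 0 < ε → ∃ A : ℝ, 0 < A ∧ ∀ (j : ℕ) (F : Set (E (m + 1))), MeasurableSet F →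
    ∃ G : sphere (0 : E (m + 1)) 1 → ℝ≥0∞, Measurable G ∧
      (∀ e ∈ S, ∀ t : ℝ, av ((1 / 2) ^ (j + 1)) F e (a e + t • (e : E (m + 1))) ^ p ≤ G e) ∧
      ∫⁻ e, G e ∂(volume : Measure (E (m + 1))).toSphere ≤
        ENNReal.ofReal (A * ((2:ℝ) ^ (j + 1)) ^ (η + ε)) * volume F

theorem content2 {m p : ℕ} {η s lam : ℝ} (hlam : 0 < lam) (hs0 : 0 ≤ s) (hs : s < (m:ℝ) + 1 - η)
    {S : Set (sphere (0 : E (m + 1)) 1)} {a : sphere (0 : E (m + 1)) 1 → E (m + 1)}
    (hmax : MaxHyp m p η S a) {K : Set (E (m + 1))}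
    (hseg : ∀ e ∈ S, ∃ k : ℤ, ENNReal.ofReal lam ≤
      volume ({u : ℝ | a e + (u - inner ℝ (a e) (e : E (m + 1)) : ℝ) • (e : E (m + 1)) ∈ K} ∩
        Icc (k : ℝ) (k + 1))) :
    ∃ C : ℝ, 0 < C ∧ ∀ (x : ℕ → E (m + 1)) (r : ℕ → ℝ), (∀ i, 0 < r i ∧ r i ≤ 1 / 2) →
      K ⊆ ⋃ i, closedBall (x i) (r i) →
      (volume : Measure (E (m + 1))).toSphere S ≤
        ENNReal.ofReal C * ∑' i, ENNReal.ofReal (r i ^ s) := by
  obtain ⟨c, hc, hvol⟩ := vol_sub m
  obtain ⟨c₀, hc₀, hw⟩ := weights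
  set ε : ℝ := ((m:ℝ) + 1 - η - s) / 2 with hε
  have hε0 : 0 < ε := by rw [hε]; linarith
  obtain ⟨A₀, hA₀, hmx⟩ := hmax ε hε0
  set c₁ : ℝ := c * (lam * c₀) with hc₁
  have hc₁0 : 0 < c₁ := by positivity
  obtain ⟨C₁, hC₁, hreal⟩ := real_bound2 m p hc₁0 hA₀ hε0 hs0
    (η := η) (by rw [hε]; linarith)
  set V := volume (ball (0 : E (m + 1)) 1) with hV
  have hV0 : V ≠ 0 := (measure_ball_pos volume _ one_pos).ne'
  have hVt : V ≠ ∞ := measure_ball_lt_top.ne
  have hV' : 0 < V.toReal := ENNReal.toReal_pos hV0 hVt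
  refine ⟨C₁ * V.toReal, by positivity, ?_⟩
  intro x r hr hcov
  have hex : ∀ i, ∃ j : ℕ, (1 / 2 : ℝ) ^ (j + 2) < r i ∧ r i ≤ (1 / 2) ^ (j + 1) := by
    intro i
    obtain ⟨n, hn1, hn2⟩ := exists_nat_pow_near_of_lt_one (hr i).1
      ((hr i).2.trans (by norm_num)) (by norm_num : (0 : ℝ) < 1 / 2) (by norm_num)
    rcases n with _ | n
    · exfalso
      have := (hr i).2
      norm_num at hn1
      linarith
    · exact ⟨n, hn1, hn2⟩
  choose J hJ1 hJ2 using hex
  set A : ℕ → Set (E (m + 1)) := fun j => ⋃ i, ⋃ (_ : J i = j), closedBall (x i) (r i) with hA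
  set F : ℕ → Set (E (m + 1)) := fun j =>
    ⋃ i, ⋃ (_ : J i = j), closedBall (x i) (2 * (1 / 2) ^ (j + 1)) with hF
  have hAm : ∀ j, MeasurableSet (A j) := fun j =>
    MeasurableSet.iUnion (fun i => MeasurableSet.iUnion (fun _ => measurableSet_closedBall))
  have hFm : ∀ j, MeasurableSet (F j) := fun j =>
    MeasurableSet.iUnion (fun i => MeasurableSet.iUnion (fun _ => measurableSet_closedBall))
  set W : ℕ → ℝ := fun j => ((j : ℝ) + 1) ^ 2 / c₁ with hW
  have hW0 : ∀ j, 0 < W j := fun j => by simp only [hW]; positivity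
  choose G hGm hGpt hGint using fun j => hmx j (F j) (hFm j)
  have hδ0 : ∀ j : ℕ, (0 : ℝ) < (1 / 2) ^ (j + 1) := fun j => by positivity
  -- pointwise bound
  have hpt : ∀ e ∈ S, (1 : ℝ≥0∞) ≤ ∑' j, ENNReal.ofReal (W j) ^ p * G j e := by
    intro e he
    obtain ⟨k, hk0⟩ := hseg e he
    set φ : ℝ → E (m + 1) := fun u => a e + (u - inner ℝ (a e) (e : E (m + 1)) : ℝ) • (e : E (m + 1))
      with hφ
    have hφc : Continuous φ := by
      simp only [hφ]
      fun_prop
    obtain ⟨j, hk⟩ := cover_len (P := {u | φ u ∈ K}) (fun j : ℕ => φ ⁻¹' (A j))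
      (by simpa using hlam) ENNReal.ofReal_ne_top hk0 (by
        intro u hu'
        have h1 := hcov hu'
        obtain ⟨i, hi⟩ := mem_iUnion.1 h1
        refine mem_iUnion.2 ⟨J i, ?_⟩
        simp only [hA, mem_preimage, mem_iUnion]
        exact ⟨i, rfl, hi⟩) (fun j => ENNReal.ofReal (c₀ / ((j : ℝ) + 1) ^ 2)) hw
    have hAk : MeasurableSet (φ ⁻¹' (A j) ∩ Icc (k : ℝ) (k + 1)) :=
      (hφc.measurable (hAm j)).inter measurableSet_Icc
    have h2 := av_ge hc hvol (hδ0 j) (a := a e) (e := (e : E (m + 1))) (by simp) k hAk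
      (F := F j) ?_
    · set M := av ((1 / 2) ^ (j + 1)) (F j) (e : E (m + 1))
        (a e + ((k:ℝ) + 1 / 2 - inner ℝ (a e) (e : E (m + 1)) : ℝ) • (e : E (m + 1))) with hM
      have h3 : ENNReal.ofReal c * (ENNReal.ofReal lam *
          ENNReal.ofReal (c₀ / ((j : ℝ) + 1) ^ 2)) ≤ M := by
        calc _ ≤ ENNReal.ofReal c * volume (φ ⁻¹' (A j) ∩ Icc (k : ℝ) (k + 1)) := by gcongr
          _ ≤ _ := h2
      have h4 : (1 : ℝ≥0∞) ≤ ENNReal.ofReal (W j) * M := by
        calc (1 : ℝ≥0∞) = ENNReal.ofReal (W j) *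
              (ENNReal.ofReal c * (ENNReal.ofReal lam *
                ENNReal.ofReal (c₀ / ((j : ℝ) + 1) ^ 2))) := by
              rw [← ENNReal.ofReal_mul hlam.le, ← ENNReal.ofReal_mul hc.le,
                ← ENNReal.ofReal_mul (hW0 j).le]
              rw [← ENNReal.ofReal_one]
              congr 1
              simp only [hW, hc₁]
              field_simp
          _ ≤ _ := by gcongr
      calc (1 : ℝ≥0∞) = 1 ^ p := (one_pow _).symm
        _ ≤ (ENNReal.ofReal (W j) * M) ^ p := pow_le_pow_left' h4 _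
        _ = ENNReal.ofReal (W j) ^ p * M ^ p := mul_pow _ _ _
        _ ≤ ENNReal.ofReal (W j) ^ p * G j e := by
            gcongr
            exact hGpt j e he _
        _ ≤ _ := ENNReal.le_tsum j
    · rintro u ⟨hu1, hu2⟩
      refine ⟨hu2.1, hu2.2, ?_⟩
      intro y hy
      simp only [hA, mem_preimage, mem_iUnion] at hu1
      obtain ⟨i, hi, hi2⟩ := hu1
      simp only [hF, mem_iUnion]
      refine ⟨i, hi, ?_⟩
      rw [mem_closedBall] at hy hi2 ⊢
      have h6 := dist_triangle y (φ u) (x i)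
      have h7 := hJ2 i
      rw [hi] at h7
      have h8 : dist y (φ u) ≤ (1 / 2) ^ (j + 1) := hy
      linarith
  -- integrate
  have hσ : (volume : Measure (E (m + 1))).toSphere S ≤
      ∑' j, ENNReal.ofReal (W j) ^ p * ∫⁻ e : sphere (0 : E (m + 1)) 1,
        G j e ∂(volume : Measure (E (m + 1))).toSphere := by
    have hmj : ∀ j, Measurable (fun e : sphere (0 : E (m + 1)) 1 =>
        ENNReal.ofReal (W j) ^ p * G j e) := fun j => (hGm j).const_mul _
    have h1 : (volume : Measure (E (m + 1))).toSphere S ≤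
        ∫⁻ e : sphere (0 : E (m + 1)) 1, ∑' j, ENNReal.ofReal (W j) ^ p *
        G j e ∂(volume : Measure (E (m + 1))).toSphere := by
      have h2 := mul_meas_ge_le_lintegral (μ := (volume : Measure (E (m + 1))).toSphere)
        (Measurable.ennreal_tsum hmj) 1
      rw [one_mul] at h2
      refine le_trans (measure_mono ?_) h2
      intro e he
      exact hpt e he
    refine h1.trans ?_
    rw [lintegral_tsum (fun j => (hmj j).aemeasurable)]
    apply ENNReal.tsum_le_tsum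
    intro j
    rw [lintegral_const_mul' _ _ (ENNReal.pow_ne_top ENNReal.ofReal_ne_top)]
  have hvF : ∀ j, volume (F j) ≤ ∑' i, if J i = j then
      ENNReal.ofReal ((2 * (1 / 2) ^ (j + 1)) ^ (m + 1)) * V else 0 := by
    intro j
    refine (measure_iUnion_le _).trans ?_
    apply ENNReal.tsum_le_tsum
    intro i
    by_cases h : J i = j
    · simp only [h, iUnion_true, if_true]
      rw [Measure.addHaar_closedBall _ _ (by positivity)]
      simp [hV]
    · simp [h]
  calc (volume : Measure (E (m + 1))).toSphere S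
      ≤ ∑' j, ENNReal.ofReal (W j) ^ p * ∫⁻ e : sphere (0 : E (m + 1)) 1,
        G j e ∂(volume : Measure (E (m + 1))).toSphere := hσ
    _ ≤ ∑' j, ∑' i, if J i = j then ENNReal.ofReal (W j) ^ p *
          (ENNReal.ofReal (A₀ * ((2:ℝ) ^ (j + 1)) ^ (η + ε)) *
            (ENNReal.ofReal ((2 * (1 / 2) ^ (j + 1)) ^ (m + 1)) * V)) else 0 := by
          apply ENNReal.tsum_le_tsum
          intro j
          calc _ ≤ ENNReal.ofReal (W j) ^ p *
                (ENNReal.ofReal (A₀ * ((2:ℝ) ^ (j + 1)) ^ (η + ε)) *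
                  volume (F j)) := by
                gcongr
                exact hGint j
            _ ≤ ENNReal.ofReal (W j) ^ p *
                (ENNReal.ofReal (A₀ * ((2:ℝ) ^ (j + 1)) ^ (η + ε)) *
                  ∑' i, if J i = j then
                    ENNReal.ofReal ((2 * (1 / 2) ^ (j + 1)) ^ (m + 1)) * V else 0) := by
                gcongr
                exact hvF j
            _ = _ := by
                rw [← ENNReal.tsum_mul_left, ← ENNReal.tsum_mul_left]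
                apply tsum_congr
                intro i
                split_ifs <;> simp
    _ = ∑' i, ENNReal.ofReal (W (J i)) ^ p *
          (ENNReal.ofReal (A₀ * ((2:ℝ) ^ (J i + 1)) ^ (η + ε)) *
            (ENNReal.ofReal ((2 * (1 / 2) ^ (J i + 1)) ^ (m + 1)) * V)) := by
          rw [ENNReal.tsum_comm]
          apply tsum_congr
          intro i
          rw [tsum_eq_single (J i)]
          · simp
          · intro j hj
            rw [if_neg (fun h => hj h.symm)]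
    _ ≤ ∑' i, ENNReal.ofReal (C₁ * V.toReal) * ENNReal.ofReal (r i ^ s) := by
          apply ENNReal.tsum_le_tsum
          intro i
          have h1 := hreal (J i) (r i) (hr i).1 (hJ1 i)
          have e1 : ENNReal.ofReal (W (J i)) ^ p *
          (ENNReal.ofReal (A₀ * ((2:ℝ) ^ (J i + 1)) ^ (η + ε)) *
            (ENNReal.ofReal ((2 * (1 / 2) ^ (J i + 1)) ^ (m + 1)) * V)) =
            ENNReal.ofReal ((W (J i)) ^ p * (A₀ * ((2:ℝ) ^ (J i + 1)) ^ (η + ε)) *
              (2 * (1 / 2) ^ (J i + 1)) ^ (m + 1)) * V := by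
            have := hW0 (J i)
            rw [← ENNReal.ofReal_pow (hW0 _).le,
              ENNReal.ofReal_mul (p := (W (J i)) ^ p * (A₀ * ((2:ℝ) ^ (J i + 1)) ^ (η + ε)))
                (by positivity),
              ENNReal.ofReal_mul (p := (W (J i)) ^ p) (by positivity)]
            simp only [mul_assoc]
          rw [e1]
          calc _ ≤ ENNReal.ofReal (C₁ * r i ^ s) * V := by gcongr
            _ = _ := by
              rw [ENNReal.ofReal_mul hC₁.le, ENNReal.ofReal_mul hC₁.le, ENNReal.ofReal_toReal hVt]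
              ring
    _ = ENNReal.ofReal (C₁ * V.toReal) * ∑' i, ENNReal.ofReal (r i ^ s) := by
          rw [ENNReal.tsum_mul_left]

/-- **Transfer.** -/
theorem dim_ge {m p : ℕ} {η : ℝ} {S : Set (sphere (0 : E (m + 1)) 1)}
    (hS : (volume : Measure (E (m + 1))).toSphere S ≠ 0)
    {a : sphere (0 : E (m + 1)) 1 → E (m + 1)}
    (hmax : MaxHyp m p η S a) {K : Set (E (m + 1))}
    (hK : ∀ e ∈ S, volume {t : ℝ | a e + t • (e : E (m + 1)) ∈ K} ≠ 0) :
    ENNReal.ofReal ((m:ℝ) + 1 - η) ≤ dimH K := by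
  by_contra hlt
  push Not at hlt
  obtain ⟨s, hs1, hs2⟩ := ENNReal.lt_iff_exists_nnreal_btwn.1 hlt
  have hs3 : (s : ℝ) < (m:ℝ) + 1 - η := by
    have h1 : (s : ℝ≥0∞) = ENNReal.ofReal s := by simp
    rw [h1] at hs2
    exact (ENNReal.ofReal_lt_ofReal_iff_of_nonneg s.2).1 hs2
  have hs0 : 0 < s := by
    have : (0 : ℝ≥0∞) < s := lt_of_le_of_lt zero_le hs1
    exact_mod_cast this
  set hts : sphere (0 : E (m + 1)) 1 → Set ℝ := fun e =>
    {u : ℝ | a e + (u - inner ℝ (a e) (e : E (m + 1)) : ℝ) • (e : E (m + 1)) ∈ K} with hhts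
  set T : ℕ → Set (sphere (0 : E (m + 1)) 1) := fun N =>
    {e | ∃ k : ℤ, ENNReal.ofReal (1 / (N + 1)) ≤ volume (hts e ∩ Icc (k : ℝ) (k + 1))} with hT
  have hcov : S ⊆ ⋃ N, T N := by
    intro e he
    have h1 := hK e he
    have h2 : 0 < volume (hts e) := by
      have h3 : hts e = (fun u => u + (-inner ℝ (a e) (e : E (m + 1)))) ⁻¹'
          {t : ℝ | a e + t • (e : E (m + 1)) ∈ K} := by
        ext u
        simp only [hhts, mem_setOf_eq, mem_preimage, sub_eq_add_neg]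
      rw [h3, measure_preimage_add_right]
      exact pos_iff_ne_zero.2 h1
    have h4 : ∃ k : ℤ, 0 < volume (hts e ∩ Icc (k : ℝ) (k + 1)) := by
      by_contra hcon
      push Not at hcon
      have h5 : volume (⋃ k : ℤ, hts e ∩ Icc (k : ℝ) (k + 1)) = 0 :=
        measure_iUnion_null (fun k => le_antisymm (hcon k) zero_le)
      have h6 : hts e ⊆ ⋃ k : ℤ, hts e ∩ Icc (k : ℝ) (k + 1) := by
        intro u hu
        exact mem_iUnion.2 ⟨⌊u⌋, hu, Int.floor_le u, (Int.lt_floor_add_one u).le⟩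
      exact absurd (measure_mono_null h6 h5) h2.ne'
    obtain ⟨k, hk⟩ := h4
    obtain ⟨N, hN⟩ := ENNReal.exists_inv_nat_lt hk.ne'
    refine mem_iUnion.2 ⟨N, k, ?_⟩
    refine le_trans ?_ hN.le
    have h7 : ENNReal.ofReal (1 / ((N:ℝ) + 1)) ≤ ((N + 1 : ℕ) : ℝ≥0∞)⁻¹ := by
      rw [one_div, ENNReal.ofReal_inv_of_pos (by positivity)]
      apply le_of_eq
      congr 1
      rw [← Nat.cast_succ, ENNReal.ofReal_natCast]
    refine h7.trans (ENNReal.inv_le_inv.2 ?_)
    exact_mod_cast Nat.le_succ N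
  have hex : ∃ N, (volume : Measure (E (m + 1))).toSphere (S ∩ T N) ≠ 0 := by
    by_contra hcon
    push Not at hcon
    apply hS
    have h1 : S ⊆ ⋃ N, S ∩ T N := by
      rw [← inter_iUnion]
      exact subset_inter subset_rfl hcov
    exact measure_mono_null h1 (measure_iUnion_null hcon)
  obtain ⟨N, hN⟩ := hex
  have hmax' : MaxHyp m p η (S ∩ T N) a := by
    intro ε hε
    obtain ⟨A, hA, h⟩ := hmax ε hε
    refine ⟨A, hA, fun j F hF => ?_⟩
    obtain ⟨G, h1, h2, h3⟩ := h j F hF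
    exact ⟨G, h1, fun e he t => h2 e he.1 t, h3⟩
  obtain ⟨C, hC, hcont⟩ := content2 (lam := 1 / ((N:ℝ) + 1)) (by positivity) s.2 hs3 hmax'
    (K := K) (fun e he => he.2)
  set σS := (volume : Measure (E (m + 1))).toSphere (S ∩ T N) with hσ
  have hσt : σS ≠ ∞ := measure_ne_top _ _
  have hσ0 : 0 < σS.toReal := ENNReal.toReal_pos hN hσt
  obtain ⟨x, r, hr, hcv, hsum⟩ := cover_of_dimH_lt hs0 hs1 (ρ := 1 / 2) (by norm_num)
    (ε := σS.toReal / (2 * C)) (by positivity)
  have h8 := (hcont x r hr hcv).trans (mul_le_mul_right hsum _)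
  rw [← ENNReal.ofReal_mul hC.le] at h8
  have h9 : C * (σS.toReal / (2 * C)) = σS.toReal / 2 := by field_simp
  rw [h9] at h8
  have h10 : σS = ENNReal.ofReal σS.toReal := (ENNReal.ofReal_toReal hσt).symm
  have h11 : ENNReal.ofReal σS.toReal ≤ ENNReal.ofReal (σS.toReal / 2) := h10 ▸ h8
  rw [ENNReal.ofReal_le_ofReal_iff (by positivity)] at h11
  linarith

end Pool.Agent.Y245.Tr
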